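import Pool.Agent.X65.RamDeg.RSets
import Pool.Agent.X49.Deg.Hyper

/-!
The growth of the Ramsey function for colourings of `r`-sets of fixed degree.
-/

namespace Pool.Agent.X65.RamDeg.RLim

open MvPolynomial Finset Filter Topology
open Pool.Agent.X49.Deg (coords SetGivenBy Homog)

/-- A two-colouring of the `r`-sets of bit vectors of length `m`, of degree at most `D`, without
homogeneous set of `n` points. -/
def HasCol (r D n m : ℕ) : Prop :=
  ∃ (c : Finset (Fin m → ZMod 2) → ZMod 2) (f : Fin 1 → MvPolynomial (Fin r × Fin m) (ZMod 2)),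
    (∀ j, (f j).totalDegree ≤ D) ∧ SetGivenBy f c ∧
    ∀ S : Finset (Fin m → ZMod 2), S.card = n → ¬ Homog r c S

/-- the largest `m` with such a colouring -/
noncomputable def maxDim (r D n : ℕ) : ℕ := sSup {m | HasCol r D n m}

theorem hasCol_lt {r D n m u : ℕ} (h : HasCol r D n m) (hu : n ≤ 2 ^ u) :
    m < 1 * (r * D * (r * u + (D - 1)).choose (D - 1)) + u := by
  obtain ⟨c, f, hf, hc, hn⟩ := h
  exact Pool.Agent.X49.Deg.set_card_lt f c hf hc hn (by rw [ZMod.card]; exact hu)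

theorem bddAbove_dim (r D n : ℕ) : BddAbove {m | HasCol r D n m} :=
  ⟨1 * (r * D * (r * n + (D - 1)).choose (D - 1)) + n,
    fun _ hm => (hasCol_lt hm Nat.lt_two_pow_self.le).le⟩

theorem le_maxDim {r D n m : ℕ} (h : HasCol r D n m) : m ≤ maxDim r D n :=
  le_csSup (bddAbove_dim r D n) h

theorem hasCol_zero {r D n : ℕ} (hr : 1 ≤ r) (hn : 2 ≤ n) : HasCol r D n 0 := by
  classical
  refine ⟨fun _ => 0, fun _ => 0, fun j => by simp, ⟨fun _ => 0, fun A hA => ?_⟩, ?_⟩
  · obtain ⟨a, ha⟩ := Finset.card_pos.1 (by omega : 0 < A.card)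
    exact ⟨fun _ => a, fun _ => ha, rfl⟩
  · intro S hS
    have h1 : S.card ≤ 1 := Finset.card_le_one.2 fun a _ b _ => Subsingleton.elim a b
    omega

theorem maxDim_mem {r D n : ℕ} (hr : 1 ≤ r) (hn : 2 ≤ n) : HasCol r D n (maxDim r D n) :=
  Nat.sSup_mem ⟨0, hasCol_zero hr hn⟩ (bddAbove_dim r D n)

theorem homog_subset {V κ : Type} {r : ℕ} {c : Finset V → κ} {S T : Finset V} (h : Homog r c S)
    (hT : T ⊆ S) : Homog r c T :=
  fun A hA B hB h1 h2 => h A (hA.trans hT) B (hB.trans hT) h1 h2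

theorem exists_lower_sets (r D q : ℕ) (hr : 2 ≤ r) (hD : 2 ≤ D) (hq : 1 ≤ q) :
    ∃ n₀ : ℕ, ∀ n ≥ n₀, ∀ m : ℕ, 1 ≤ m →
      m ^ q ≤ (Nat.log 2 n - 2) ^ ((D - 1) * q - 1) → HasCol r D n m := by
  classical
  obtain ⟨κ₀, hκ₀⟩ := exists_sharp_sets r (D - 1) q hr (by omega) hq
  refine ⟨2 ^ (κ₀ + 2), fun n hn m hm hmq => ?_⟩
  have hn0 : n ≠ 0 := by
    have : 1 ≤ 2 ^ (κ₀ + 2) := Nat.one_le_pow _ _ (by norm_num)
    omega
  have h1 : κ₀ + 2 ≤ Nat.log 2 n := Nat.le_log_of_pow_le (by norm_num) hn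
  obtain ⟨c, P, hP, hc, hA⟩ := hκ₀ (Nat.log 2 n - 2) (by omega) m hm hmq
  have h2 : 2 ^ (Nat.log 2 n - 2 + 2) ≤ n := by
    rw [Nat.sub_add_cancel (by omega)]
    exact Nat.pow_log_le_self 2 hn0
  refine ⟨c, fun _ => P, fun _ => hP.trans (by omega), ⟨fun z => z 0, fun A hAr => ?_⟩, ?_⟩
  · obtain ⟨e⟩ := Fintype.truncEquivOfCardEq (by
      rw [Fintype.card_fin, Fintype.card_coe, hAr] : Fintype.card (Fin r) = Fintype.card A)
    have hinj : Function.Injective (fun i : Fin r => (e i : Fin m → ZMod 2)) :=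
      Subtype.val_injective.comp e.injective
    refine ⟨fun i => (e i : Fin m → ZMod 2), fun i => (e i).2, ?_⟩
    have h3 := hc _ hinj
    have h4 : Finset.univ.image (fun i : Fin r => (e i : Fin m → ZMod 2)) = A := by
      refine Finset.eq_of_subset_of_card_le ?_ ?_
      · intro x hx
        obtain ⟨i, -, rfl⟩ := Finset.mem_image.1 hx
        exact (e i).2
      · rw [Finset.card_image_of_injective _ hinj, Finset.card_univ, Fintype.card_fin, hAr]
    rw [h4] at h3
    exact h3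
  · intro S hS hhom
    obtain ⟨T, hTS, hT⟩ := Finset.exists_subset_card_eq (s := S) (h2.trans_eq hS.symm)
    obtain ⟨R, hR, R', hR', c1, c2, c3⟩ := hA T hT
    exact c3 (homog_subset hhom hTS R hR R' hR' c1 c2)

/-- From two-sided bounds to the growth exponent. -/
theorem tendsto_of_bounds (M : ℕ → ℕ) (t : ℕ) (ht : 1 ≤ t)
    (hlow : ∀ q : ℕ, 1 ≤ q → ∃ n₀ : ℕ, ∀ n ≥ n₀, ∀ m : ℕ, 1 ≤ m →
      m ^ q ≤ (Nat.log 2 n - 2) ^ (t * q - 1) → m ≤ M n)
    (C : ℝ) (hC : 1 ≤ C) (hup : ∀ n : ℕ, 2 ≤ n → (M n : ℝ) ≤ C * (Real.log n) ^ t) :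
    Tendsto (fun n : ℕ => Real.log (M n) / Real.log (Real.log n)) atTop (𝓝 (t : ℝ)) := by
  have hx : Tendsto (fun n : ℕ => Real.log n) atTop atTop :=
    Real.tendsto_log_atTop.comp tendsto_natCast_atTop_atTop
  have hlx : Tendsto (fun n : ℕ => Real.log (Real.log n)) atTop atTop :=
    Real.tendsto_log_atTop.comp hx
  have hinv : Tendsto (fun n : ℕ => (Real.log (Real.log n))⁻¹) atTop (𝓝 0) :=
    tendsto_inv_atTop_zero.comp hlx
  refine tendsto_order.2 ⟨fun a ha => ?_, fun a ha => ?_⟩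
  · obtain ⟨q, hq⟩ := exists_nat_gt (1 / ((t : ℝ) - a))
    have hpos : 0 < (t : ℝ) - a := by linarith
    have hq0 : (0 : ℝ) < q := lt_trans (by positivity) hq
    have hq1 : 1 ≤ q := by exact_mod_cast hq0
    have hqa : a < (t : ℝ) - 1 / q := by
      rw [div_lt_iff₀ hpos] at hq
      have h1 : 1 / (q : ℝ) < (t : ℝ) - a := by
        rw [div_lt_iff₀ hq0]
        linarith
      linarith
    obtain ⟨n₀, hn₀⟩ := hlow q hq1
    have hg : Tendsto (fun n : ℕ => ((t : ℝ) - 1 / q) -
        (((t : ℝ) - 1 / q) * Real.log 4 + Real.log 2) *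
          (Real.log (Real.log n))⁻¹) atTop (𝓝 ((t : ℝ) - 1 / q)) := by
      have h1 := (hinv.const_mul (((t : ℝ) - 1 / q) * Real.log 4 + Real.log 2)).const_sub
        ((t : ℝ) - 1 / q)
      simpa using h1
    have hev := hg.eventually (lt_mem_nhds hqa)
    filter_upwards [hev, eventually_ge_atTop n₀, eventually_ge_atTop 16,
      hx.eventually_gt_atTop 0, hlx.eventually_gt_atTop 0] with n h1 h2 h3 h4 h5
    refine lt_of_lt_of_le h1 ?_
    set κ := Nat.log 2 n - 2 with hκdef
    have hlog4 : 4 ≤ Nat.log 2 n := Nat.le_log_of_pow_le (by norm_num) (by omega)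
    have hκge : 2 ≤ κ := by omega
    have hexp : 1 ≤ t * q := Nat.one_le_iff_ne_zero.2 (by positivity)
    have hM1 : 1 ≤ M n := hn₀ n h2 1 le_rfl (by
      rw [one_pow]
      exact Nat.one_le_pow _ _ (by omega))
    have hlow' : κ ^ (t * q - 1) ≤ (2 * M n) ^ q := by
      by_contra hlt
      rw [not_le] at hlt
      have h6 : (M n + 1) ^ q ≤ κ ^ (t * q - 1) :=
        (Nat.pow_le_pow_left (by omega) q).trans hlt.le
      have h7 := hn₀ n h2 (M n + 1) (by omega) h6
      omega
    have hκpos : (0 : ℝ) < κ := by exact_mod_cast (by omega : 0 < κ)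
    have hMpos : (0 : ℝ) < M n := by exact_mod_cast hM1
    have hlog : ((t : ℝ) * q - 1) * Real.log κ ≤ q * (Real.log 2 + Real.log (M n)) := by
      have h6 : ((κ : ℝ)) ^ (t * q - 1) ≤ (2 * (M n : ℝ)) ^ q := by exact_mod_cast hlow'
      have h7 := Real.log_le_log (by positivity) h6
      rw [Real.log_pow, Real.log_pow, Real.log_mul (by norm_num) hMpos.ne'] at h7
      have h8 : ((t * q - 1 : ℕ) : ℝ) = (t : ℝ) * q - 1 := by
        rw [Nat.cast_sub hexp, Nat.cast_mul]
        push_cast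
        ring
      rw [h8] at h7
      exact h7
    have hκx : Real.log (Real.log n) ≤ Real.log 4 + Real.log κ := by
      rw [← Real.log_mul (by norm_num) hκpos.ne']
      refine Real.log_le_log h4 ?_
      have h6 : (n : ℝ) ≤ (2 : ℝ) ^ (Nat.log 2 n + 1) := by
        exact_mod_cast (Nat.lt_pow_succ_log_self (by norm_num) n).le
      have h7 : Real.log n ≤ (Nat.log 2 n + 1 : ℕ) * Real.log 2 := by
        have h8 := Real.log_le_log (by exact_mod_cast (by omega : 0 < n)) h6
        rwa [Real.log_pow] at h8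
      have h9 : Real.log 2 ≤ 1 := by
        have := Real.log_two_lt_d9
        linarith
      have h10 : ((Nat.log 2 n + 1 : ℕ) : ℝ) ≤ 4 * κ := by
        exact_mod_cast (by omega : Nat.log 2 n + 1 ≤ 4 * κ)
      have h11 : ((Nat.log 2 n + 1 : ℕ) : ℝ) * Real.log 2 ≤ ((Nat.log 2 n + 1 : ℕ) : ℝ) * 1 :=
        mul_le_mul_of_nonneg_left h9 (by positivity)
      linarith
    set X := Real.log (Real.log n) with hX
    have hcoef : 0 ≤ (t : ℝ) - 1 / q := by
      have h6 : (1 : ℝ) ≤ (t : ℝ) := by exact_mod_cast ht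
      have h7 : 1 / (q : ℝ) ≤ 1 := by
        rw [div_le_one hq0]
        exact_mod_cast hq1
      linarith
    have hfin : ((t : ℝ) - 1 / q) * (X - Real.log 4) - Real.log 2 ≤ Real.log (M n) := by
      have h6 : ((t : ℝ) - 1 / q) * Real.log κ ≤ Real.log 2 + Real.log (M n) := by
        have h7 : q * (((t : ℝ) - 1 / q) * Real.log κ) ≤ q * (Real.log 2 + Real.log (M n)) := by
          refine le_trans (le_of_eq ?_) hlog
          field_simp
        exact le_of_mul_le_mul_left h7 hq0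
      have h8 : ((t : ℝ) - 1 / q) * (X - Real.log 4) ≤ ((t : ℝ) - 1 / q) * Real.log κ :=
        mul_le_mul_of_nonneg_left (by linarith) hcoef
      linarith
    rw [le_div_iff₀ h5]
    have h9 : (((t : ℝ) - 1 / q) -
        (((t : ℝ) - 1 / q) * Real.log 4 + Real.log 2) * X⁻¹) * X =
        ((t : ℝ) - 1 / q) * (X - Real.log 4) - Real.log 2 := by
      field_simp
      ring
    rw [h9]
    exact hfin
  · have hCpos : 0 < C := by linarith
    have hg : Tendsto (fun n : ℕ => (t : ℝ) + Real.log C *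
        (Real.log (Real.log n))⁻¹) atTop (𝓝 (t : ℝ)) := by
      have h1 := (hinv.const_mul (Real.log C)).const_add (t : ℝ)
      simpa using h1
    have hev := hg.eventually (gt_mem_nhds ha)
    filter_upwards [hev, eventually_ge_atTop 2, hx.eventually_gt_atTop 0,
      hlx.eventually_gt_atTop 0] with n h1 h3 h4 h5
    refine lt_of_le_of_lt ?_ h1
    rw [div_le_iff₀ h5]
    have h9 : ((t : ℝ) + Real.log C * (Real.log (Real.log n))⁻¹) * Real.log (Real.log n) =
        Real.log C + (t : ℝ) * Real.log (Real.log n) := by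
      field_simp
      ring
    rw [h9]
    rcases Nat.eq_zero_or_pos (M n) with h0 | h0
    · rw [h0, Nat.cast_zero, Real.log_zero]
      have hC1 : 0 ≤ Real.log C := Real.log_nonneg hC
      positivity
    · have hMpos : (0 : ℝ) < M n := by exact_mod_cast h0
      have h10 := Real.log_le_log hMpos (hup n h3)
      rw [Real.log_mul hCpos.ne' (by positivity), Real.log_pow] at h10
      exact h10

/-- **Theorem.** For every uniformity `r ≥ 2` and every fixed degree `D ≥ 2` the largest dimension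
`M` of a colouring of degree `D` without homogeneous set of `n` points satisfies
`log M / log log n → D - 1`. -/
theorem tendsto_maxDim (r D : ℕ) (hr : 2 ≤ r) (hD : 2 ≤ D) :
    Tendsto (fun n : ℕ => Real.log (maxDim r D n) / Real.log (Real.log n)) atTop
      (𝓝 ((D : ℝ) - 1)) := by
  have hcast : ((D - 1 : ℕ) : ℝ) = (D : ℝ) - 1 := by
    rw [Nat.cast_sub (by omega)]
    norm_num
  rw [← hcast]
  obtain ⟨C, hC, H⟩ := Pool.Agent.X49.Deg.num_fixed 2 r D le_rfl hD
  refine tendsto_of_bounds (maxDim r D) (D - 1) (by omega) (fun q hq => ?_)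
    (max 1 (C * 2 / Real.log 2)) (le_max_left _ _) (fun n hn => ?_)
  · obtain ⟨n₀, hn₀⟩ := exists_lower_sets r D q hr hD hq
    exact ⟨n₀, fun n hn m hm hmq => le_maxDim (hn₀ n hn m hm hmq)⟩
  · have h1 := hasCol_lt (maxDim_mem (r := r) (D := D) (by omega) hn)
      (Nat.le_pow_clog (by norm_num) n)
    have h2 := H (maxDim r D n) 1 n hn h1
    have hl2 : 0 < Real.log 2 := Real.log_pos (by norm_num)
    have h3 : (maxDim r D n : ℝ) ≤ C * 2 / Real.log 2 * (Real.log n) ^ (D - 1) := by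
      rw [div_mul_eq_mul_div, le_div_iff₀ hl2]
      push_cast at h2
      linarith
    have hln : 0 ≤ Real.log n := Real.log_natCast_nonneg n
    exact h3.trans (mul_le_mul_of_nonneg_right (le_max_right _ _) (by positivity))

end Pool.Agent.X65.RamDeg.RLim
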