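import Pool.Agent.X65.RamDeg.Sub

/-!
Low-degree polynomials interpolate small sets, and a random one gives a Ramsey colouring.
-/

namespace Pool.Agent.X65.RamDeg

open MvPolynomial Finset

/-- half of all linear forms vanish at a nonzero vector -/
theorem two_mul_card_forms {σ : Type*} [Fintype σ] [DecidableEq σ] (z : σ → ZMod 2) (hz : z ≠ 0) :
    2 * (Finset.univ.filter (fun a : σ → ZMod 2 => ∑ i, a i * z i = 0)).card =
      Fintype.card (σ → ZMod 2) := by
  classical
  obtain ⟨i0, hi0⟩ : ∃ i, z i ≠ 0 := by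
    by_contra h
    push Not at h
    exact hz (funext h)
  have hi1 : z i0 = 1 := (zmod2_cases (z i0)).resolve_left hi0
  have hshift : ∀ a : σ → ZMod 2,
      ∑ i, (a + Pi.single i0 (1 : ZMod 2) : σ → ZMod 2) i * z i = ∑ i, a i * z i + 1 := by
    intro a
    have : ∀ i, (a + Pi.single i0 (1 : ZMod 2) : σ → ZMod 2) i * z i =
        a i * z i + (if i = i0 then 1 else 0) := by
      intro i
      rw [Pi.add_apply, add_mul]
      congr 1
      by_cases h : i = i0
      · subst h
        simp [hi1]
      · simp [h]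
    rw [Finset.sum_congr rfl (fun i _ => this i), Finset.sum_add_distrib]
    simp
  have hinv : ∀ a : σ → ZMod 2,
      a + Pi.single i0 (1 : ZMod 2) + Pi.single i0 (1 : ZMod 2) = a := by
    intro a
    have h : (Pi.single i0 (1 : ZMod 2) : σ → ZMod 2) + Pi.single i0 (1 : ZMod 2) = 0 := by
      rw [← Pi.single_add]
      have : (1 : ZMod 2) + 1 = 0 := by decide
      rw [this, Pi.single_zero]
    rw [add_assoc, h, add_zero]
  have h1 : (Finset.univ.filter (fun a : σ → ZMod 2 => ∑ i, a i * z i = 0)).card =
      (Finset.univ.filter (fun a : σ → ZMod 2 => ¬ ∑ i, a i * z i = 0)).card := by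
    refine Finset.card_nbij' (fun a : σ → ZMod 2 => a + Pi.single i0 (1 : ZMod 2))
      (fun a : σ → ZMod 2 => a + Pi.single i0 (1 : ZMod 2)) ?_ ?_ ?_ ?_
    · intro a ha
      rw [Finset.mem_coe, Finset.mem_filter] at ha ⊢
      refine ⟨Finset.mem_univ _, ?_⟩
      rw [hshift, ha.2]
      decide
    · intro a ha
      rw [Finset.mem_coe, Finset.mem_filter] at ha ⊢
      refine ⟨Finset.mem_univ _, ?_⟩
      rw [hshift, (zmod2_cases _).resolve_left ha.2]
      decide
    · intro a _
      exact hinv a
    · intro a _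
      exact hinv a
  have h2 := Finset.card_filter_add_card_filter_not (s := (Finset.univ : Finset (σ → ZMod 2)))
    (fun a : σ → ZMod 2 => ∑ i, a i * z i = 0)
  rw [Finset.card_univ] at h2
  omega

/-- some linear form keeps at most half of the other points -/
theorem exists_form {σ : Type*} [Fintype σ] [DecidableEq σ] (S : Finset (σ → ZMod 2))
    (p : σ → ZMod 2) (hp : p ∉ S) :
    ∃ a : σ → ZMod 2, 2 * (S.filter (fun q => ∑ i, a i * (q i - p i) = 0)).card ≤ S.card := by
  classical
  by_contra h
  push Not at h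
  have h1 : ∑ a : σ → ZMod 2, 2 * (S.filter (fun q => ∑ i, a i * (q i - p i) = 0)).card =
      S.card * Fintype.card (σ → ZMod 2) := by
    have h2 : ∑ a : σ → ZMod 2, 2 * (S.filter (fun q => ∑ i, a i * (q i - p i) = 0)).card =
        ∑ q ∈ S, 2 * (Finset.univ.filter
          (fun a : σ → ZMod 2 => ∑ i, a i * (q i - p i) = 0)).card := by
      simp only [Finset.card_filter, Finset.mul_sum]
      rw [Finset.sum_comm]
    rw [h2]
    have h3 : ∀ q ∈ S, 2 * (Finset.univ.filter
          (fun a : σ → ZMod 2 => ∑ i, a i * (q i - p i) = 0)).card =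
          Fintype.card (σ → ZMod 2) := by
      intro q hq
      have h4 := two_mul_card_forms (q - p) (by
        intro h5
        rw [sub_eq_zero] at h5
        exact hp (h5 ▸ hq))
      simpa using h4
    rw [Finset.sum_congr rfl h3, Finset.sum_const, smul_eq_mul]
  have h6 : ∑ _a : σ → ZMod 2, S.card <
      ∑ a : σ → ZMod 2, 2 * (S.filter (fun q => ∑ i, a i * (q i - p i) = 0)).card :=
    Finset.sum_lt_sum_of_nonempty ⟨0, Finset.mem_univ _⟩ (fun a _ => h a)
  rw [h1, Finset.sum_const, Finset.card_univ, smul_eq_mul, mul_comm] at h6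
  exact lt_irrefl _ h6

/-- at most `2^D` points can be separated by polynomials of degree at most `D` -/
theorem exists_indicator {σ : Type*} [Fintype σ] [DecidableEq σ] (D : ℕ)
    (S : Finset (σ → ZMod 2)) (p : σ → ZMod 2) (hp : p ∉ S) (hS : S.card + 1 ≤ 2 ^ D) :
    ∃ f : MvPolynomial σ (ZMod 2), f.totalDegree ≤ D ∧ eval p f = 1 ∧
      ∀ q ∈ S, eval q f = 0 := by
  classical
  induction D generalizing S with
  | zero =>
    have h1 : S = ∅ := by
      rw [← Finset.card_eq_zero]
      simp at hS
      exact hS ▸ Finset.card_empty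
    subst h1
    exact ⟨1, by simp, by simp, by simp⟩
  | succ D ih =>
    obtain ⟨a, ha⟩ := exists_form S p hp
    obtain ⟨f, hf1, hf2, hf3⟩ := ih (S.filter (fun q => ∑ i, a i * (q i - p i) = 0))
      (fun h => hp (Finset.mem_filter.1 h).1) (by rw [pow_succ] at hS; omega)
    let l : MvPolynomial σ (ZMod 2) := 1 + ∑ i, C (a i) * (X i - C (p i))
    have hl : ∀ q : σ → ZMod 2, eval q l = 1 + ∑ i, a i * (q i - p i) := by
      intro q
      simp [l]
    have hld : l.totalDegree ≤ 1 := by
      refine (totalDegree_add _ _).trans (max_le (by simp) ?_)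
      refine (totalDegree_finsetSum _ _).trans (Finset.sup_le fun j _ => ?_)
      refine (totalDegree_mul _ _).trans ?_
      rw [totalDegree_C, zero_add]
      refine (totalDegree_sub_C_le _ _).trans ?_
      rw [totalDegree_X]
    refine ⟨l * f, ?_, ?_, ?_⟩
    · exact (totalDegree_mul _ _).trans (by omega)
    · rw [map_mul, hf2, hl]
      simp
    · intro q hq
      rw [map_mul]
      by_cases h1 : ∑ i, a i * (q i - p i) = 0
      · rw [hf3 q (Finset.mem_filter.2 ⟨hq, h1⟩), mul_zero]
      · rw [hl, (zmod2_cases _).resolve_left h1]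
        have : (1 : ZMod 2) + 1 = 0 := by decide
        rw [this, zero_mul]

end Pool.Agent.X65.RamDeg
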