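import Pool.Agent.X65.RamDeg.Rank

/-!
A random symmetric polynomial of low degree has no monochromatic clique with `k` vertices.
-/

namespace Pool.Agent.X65.RamDeg

open MvPolynomial Finset

/-- the functions computed by polynomials of total degree at most `D` -/
def lowDeg (σ : Type) (D : ℕ) : Submodule (ZMod 2) ((σ → ZMod 2) → ZMod 2) where
  carrier := {f | ∃ P : MvPolynomial σ (ZMod 2), P.totalDegree ≤ D ∧ ∀ x, eval x P = f x}
  add_mem' := by
    rintro f g ⟨P, hP, hPe⟩ ⟨Q, hQ, hQe⟩
    exact ⟨P + Q, (totalDegree_add _ _).trans (max_le hP hQ), fun x => by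
      rw [map_add, hPe, hQe]; rfl⟩
  zero_mem' := ⟨0, by simp, fun x => by simp⟩
  smul_mem' := by
    rintro c f ⟨P, hP, hPe⟩
    refine ⟨C c * P, ?_, fun x => by rw [map_mul, eval_C, hPe]; rfl⟩
    refine (totalDegree_mul _ _).trans ?_
    rw [totalDegree_C, zero_add]
    exact hP

/-- pairs `i < j` below `k` -/
abbrev Pairs (k : ℕ) : Type := {p : Fin k × Fin k // p.1 < p.2}

theorem card_pairs (k : ℕ) : 2 * Fintype.card (Pairs k) = k * (k - 1) := by
  classical
  have h1 : Fintype.card (Pairs k) =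
      (Finset.univ.filter (fun p : Fin k × Fin k => p.1 < p.2)).card := by
    rw [Fintype.card_subtype]
  have h2 : (Finset.univ.filter (fun p : Fin k × Fin k => p.1 < p.2)).card =
      (Finset.univ.filter (fun p : Fin k × Fin k => p.2 < p.1)).card := by
    refine Finset.card_nbij' Prod.swap Prod.swap ?_ ?_ ?_ ?_
    · intro p hp
      simpa using hp
    · intro p hp
      simpa using hp
    · intro p _
      exact Prod.swap_swap p
    · intro p _
      exact Prod.swap_swap p
  have h3 : (Finset.univ.filter (fun p : Fin k × Fin k => p.1 < p.2)) ∪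
      (Finset.univ.filter (fun p : Fin k × Fin k => p.2 < p.1)) =
      (Finset.univ : Finset (Fin k)).offDiag := by
    ext p
    simp only [Finset.mem_union, Finset.mem_filter, Finset.mem_univ, true_and,
      Finset.mem_offDiag]
    constructor
    · rintro (h | h)
      · exact h.ne
      · exact h.ne'
    · exact lt_or_gt_of_ne
  have h4 : Disjoint (Finset.univ.filter (fun p : Fin k × Fin k => p.1 < p.2))
      (Finset.univ.filter (fun p : Fin k × Fin k => p.2 < p.1)) := by
    rw [Finset.disjoint_filter]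
    intro p _ h h'
    exact lt_asymm h h'
  have h5 := Finset.card_union_of_disjoint h4
  rw [h3, Finset.offDiag_card, Finset.card_univ, Fintype.card_fin] at h5
  rw [h1, Nat.mul_sub, mul_one]
  omega

variable {m : ℕ}

/-- the colours of the pairs of a family of vertices -/
def colours (k D : ℕ) (a : Fin k → (Fin m → ZMod 2)) :
    lowDeg (Fin m ⊕ Fin m) D →ₗ[ZMod 2] (Pairs k → ZMod 2) where
  toFun f := fun p => f.1 (Sum.elim (a p.1.1) (a p.1.2)) + f.1 (Sum.elim (a p.1.2) (a p.1.1))
  map_add' f g := by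
    funext p
    simp only [Submodule.coe_add, Pi.add_apply]
    ring
  map_smul' c f := by
    funext p
    simp only [Submodule.coe_smul, Pi.smul_apply, smul_eq_mul, RingHom.id_apply]
    ring

theorem colours_apply (k D : ℕ) (a : Fin k → (Fin m → ZMod 2))
    (f : lowDeg (Fin m ⊕ Fin m) D) (p : Pairs k) : colours k D a f p =
      f.1 (Sum.elim (a p.1.1) (a p.1.2)) + f.1 (Sum.elim (a p.1.2) (a p.1.1)) := rfl

theorem colours_surj {k t : ℕ} (a : Fin k → (Fin m → ZMod 2))
    (hsep : ∀ i, ∃ f : MvPolynomial (Fin m) (ZMod 2),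
      f.totalDegree ≤ t ∧ eval (a i) f = 1 ∧ ∀ j, j ≠ i → eval (a j) f = 0) :
    Function.Surjective (colours k (2 * t) a) := by
  classical
  choose f hf1 hf2 hf3 using hsep
  intro τ
  have hev : ∀ x y : Fin m → ZMod 2, eval (Sum.elim x y) (∑ p : Pairs k,
      C (τ p) * (rename Sum.inl (f p.1.1) * rename Sum.inr (f p.1.2)) :
        MvPolynomial (Fin m ⊕ Fin m) (ZMod 2)) =
      ∑ p : Pairs k, τ p * (eval x (f p.1.1) * eval y (f p.1.2)) := by
    intro x y
    rw [map_sum]
    refine Finset.sum_congr rfl fun p _ => ?_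
    rw [map_mul, map_mul, eval_C, eval_rename, eval_rename]
    rfl
  have hmemW : (fun x => eval x (∑ p : Pairs k,
      C (τ p) * (rename Sum.inl (f p.1.1) * rename Sum.inr (f p.1.2)) :
        MvPolynomial (Fin m ⊕ Fin m) (ZMod 2))) ∈ lowDeg (Fin m ⊕ Fin m) (2 * t) := by
    refine ⟨_, ?_, fun x => rfl⟩
    refine (totalDegree_finsetSum _ _).trans (Finset.sup_le fun p _ => ?_)
    refine (totalDegree_mul _ _).trans ?_
    rw [totalDegree_C, zero_add]
    refine (totalDegree_mul _ _).trans ?_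
    have h1 := (totalDegree_rename_le (Sum.inl : Fin m → Fin m ⊕ Fin m) (f p.1.1)).trans
      (hf1 p.1.1)
    have h2 := (totalDegree_rename_le (Sum.inr : Fin m → Fin m ⊕ Fin m) (f p.1.2)).trans
      (hf1 p.1.2)
    omega
  refine ⟨⟨_, hmemW⟩, ?_⟩
  funext p
  rw [colours_apply]
  show eval (Sum.elim (a p.1.1) (a p.1.2)) (∑ p : Pairs k,
      C (τ p) * (rename Sum.inl (f p.1.1) * rename Sum.inr (f p.1.2)) :
        MvPolynomial (Fin m ⊕ Fin m) (ZMod 2)) +
    eval (Sum.elim (a p.1.2) (a p.1.1)) (∑ p : Pairs k,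
      C (τ p) * (rename Sum.inl (f p.1.1) * rename Sum.inr (f p.1.2)) :
        MvPolynomial (Fin m ⊕ Fin m) (ZMod 2)) = τ p
  rw [hev, hev]
  have h1 : ∑ q : Pairs k, τ q * (eval (a p.1.1) (f q.1.1) * eval (a p.1.2) (f q.1.2)) = τ p := by
    rw [Finset.sum_eq_single p]
    · rw [hf2, hf2, mul_one, mul_one]
    · intro q _ hq
      by_cases h : p.1.1 = q.1.1
      · have h' : p.1.2 ≠ q.1.2 := fun h' => hq (Subtype.ext (Prod.ext h.symm h'.symm))
        rw [hf3 _ _ h', mul_zero, mul_zero]
      · rw [hf3 _ _ h, zero_mul, mul_zero]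
    · intro h
      exact absurd (Finset.mem_univ _) h
  have h2 : ∑ q : Pairs k, τ q * (eval (a p.1.2) (f q.1.1) * eval (a p.1.1) (f q.1.2)) = 0 := by
    refine Finset.sum_eq_zero fun q _ => ?_
    by_cases h : p.1.2 = q.1.1
    · have h' : p.1.1 ≠ q.1.2 := by
        intro h'
        have h4 := q.2
        rw [← h, ← h'] at h4
        exact lt_asymm p.2 h4
      rw [hf3 _ _ h', mul_zero, mul_zero]
    · rw [hf3 _ _ h, zero_mul, mul_zero]
  rw [h1, h2, add_zero]

theorem card_fiber {k t : ℕ} (a : Fin k → (Fin m → ZMod 2))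
    (hsep : ∀ i, ∃ f : MvPolynomial (Fin m) (ZMod 2),
      f.totalDegree ≤ t ∧ eval (a i) f = 1 ∧ ∀ j, j ≠ i → eval (a j) f = 0)
    [Fintype (lowDeg (Fin m ⊕ Fin m) (2 * t))]
    [DecidableEq (Pairs k → ZMod 2)] (z : Pairs k → ZMod 2) :
    2 ^ Fintype.card (Pairs k) *
      (Finset.univ.filter
        (fun f : lowDeg (Fin m ⊕ Fin m) (2 * t) => colours k (2 * t) a f = z)).card =
      Fintype.card (lowDeg (Fin m ⊕ Fin m) (2 * t)) := by
  classical
  have hs := colours_surj a hsep
  have h1 : ∀ z' : Pairs k → ZMod 2,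
      (Finset.univ.filter
        (fun f : lowDeg (Fin m ⊕ Fin m) (2 * t) => colours k (2 * t) a f = z')).card =
      (Finset.univ.filter
        (fun f : lowDeg (Fin m ⊕ Fin m) (2 * t) => colours k (2 * t) a f = z)).card := by
    intro z'
    exact AddMonoidHom.card_fiber_eq_of_mem_range (colours k (2 * t) a).toAddMonoidHom
      (hs z') (hs z)
  have h2 := Finset.card_eq_sum_card_fiberwise
    (s := (Finset.univ : Finset (lowDeg (Fin m ⊕ Fin m) (2 * t))))
    (t := (Finset.univ : Finset (Pairs k → ZMod 2))) (f := fun f => colours k (2 * t) a f)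
    (fun _ _ => Finset.mem_coe.2 (Finset.mem_univ _))
  rw [Finset.sum_congr rfl (fun z' _ => h1 z'), Finset.sum_const, Finset.card_univ,
    Finset.card_univ, smul_eq_mul, Fintype.card_fun, ZMod.card] at h2
  exact h2.symm

/-- **Theorem.** Let `s = ∑_{j ≤ t} C(κ, j)`. If `2 C(2^m, s) < 2^(s(s-1)/2)` then some symmetric
polynomial of degree at most `2t` has no monochromatic clique with `2^κ` vertices. -/
theorem exists_random {t κ s m : ℕ} (hs : s = ∑ j ∈ Finset.range (t + 1), κ.choose j)
    (hk : 2 * (2 ^ m).choose s < 2 ^ Fintype.card (Pairs s)) :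
    ∃ (G : SimpleGraph (Fin m → ZMod 2)) (P : MvPolynomial (Fin m ⊕ Fin m) (ZMod 2)),
      P.totalDegree ≤ 2 * t ∧ (∀ x y, G.Adj x y ↔ eval (Sum.elim x y) P = 1) ∧
      G.CliqueFree (2 ^ κ) ∧ Gᶜ.CliqueFree (2 ^ κ) := by
  classical
  have : Fintype (lowDeg (Fin m ⊕ Fin m) (2 * t)) := Fintype.ofFinite _
  have hex : ∀ B : Finset (Fin m → ZMod 2), B.card = s → Separated t B →
      ∃ a : Fin s → (Fin m → ZMod 2), Function.Injective a ∧ (∀ i, a i ∈ B) ∧
        ∀ i, ∃ f : MvPolynomial (Fin m) (ZMod 2),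
          f.totalDegree ≤ t ∧ eval (a i) f = 1 ∧ ∀ j, j ≠ i → eval (a j) f = 0 := by
    intro B hB hsep
    have hinj : Function.Injective
        (fun i => ((B.equivFinOfCardEq hB).symm i : Fin m → ZMod 2)) :=
      fun i j h => (B.equivFinOfCardEq hB).symm.injective (Subtype.ext h)
    refine ⟨fun i => ((B.equivFinOfCardEq hB).symm i : Fin m → ZMod 2), hinj,
      fun i => ((B.equivFinOfCardEq hB).symm i).2, fun i => ?_⟩
    obtain ⟨f, h1, h2, h3⟩ := hsep _ ((B.equivFinOfCardEq hB).symm i).2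
    exact ⟨f, h1, h2, fun j hj => h3 _ ((B.equivFinOfCardEq hB).symm j).2
      (fun h => hj (hinj h))⟩
  choose! a hainj haB hasep using hex
  obtain ⟨f, hf⟩ : ∃ f : lowDeg (Fin m ⊕ Fin m) (2 * t), ∀ B : Finset (Fin m → ZMod 2),
      B.card = s → Separated t B →
        colours s (2 * t) (a B) f ≠ 0 ∧ colours s (2 * t) (a B) f ≠ 1 := by
    by_contra hcon
    push Not at hcon
    have h1 : (Finset.univ : Finset (lowDeg (Fin m ⊕ Fin m) (2 * t))) ⊆
        ((Finset.powersetCard s (Finset.univ : Finset (Fin m → ZMod 2))).filter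
          (fun B => Separated t B)).biUnion
          (fun B => (Finset.univ.filter (fun f : lowDeg (Fin m ⊕ Fin m) (2 * t) =>
            colours s (2 * t) (a B) f = 0)) ∪ (Finset.univ.filter
              (fun f : lowDeg (Fin m ⊕ Fin m) (2 * t) => colours s (2 * t) (a B) f = 1))) := by
      intro f _
      obtain ⟨B, hB, hBs, hB1⟩ := hcon f
      refine Finset.mem_biUnion.2 ⟨B, Finset.mem_filter.2
        ⟨Finset.mem_powersetCard.2 ⟨Finset.subset_univ _, hB⟩, hBs⟩, ?_⟩
      rw [Finset.mem_union, Finset.mem_filter, Finset.mem_filter]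
      by_cases h0 : colours s (2 * t) (a B) f = 0
      · exact Or.inl ⟨Finset.mem_univ _, h0⟩
      · exact Or.inr ⟨Finset.mem_univ _, hB1 h0⟩
    have h2 := (Finset.card_le_card h1).trans Finset.card_biUnion_le
    have h3 : ∀ B ∈ (Finset.powersetCard s (Finset.univ : Finset (Fin m → ZMod 2))).filter
          (fun B => Separated t B),
        2 ^ Fintype.card (Pairs s) *
          ((Finset.univ.filter (fun f : lowDeg (Fin m ⊕ Fin m) (2 * t) =>
            colours s (2 * t) (a B) f = 0)) ∪ (Finset.univ.filter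
              (fun f : lowDeg (Fin m ⊕ Fin m) (2 * t) =>
                colours s (2 * t) (a B) f = 1))).card ≤
        2 * Fintype.card (lowDeg (Fin m ⊕ Fin m) (2 * t)) := by
      intro B hB
      rw [Finset.mem_filter, Finset.mem_powersetCard] at hB
      obtain ⟨⟨_, hBc⟩, hBs⟩ := hB
      have e0 := card_fiber (a B) (hasep B hBc hBs) 0
      have e1 := card_fiber (a B) (hasep B hBc hBs) 1
      have h4 := Finset.card_union_le
        (Finset.univ.filter (fun f : lowDeg (Fin m ⊕ Fin m) (2 * t) =>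
            colours s (2 * t) (a B) f = 0)) (Finset.univ.filter
              (fun f : lowDeg (Fin m ⊕ Fin m) (2 * t) => colours s (2 * t) (a B) f = 1))
      refine (Nat.mul_le_mul_left _ h4).trans ?_
      rw [Nat.mul_add, e0, e1]
      omega
    rw [Finset.card_univ] at h2
    have h5 : 2 ^ Fintype.card (Pairs s) * Fintype.card (lowDeg (Fin m ⊕ Fin m) (2 * t)) ≤
        2 * (2 ^ m).choose s * Fintype.card (lowDeg (Fin m ⊕ Fin m) (2 * t)) := by
      refine (Nat.mul_le_mul_left _ h2).trans ?_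
      rw [Finset.mul_sum]
      refine (Finset.sum_le_sum h3).trans ?_
      rw [Finset.sum_const, smul_eq_mul]
      have h6 := Finset.card_filter_le
        (Finset.powersetCard s (Finset.univ : Finset (Fin m → ZMod 2))) (fun B => Separated t B)
      rw [Finset.card_powersetCard, Finset.card_univ, Fintype.card_fun,
        ZMod.card, Fintype.card_fin] at h6
      refine (Nat.mul_le_mul_right _ h6).trans ?_
      exact le_of_eq (by ring)
    have hpos : 0 < Fintype.card (lowDeg (Fin m ⊕ Fin m) (2 * t)) := Fintype.card_pos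
    have h6 := Nat.le_of_mul_le_mul_right h5 hpos
    omega
  obtain ⟨P, hP, hPe⟩ := f.2
  let G : SimpleGraph (Fin m → ZMod 2) :=
    { Adj := fun x y => f.1 (Sum.elim x y) + f.1 (Sum.elim y x) = 1
      symm := ⟨fun x y h => by rw [add_comm]; exact h⟩
      loopless := ⟨fun x h => by
        rw [CharTwo.add_self_eq_zero] at h
        exact zero_ne_one h⟩ }
  refine ⟨G, P + rename Sum.swap P, ?_, ?_, ?_, ?_⟩
  · exact (totalDegree_add _ _).trans (max_le hP ((totalDegree_rename_le _ _).trans hP))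
  · intro x y
    rw [map_add, eval_rename, hPe, hPe]
    have : (Sum.elim x y : Fin m ⊕ Fin m → ZMod 2) ∘ Sum.swap = Sum.elim y x := by
      funext s
      cases s <;> rfl
    rw [this]
  · intro A hA
    obtain ⟨B, hBA, hBs, hBc⟩ := exists_separated_card t κ A hA.card_eq
    rw [← hs] at hBc
    refine (hf B hBc hBs).2 ?_
    funext p
    exact hA.isClique (Finset.mem_coe.2 (hBA (haB B hBc hBs _)))
      (Finset.mem_coe.2 (hBA (haB B hBc hBs _)))
      (fun h => p.2.ne (hainj B hBc hBs h))
  · intro A hA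
    obtain ⟨B, hBA, hBs, hBc⟩ := exists_separated_card t κ A hA.card_eq
    rw [← hs] at hBc
    refine (hf B hBc hBs).1 ?_
    funext p
    have h1 := hA.isClique (Finset.mem_coe.2 (hBA (haB B hBc hBs p.1.1)))
      (Finset.mem_coe.2 (hBA (haB B hBc hBs p.1.2)))
      (fun h => p.2.ne (hainj B hBc hBs h))
    rw [SimpleGraph.compl_adj] at h1
    exact (zmod2_cases _).resolve_right h1.2

end Pool.Agent.X65.RamDeg
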