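import Pool.Agent.X65.RamDeg.Scale
import Pool.Agent.X65.RamDeg.Random

/-!
The number of polynomial maps for which a sequence is compatible with independent vectors.
-/

namespace Pool.Agent.X65.RamDeg

open MvPolynomial Finset

/-- fibres of surjective homomorphisms between finite groups -/
theorem card_preimage {M N : Type} [AddCommGroup M] [AddCommGroup N] [Fintype M] [Fintype N]
    [DecidableEq N] (f : M →+ N) (hf : Function.Surjective f) (S : Finset N) :
    (Finset.univ.filter (fun x => f x ∈ S)).card * Fintype.card N =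
      S.card * Fintype.card M := by
  classical
  have hfib : ∀ y : N, (Finset.univ.filter (fun x => f x = y)).card =
      (Finset.univ.filter (fun x => f x = 0)).card := fun y =>
    AddMonoidHom.card_fiber_eq_of_mem_range f (hf y) (hf 0)
  have h1 : (Finset.univ.filter (fun x => f x ∈ S)).card =
      S.card * (Finset.univ.filter (fun x => f x = 0)).card := by
    rw [Finset.card_eq_sum_card_fiberwise (s := Finset.univ.filter (fun x => f x ∈ S))
      (f := f) (t := S) (fun x hx => Finset.mem_coe.2
        (Finset.mem_filter.1 (Finset.mem_coe.1 hx)).2), ← smul_eq_mul, ← Finset.sum_const]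
    refine Finset.sum_congr rfl fun y hy => ?_
    rw [← hfib y, Finset.filter_filter]
    congr 1
    ext x
    simp only [Finset.mem_filter, Finset.mem_univ, true_and]
    constructor
    · exact fun h => h.2
    · exact fun h => ⟨h ▸ hy, h⟩
  have h2 : Fintype.card M = Fintype.card N *
      (Finset.univ.filter (fun x => f x = 0)).card := by
    rw [← Finset.card_univ, Finset.card_eq_sum_card_fiberwise (f := f)
      (t := (Finset.univ : Finset N)) (fun x _ => Finset.mem_coe.2 (Finset.mem_univ _)),
      Finset.sum_congr rfl (fun y _ => hfib y), Finset.sum_const, Finset.card_univ, smul_eq_mul]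
  rw [h1, h2]
  ring

variable {m : ℕ}

/-- the polynomial maps of degree at most `t` -/
abbrev PolyMap (m t : ℕ) : Type := Fin m → lowDeg (Fin m) t

/-- the scalar products of the values at the `b i` with the vectors `v j` -/
def pairing {L s : ℕ} (t : ℕ) (v : Fin L → (Fin m → ZMod 2)) (b : Fin s → (Fin m → ZMod 2)) :
    PolyMap m t →+ (Fin L → Fin s → ZMod 2) where
  toFun Q := fun j i => ∑ l, v j l * (Q l).1 (b i)
  map_zero' := by
    funext j i
    simp
  map_add' Q Q' := by
    funext j i
    simp only [Pi.add_apply, Submodule.coe_add, mul_add, Finset.sum_add_distrib]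

theorem pairing_apply {L s : ℕ} (t : ℕ) (v : Fin L → (Fin m → ZMod 2))
    (b : Fin s → (Fin m → ZMod 2)) (Q : PolyMap m t) (j : Fin L) (i : Fin s) :
    pairing t v b Q j i = ∑ l, v j l * (Q l).1 (b i) := rfl

theorem pairing_surj {L s t : ℕ} (v : Fin L → (Fin m → ZMod 2))
    (hv : LinearIndependent (ZMod 2) v) (b : Fin s → (Fin m → ZMod 2)) (hb : SepSeq t b) :
    Function.Surjective (pairing t v b) := by
  classical
  intro τ
  choose z hz using fun i : Fin s => exists_dot v hv (fun j => τ j i)
  choose f hf1 hf2 hf3 using hb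
  have hmem : ∀ l : Fin m, (fun x : Fin m → ZMod 2 =>
      eval x (∑ i, C (z i l) * f i)) ∈ lowDeg (Fin m) t := by
    intro l
    refine ⟨_, ?_, fun x => rfl⟩
    refine (totalDegree_finsetSum _ _).trans (Finset.sup_le fun i _ => ?_)
    refine (totalDegree_mul _ _).trans ?_
    rw [totalDegree_C, zero_add]
    exact hf1 i
  refine ⟨fun l => ⟨_, hmem l⟩, ?_⟩
  funext j i
  rw [pairing_apply, ← hz i j]
  refine Finset.sum_congr rfl fun l _ => ?_
  rw [mul_comm]
  congr 1
  show eval (b i) (∑ i, C (z i l) * f i) = z i l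
  rw [map_sum, Finset.sum_eq_single i]
  · rw [map_mul, eval_C, hf2, mul_one]
  · intro i' _ hi'
    rw [map_mul, hf3 i' i (Ne.symm hi'), mul_zero]
  · intro h
    exact absurd (Finset.mem_univ _) h

/-- the affine functions on a sequence -/
def AffOn {s : ℕ} (b : Fin s → (Fin m → ZMod 2)) (τ : Fin s → ZMod 2) : Prop :=
  ∃ (c : ZMod 2) (w : Fin m → ZMod 2), ∀ i, τ i = c + ∑ l, w l * b i l

open Classical in
theorem card_affOn {L s : ℕ} (v : Fin L → (Fin m → ZMod 2)) (b : Fin s → (Fin m → ZMod 2))
    (hbv : ∀ i, b i ∈ Submodule.span (ZMod 2) (Set.range v)) :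
    (Finset.univ.filter (fun τ : Fin s → ZMod 2 => AffOn b τ)).card ≤ 2 ^ (L + 1) := by
  have hex : ∀ i, ∃ r : Fin L → ZMod 2, ∑ j, r j • v j = b i := fun i =>
    (Submodule.mem_span_range_iff_exists_fun (ZMod 2)).1 (hbv i)
  choose r hr using hex
  have hsub : Finset.univ.filter (fun τ : Fin s → ZMod 2 => AffOn b τ) ⊆
      (Finset.univ : Finset (ZMod 2 × (Fin L → ZMod 2))).image
        (fun p => fun i => p.1 + ∑ j, r i j * p.2 j) := by
    intro τ hτ
    obtain ⟨c, w, hw⟩ := (Finset.mem_filter.1 hτ).2
    refine Finset.mem_image.2 ⟨(c, fun j => ∑ l, w l * v j l), Finset.mem_univ _, ?_⟩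
    funext i
    rw [hw i, ← hr i]
    congr 1
    simp only [Finset.sum_apply, Pi.smul_apply, smul_eq_mul, Finset.mul_sum]
    rw [Finset.sum_comm]
    refine Finset.sum_congr rfl fun l _ => Finset.sum_congr rfl fun j _ => ?_
    ring
  refine (Finset.card_le_card hsub).trans (Finset.card_image_le.trans ?_)
  rw [Finset.card_univ, Fintype.card_prod, ZMod.card, Fintype.card_fun, ZMod.card,
    Fintype.card_fin, pow_succ, mul_comm]

open Classical in
/-- the maps compatible with `v` and `b` -/
noncomputable def compat {L s : ℕ} (t : ℕ) [Fintype (PolyMap m t)]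
    (v : Fin L → (Fin m → ZMod 2)) (b : Fin s → (Fin m → ZMod 2)) : Finset (PolyMap m t) :=
  Finset.univ.filter (fun Q => ∀ j, AffOn b (pairing t v b Q j))

open Classical in
theorem card_compat {L s t : ℕ} [Fintype (PolyMap m t)] (v : Fin L → (Fin m → ZMod 2))
    (hv : LinearIndependent (ZMod 2) v) (b : Fin s → (Fin m → ZMod 2)) (hb : SepSeq t b)
    (hbv : ∀ i, b i ∈ Submodule.span (ZMod 2) (Set.range v)) :
    (compat t v b).card * 2 ^ (L * s) ≤ 2 ^ ((L + 1) * L) * Fintype.card (PolyMap m t) := by
  have h1 := card_preimage (pairing t v b) (pairing_surj v hv b hb)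
    (Finset.univ.filter (fun τ : Fin L → Fin s → ZMod 2 => ∀ j, AffOn b (τ j)))
  have h2 : (Finset.univ.filter (fun x => pairing t v b x ∈
      Finset.univ.filter (fun τ : Fin L → Fin s → ZMod 2 => ∀ j, AffOn b (τ j)))) =
      compat t v b := by
    ext x
    simp [compat]
  have h3 : Fintype.card (Fin L → Fin s → ZMod 2) = 2 ^ (L * s) := by
    rw [Fintype.card_fun, Fintype.card_fun, ZMod.card, Fintype.card_fin, Fintype.card_fin,
      ← pow_mul, mul_comm]
  have h4 : (Finset.univ.filter (fun τ : Fin L → Fin s → ZMod 2 => ∀ j, AffOn b (τ j))).card ≤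
      2 ^ ((L + 1) * L) := by
    have h5 : Finset.univ.filter (fun τ : Fin L → Fin s → ZMod 2 => ∀ j, AffOn b (τ j)) ⊆
        Fintype.piFinset (fun _ : Fin L =>
          Finset.univ.filter (fun τ : Fin s → ZMod 2 => AffOn b τ)) := by
      intro τ hτ
      rw [Fintype.mem_piFinset]
      intro j
      exact Finset.mem_filter.2 ⟨Finset.mem_univ _, (Finset.mem_filter.1 hτ).2 j⟩
    refine (Finset.card_le_card h5).trans ?_
    rw [Fintype.card_piFinset, Finset.prod_const, Finset.card_univ, Fintype.card_fin, pow_mul]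
    exact Nat.pow_le_pow_left (card_affOn v b hbv) L
  rw [h2, h3] at h1
  rw [h1]
  exact Nat.mul_le_mul_right _ h4

end Pool.Agent.X65.RamDeg
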