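import Pool.Agent.X65.RamDeg.Greedy
import Pool.Agent.X65.RamDeg.Random

/-!
Numerical estimates and the bound for colourings without monochromatic cliques.
-/

namespace Pool.Agent.X65.RamDeg

open MvPolynomial Finset

theorem factorial_sq_gt {k : ℕ} (hk : 3 ≤ k) : 2 ^ (k + 2) < k.factorial ^ 2 := by
  induction k, hk using Nat.le_induction with
  | base => decide
  | succ k hk ih =>
    rw [Nat.factorial_succ, mul_pow, show k + 1 + 2 = (k + 2) + 1 from rfl, pow_succ, mul_comm]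
    have h1 : 2 ≤ (k + 1) ^ 2 := by nlinarith
    calc 2 * 2 ^ (k + 2) < 2 * k.factorial ^ 2 := by omega
      _ ≤ (k + 1) ^ 2 * k.factorial ^ 2 := Nat.mul_le_mul_right _ h1

theorem two_mul_choose_lt {k m : ℕ} (hk : 3 ≤ k) (h : 2 * m ≤ k) :
    2 * (2 ^ m).choose k < 2 ^ Fintype.card (Pairs k) := by
  set c := (2 ^ m).choose k with hc
  set N := Fintype.card (Pairs k) with hN
  have hN2 : 2 * N = k * (k - 1) := card_pairs k
  rcases Nat.eq_zero_or_pos c with h0 | hpos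
  · rw [h0]
    positivity
  have h1 : k.factorial * c ≤ 2 ^ (m * k) := by
    rw [hc, ← Nat.descFactorial_eq_factorial_mul_choose, pow_mul]
    exact Nat.descFactorial_le_pow _ _
  have h2 : (k.factorial * c) ^ 2 ≤ 2 ^ (k * k) := by
    calc (k.factorial * c) ^ 2 ≤ (2 ^ (m * k)) ^ 2 := Nat.pow_le_pow_left h1 2
      _ = 2 ^ (2 * m * k) := by rw [← pow_mul]; ring_nf
      _ ≤ 2 ^ (k * k) := Nat.pow_le_pow_right (by norm_num) (Nat.mul_le_mul_right _ h)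
  have h3 : 2 ^ (k + 2) * c ^ 2 < 2 ^ (k * k) := by
    calc 2 ^ (k + 2) * c ^ 2 < k.factorial ^ 2 * c ^ 2 :=
          Nat.mul_lt_mul_of_pos_right (factorial_sq_gt hk) (by positivity)
      _ = (k.factorial * c) ^ 2 := by ring
      _ ≤ _ := h2
  have h4 : 2 ^ k * (2 * c) ^ 2 < 2 ^ k * (2 ^ N) ^ 2 := by
    have e1 : 2 ^ k * (2 * c) ^ 2 = 2 ^ (k + 2) * c ^ 2 := by ring
    have e2 : 2 ^ k * (2 ^ N) ^ 2 = 2 ^ (k * k) := by
      rw [← pow_mul, ← pow_add, mul_comm N 2, hN2]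
      congr 1
      obtain ⟨k', rfl⟩ : ∃ k', k = k' + 1 := ⟨k - 1, by omega⟩
      rw [Nat.add_sub_cancel]
      ring
    rw [e1, e2]
    exact h3
  have h5 := Nat.lt_of_mul_lt_mul_left h4
  exact lt_of_pow_lt_pow_left₀ 2 (Nat.zero_le _) h5

theorem sum_choose_le (N d : ℕ) (q : ℝ) (hq : 1 ≤ q) :
    ((∑ j ∈ Finset.range d, N.choose j : ℕ) : ℝ) ≤ q ^ d * (1 / q + 1) ^ N := by
  have hq0 : 0 < q := by linarith
  have h1 : (1 / q + 1) ^ N = ∑ j ∈ Finset.range (N + 1), (1 / q) ^ j * (N.choose j : ℝ) := by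
    rw [add_pow]
    refine Finset.sum_congr rfl fun j _ => ?_
    rw [one_pow, mul_one]
  have h2 : ∑ j ∈ Finset.range d, (1 / q) ^ j * (N.choose j : ℝ) ≤
      ∑ j ∈ Finset.range (N + 1), (1 / q) ^ j * (N.choose j : ℝ) := by
    calc ∑ j ∈ Finset.range d, (1 / q) ^ j * (N.choose j : ℝ)
        ≤ ∑ j ∈ Finset.range (d + (N + 1)), (1 / q) ^ j * (N.choose j : ℝ) :=
          Finset.sum_le_sum_of_subset_of_nonneg (Finset.range_mono (by omega))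
            (fun _ _ _ => by positivity)
      _ = _ := by
          symm
          refine Finset.sum_subset (Finset.range_mono (by omega)) ?_
          intro j _ hj
          rw [Finset.mem_range, not_lt] at hj
          rw [Nat.choose_eq_zero_of_lt (by omega)]
          simp
  rw [h1]
  refine le_trans ?_ (mul_le_mul_of_nonneg_left h2 (by positivity))
  push_cast
  rw [Finset.mul_sum]
  refine Finset.sum_le_sum fun j hj => ?_
  rw [Finset.mem_range] at hj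
  rw [← mul_assoc]
  refine le_mul_of_one_le_left (by positivity) ?_
  rw [one_div, inv_pow, ← div_eq_mul_inv, le_div_iff₀ (by positivity), one_mul]
  exact pow_le_pow_right₀ hq hj.le

theorem sum_choose_le_pow (N r : ℕ) : ∑ j ∈ Finset.range (r + 1), N.choose j ≤ (N + 1) ^ r := by
  rw [add_pow]
  refine Finset.sum_le_sum fun j hj => ?_
  rw [Finset.mem_range] at hj
  rw [one_pow, mul_one]
  refine (Nat.choose_le_pow N j).trans ?_
  exact Nat.le_mul_of_pos_right _ (Nat.choose_pos (by omega))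

/-- the numerical estimate behind the exponent `19/20` -/
theorem exists_threshold : ∃ κ₀ : ℕ, ∀ κ ≥ κ₀, ∀ d : ℕ, 5 * d ≤ κ →
    (κ + 3 * d * ∑ j ∈ Finset.range d, (2 * κ).choose j) ^ 20 ≤ 2 ^ (19 * (κ - 1)) := by
  have ht := tendsto_pow_const_mul_const_pow_of_abs_lt_one 20
    (r := ((9 / 8 : ℝ) ^ 40 / 2 ^ 7)) (by
      rw [abs_of_pos (by positivity)]
      norm_num)
  have hev := ht.eventually (gt_mem_nhds (show (0 : ℝ) < 1 / 2 ^ 39 by positivity))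
  obtain ⟨κ₁, hκ₁⟩ := Filter.eventually_atTop.1 hev
  refine ⟨max κ₁ 1, fun κ hκ d hd => ?_⟩
  have hκ1 : 1 ≤ κ := le_of_max_le_right hκ
  have h1 := hκ₁ κ (le_of_max_le_left hκ)
  have hS := sum_choose_le (2 * κ) d 8 (by norm_num)
  rw [show (1 / 8 + 1 : ℝ) = 9 / 8 by norm_num] at hS
  set S := ∑ j ∈ Finset.range d, (2 * κ).choose j with hSdef
  have h8 : (1 : ℝ) ≤ 8 ^ d * (9 / 8 : ℝ) ^ (2 * κ) :=
    one_le_mul_of_one_le_of_one_le (one_le_pow₀ (by norm_num)) (one_le_pow₀ (by norm_num))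
  have hy : ((κ + 3 * d * S : ℕ) : ℝ) ≤ 2 * κ * (8 ^ d * (9 / 8 : ℝ) ^ (2 * κ)) := by
    push_cast
    have h3d : (3 * d : ℝ) ≤ κ := by exact_mod_cast (by omega : 3 * d ≤ κ)
    have hκ0 : (0 : ℝ) ≤ κ := Nat.cast_nonneg _
    calc (κ : ℝ) + 3 * d * S ≤ κ * (8 ^ d * (9 / 8 : ℝ) ^ (2 * κ)) +
          κ * (8 ^ d * (9 / 8 : ℝ) ^ (2 * κ)) := by
          refine add_le_add (le_mul_of_one_le_right hκ0 h8) ?_
          exact mul_le_mul h3d hS (Nat.cast_nonneg _) hκ0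
      _ = _ := by ring
  have hfin : ((κ + 3 * d * S : ℕ) : ℝ) ^ 20 ≤ 2 ^ (19 * (κ - 1)) := by
    have e1 : ((κ + 3 * d * S : ℕ) : ℝ) ^ 20 ≤ (2 * κ * (8 ^ d * (9 / 8 : ℝ) ^ (2 * κ))) ^ 20 :=
      pow_le_pow_left₀ (Nat.cast_nonneg _) hy 20
    have e2 : (2 * κ * (8 ^ d * (9 / 8 : ℝ) ^ (2 * κ))) ^ 20 =
        2 ^ 20 * κ ^ 20 * 8 ^ (20 * d) * ((9 / 8 : ℝ) ^ 40) ^ κ := by
      rw [mul_pow, mul_pow, mul_pow, ← pow_mul, ← pow_mul, ← pow_mul]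
      ring_nf
    have e3 : (8 : ℝ) ^ (20 * d) ≤ (2 ^ 12) ^ κ := by
      rw [show (8 : ℝ) = 2 ^ 3 by norm_num, ← pow_mul, ← pow_mul]
      exact pow_le_pow_right₀ (by norm_num) (by omega)
    have e4 : (2 : ℝ) ^ 20 * κ ^ 20 * 8 ^ (20 * d) * ((9 / 8 : ℝ) ^ 40) ^ κ ≤
        2 ^ 20 * κ ^ 20 * (2 ^ 12) ^ κ * ((9 / 8 : ℝ) ^ 40) ^ κ := by
      refine mul_le_mul_of_nonneg_right (mul_le_mul_of_nonneg_left e3 (by positivity))
        (by positivity)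
    have e5 : (2 : ℝ) ^ 20 * κ ^ 20 * (2 ^ 12) ^ κ * ((9 / 8 : ℝ) ^ 40) ^ κ =
        2 ^ 20 * (κ ^ 20 * ((9 / 8 : ℝ) ^ 40 / 2 ^ 7) ^ κ) * (2 ^ 19) ^ κ := by
      have : (2 : ℝ) ^ 12 * (9 / 8 : ℝ) ^ 40 = ((9 / 8 : ℝ) ^ 40 / 2 ^ 7) * 2 ^ 19 := by ring
      calc (2 : ℝ) ^ 20 * κ ^ 20 * (2 ^ 12) ^ κ * ((9 / 8 : ℝ) ^ 40) ^ κ
          = 2 ^ 20 * κ ^ 20 * (2 ^ 12 * (9 / 8 : ℝ) ^ 40) ^ κ := by rw [mul_pow]; ring
        _ = 2 ^ 20 * κ ^ 20 * (((9 / 8 : ℝ) ^ 40 / 2 ^ 7) * 2 ^ 19) ^ κ := by rw [this]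
        _ = _ := by rw [mul_pow]; ring
    have e6 : (2 : ℝ) ^ 20 * (κ ^ 20 * ((9 / 8 : ℝ) ^ 40 / 2 ^ 7) ^ κ) * (2 ^ 19) ^ κ ≤
        2 ^ 20 * (1 / 2 ^ 39) * (2 ^ 19) ^ κ :=
      mul_le_mul_of_nonneg_right (mul_le_mul_of_nonneg_left h1.le (by positivity)) (by positivity)
    have e7 : (2 : ℝ) ^ 20 * (1 / 2 ^ 39) * (2 ^ 19) ^ κ = 2 ^ (19 * (κ - 1)) := by
      obtain ⟨κ', rfl⟩ : ∃ κ', κ = κ' + 1 := ⟨κ - 1, by omega⟩
      rw [Nat.add_sub_cancel, pow_succ, pow_mul]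
      ring
    exact e1.trans (e2.le.trans (e4.trans (e5.le.trans (e6.trans e7.le))))
  exact_mod_cast hfin

/-- the numerical estimate for general exponents -/
theorem exists_threshold_general (a : ℕ) : ∃ b κ₀ : ℕ, ∀ κ ≥ κ₀, ∀ d : ℕ, b * d ≤ κ →
    (κ + 3 * d * ∑ j ∈ Finset.range d, (2 * κ).choose j) ^ a ≤ 2 ^ (κ - 1) := by
  obtain ⟨q, hq1, hq⟩ : ∃ q : ℝ, 1 ≤ q ∧ (1 / q + 1) ^ (2 * a) < 5 / 4 := by
    have h1 : Filter.Tendsto (fun n : ℕ => (1 / ((n : ℝ) + 1) + 1) ^ (2 * a)) Filter.atTop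
        (nhds 1) := by
      have h2 := (tendsto_one_div_add_atTop_nhds_zero_nat (𝕜 := ℝ)).add_const 1
      have h3 := h2.pow (2 * a)
      rwa [zero_add, one_pow] at h3
    have h4 := h1.eventually (gt_mem_nhds (show (1 : ℝ) < 5 / 4 by norm_num))
    obtain ⟨n, hn⟩ := h4.exists
    exact ⟨(n : ℝ) + 1, by linarith [(Nat.cast_nonneg n : (0 : ℝ) ≤ n)], hn⟩
  have hq0 : 0 < q := by linarith
  obtain ⟨b', hb'⟩ := pow_unbounded_of_one_lt (q ^ a) (show (1 : ℝ) < 5 / 4 by norm_num)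
  have ht := tendsto_pow_const_mul_const_pow_of_abs_lt_one a
    (r := (25 / 32 : ℝ)) (by
      rw [abs_of_pos (by positivity)]
      norm_num)
  have hev := ht.eventually (gt_mem_nhds (show (0 : ℝ) < 1 / 2 ^ (a + 1) by positivity))
  obtain ⟨κ₁, hκ₁⟩ := Filter.eventually_atTop.1 hev
  refine ⟨b' + 3, max κ₁ 1, fun κ hκ d hd => ?_⟩
  have hκ1 : 1 ≤ κ := le_of_max_le_right hκ
  have h1 := hκ₁ κ (le_of_max_le_left hκ)
  have hS := sum_choose_le (2 * κ) d q hq1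
  set S := ∑ j ∈ Finset.range d, (2 * κ).choose j with hSdef
  have h8 : (1 : ℝ) ≤ q ^ d * (1 / q + 1) ^ (2 * κ) :=
    one_le_mul_of_one_le_of_one_le (one_le_pow₀ hq1)
      (one_le_pow₀ (by linarith [(by positivity : (0 : ℝ) < 1 / q)]))
  have h3d' : 3 * d ≤ κ := by nlinarith
  have hbd' : b' * d ≤ κ := by nlinarith
  have hy : ((κ + 3 * d * S : ℕ) : ℝ) ≤ 2 * κ * (q ^ d * (1 / q + 1) ^ (2 * κ)) := by
    push_cast
    have h3d : (3 * d : ℝ) ≤ κ := by exact_mod_cast h3d'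
    have hκ0 : (0 : ℝ) ≤ κ := Nat.cast_nonneg _
    calc (κ : ℝ) + 3 * d * S ≤ κ * (q ^ d * (1 / q + 1) ^ (2 * κ)) +
          κ * (q ^ d * (1 / q + 1) ^ (2 * κ)) := by
          refine add_le_add (le_mul_of_one_le_right hκ0 h8) ?_
          exact mul_le_mul h3d hS (Nat.cast_nonneg _) hκ0
      _ = _ := by ring
  have hfin : ((κ + 3 * d * S : ℕ) : ℝ) ^ a ≤ 2 ^ (κ - 1) := by
    have e1 : ((κ + 3 * d * S : ℕ) : ℝ) ^ a ≤ (2 * κ * (q ^ d * (1 / q + 1) ^ (2 * κ))) ^ a :=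
      pow_le_pow_left₀ (Nat.cast_nonneg _) hy a
    have e2 : (2 * κ * (q ^ d * (1 / q + 1) ^ (2 * κ))) ^ a =
        2 ^ a * κ ^ a * (q ^ a) ^ d * ((1 / q + 1) ^ (2 * a)) ^ κ := by
      rw [mul_pow, mul_pow, mul_pow, ← pow_mul, ← pow_mul, ← pow_mul, ← pow_mul]
      rw [show 2 * κ * a = 2 * a * κ by ring, mul_comm d a]
      ring
    have e3 : (q ^ a) ^ d ≤ (5 / 4 : ℝ) ^ κ := by
      calc (q ^ a) ^ d ≤ ((5 / 4 : ℝ) ^ b') ^ d := pow_le_pow_left₀ (by positivity) hb'.le d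
        _ = (5 / 4 : ℝ) ^ (b' * d) := (pow_mul _ _ _).symm
        _ ≤ _ := pow_le_pow_right₀ (by norm_num) hbd'
    have e4 : ((1 / q + 1) ^ (2 * a)) ^ κ ≤ (5 / 4 : ℝ) ^ κ :=
      pow_le_pow_left₀ (by positivity) hq.le κ
    have e5 : (2 : ℝ) ^ a * κ ^ a * (q ^ a) ^ d * ((1 / q + 1) ^ (2 * a)) ^ κ ≤
        2 ^ a * κ ^ a * (5 / 4) ^ κ * (5 / 4) ^ κ :=
      mul_le_mul (mul_le_mul_of_nonneg_left e3 (by positivity)) e4 (by positivity) (by positivity)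
    have e6 : (2 : ℝ) ^ a * κ ^ a * (5 / 4) ^ κ * (5 / 4) ^ κ =
        2 ^ a * (κ ^ a * (25 / 32) ^ κ) * 2 ^ κ := by
      have : (5 / 4 : ℝ) ^ κ * (5 / 4) ^ κ = (25 / 32) ^ κ * 2 ^ κ := by
        rw [← mul_pow, ← mul_pow]
        norm_num
      calc (2 : ℝ) ^ a * κ ^ a * (5 / 4) ^ κ * (5 / 4) ^ κ
          = 2 ^ a * κ ^ a * ((5 / 4) ^ κ * (5 / 4) ^ κ) := by ring
        _ = _ := by rw [this]; ring
    have e7 : (2 : ℝ) ^ a * (κ ^ a * (25 / 32) ^ κ) * 2 ^ κ ≤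
        2 ^ a * (1 / 2 ^ (a + 1)) * 2 ^ κ :=
      mul_le_mul_of_nonneg_right (mul_le_mul_of_nonneg_left h1.le (by positivity)) (by positivity)
    have e8 : (2 : ℝ) ^ a * (1 / 2 ^ (a + 1)) * 2 ^ κ = 2 ^ (κ - 1) := by
      obtain ⟨κ', rfl⟩ : ∃ κ', κ = κ' + 1 := ⟨κ - 1, by omega⟩
      rw [Nat.add_sub_cancel, pow_succ, pow_succ]
      field_simp
    exact e1.trans (e2.le.trans (e5.trans (e6.le.trans (e7.trans e8.le))))
  exact_mod_cast hfin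

/-- The vertices `φ x` of the colouring are labelled by the bit vectors `x`, and for all `x ≠ y`
the colour of the pair `φ x, φ y` is the value of `P` at `(x, y)` or at `(y, x)`
(value 1 = edge of `G`, value 0 = edge of the complement). -/
def Computes {V : Type} {m : ℕ} (G : SimpleGraph V) (φ : (Fin m → ZMod 2) → V)
    (P : MvPolynomial (Fin m ⊕ Fin m) (ZMod 2)) : Prop :=
  ∀ x y : Fin m → ZMod 2, x ≠ y →
    ((G.Adj (φ x) (φ y) ↔ eval (Sum.elim x y) P = 1) ∨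
      (G.Adj (φ x) (φ y) ↔ eval (Sum.elim y x) P = 1))

theorem mono_of_constant {V : Type} {m k κ : ℕ} (G : SimpleGraph V)
    (φ : (Fin m → ZMod 2) → V) (hφ : Function.Injective φ)
    (P : MvPolynomial (Fin m ⊕ Fin m) (ZMod 2)) (hC : Computes G φ P)
    (U : Submodule (ZMod 2) (Fin m → ZMod 2)) (hUκ : Module.finrank (ZMod 2) U = κ)
    (hU : ∀ x ∈ U, ∀ y ∈ U, eval (Sum.elim x y) P = eval 0 P) (hk : k ≤ 2 ^ κ) :
    ¬ (G.CliqueFree k ∧ Gᶜ.CliqueFree k) := by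
  classical
  rintro ⟨h1, h2⟩
  have : Fact (Nat.Prime 2) := ⟨Nat.prime_two⟩
  have hcard : Fintype.card U = 2 ^ κ := by
    rw [Module.card_eq_pow_finrank (K := ZMod 2) (V := U), ZMod.card, hUκ]
  obtain ⟨A, hA⟩ : ∃ A : Finset U, A.card = k := by
    obtain ⟨A, _, hA⟩ := Finset.exists_subset_card_eq
      (s := (Finset.univ : Finset U)) (n := k) (by rw [Finset.card_univ, hcard]; exact hk)
    exact ⟨A, hA⟩
  let ψ : U ↪ V := ⟨fun u => φ u.1, fun u v h => Subtype.ext (hφ h)⟩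
  have hB : (A.map ψ).card = k := by rw [Finset.card_map, hA]
  rcases zmod2_cases (eval 0 P) with h0 | h0
  · refine h2 (A.map ψ) ⟨?_, hB⟩
    intro a ha b hb hab
    rw [Finset.mem_coe, Finset.mem_map] at ha hb
    obtain ⟨x, _, rfl⟩ := ha
    obtain ⟨y, _, rfl⟩ := hb
    rw [SimpleGraph.compl_adj]
    refine ⟨hab, fun hadj => ?_⟩
    have hxy : x.1 ≠ y.1 := fun h => hab (by rw [Subtype.ext h])
    rcases hC x.1 y.1 hxy with h | h
    · have h3 := h.1 hadj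
      rw [hU x.1 x.2 y.1 y.2, h0] at h3
      exact zero_ne_one h3
    · have h3 := h.1 hadj
      rw [hU y.1 y.2 x.1 x.2, h0] at h3
      exact zero_ne_one h3
  · refine h1 (A.map ψ) ⟨?_, hB⟩
    intro a ha b hb hab
    rw [Finset.mem_coe, Finset.mem_map] at ha hb
    obtain ⟨x, _, rfl⟩ := ha
    obtain ⟨y, _, rfl⟩ := hb
    have hxy : x.1 ≠ y.1 := fun h => hab (by rw [Subtype.ext h])
    rcases hC x.1 y.1 hxy with h | h
    · exact h.2 (by rw [hU x.1 x.2 y.1 y.2, h0])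
    · exact h.2 (by rw [hU y.1 y.2 x.1 x.2, h0])

theorem small_of_noMono {V : Type} {m k κ d : ℕ} (G : SimpleGraph V)
    (φ : (Fin m → ZMod 2) → V) (hφ : Function.Injective φ)
    (P : MvPolynomial (Fin m ⊕ Fin m) (ZMod 2)) (hP : P.totalDegree ≤ d)
    (hC : Computes G φ P) (hG : G.CliqueFree k ∧ Gᶜ.CliqueFree k) (hk : k ≤ 2 ^ κ) :
    m < κ + 3 * d * ∑ j ∈ Finset.range d, (2 * κ).choose j := by
  by_contra h
  rw [not_lt] at h
  obtain ⟨U, hU1, hU2⟩ := exists_subspace P hP κ h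
  exact mono_of_constant G φ hφ P hC U hU1 hU2 hk hG

theorem growth : ∃ K₀ : ℕ, ∀ (V : Type) (G : SimpleGraph V) (m d k : ℕ)
    (φ : (Fin m → ZMod 2) → V) (P : MvPolynomial (Fin m ⊕ Fin m) (ZMod 2)),
    Function.Injective φ → P.totalDegree ≤ d → Computes G φ P →
    G.CliqueFree k ∧ Gᶜ.CliqueFree k → K₀ ≤ k → 2 ^ (5 * d) ≤ k → m ^ 20 ≤ k ^ 19 := by
  obtain ⟨κ₀, hκ₀⟩ := exists_threshold
  refine ⟨2 ^ (κ₀ + 1), fun V G m d k φ P hφ hP hC hG hk hd => ?_⟩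
  set κ := Nat.clog 2 k with hκ
  have hk2 : k ≤ 2 ^ κ := Nat.le_pow_clog (by norm_num) k
  have hk1 : 1 < k := lt_of_lt_of_le (Nat.one_lt_two_pow (by omega)) hk
  have hκlow : 2 ^ (κ - 1) < k := Nat.pow_pred_clog_lt_self (by norm_num) hk1
  have hκge : κ₀ ≤ κ := by
    have := (Nat.pow_le_pow_iff_right (by norm_num : 1 < 2)).1 (hk.trans hk2)
    omega
  have h5d : 5 * d ≤ κ := (Nat.pow_le_pow_iff_right (by norm_num : 1 < 2)).1 (hd.trans hk2)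
  have h1 := small_of_noMono G φ hφ P hP hC hG hk2
  calc m ^ 20 ≤ (κ + 3 * d * ∑ j ∈ Finset.range d, (2 * κ).choose j) ^ 20 :=
        Nat.pow_le_pow_left h1.le 20
    _ ≤ 2 ^ (19 * (κ - 1)) := hκ₀ κ hκge d h5d
    _ = (2 ^ (κ - 1)) ^ 19 := by rw [← pow_mul, mul_comm]
    _ ≤ k ^ 19 := Nat.pow_le_pow_left hκlow.le 19

theorem growth_general (a : ℕ) : ∃ b K₀ : ℕ, ∀ (V : Type) (G : SimpleGraph V) (m d k : ℕ)
    (φ : (Fin m → ZMod 2) → V) (P : MvPolynomial (Fin m ⊕ Fin m) (ZMod 2)),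
    Function.Injective φ → P.totalDegree ≤ d → Computes G φ P →
    G.CliqueFree k ∧ Gᶜ.CliqueFree k → K₀ ≤ k → 2 ^ (b * d) ≤ k → m ^ a ≤ k := by
  obtain ⟨b, κ₀, hκ₀⟩ := exists_threshold_general a
  refine ⟨b, 2 ^ (κ₀ + 1), fun V G m d k φ P hφ hP hC hG hk hd => ?_⟩
  set κ := Nat.clog 2 k with hκ
  have hk2 : k ≤ 2 ^ κ := Nat.le_pow_clog (by norm_num) k
  have hk1 : 1 < k := lt_of_lt_of_le (Nat.one_lt_two_pow (by omega)) hk
  have hκlow : 2 ^ (κ - 1) < k := Nat.pow_pred_clog_lt_self (by norm_num) hk1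
  have hκge : κ₀ ≤ κ := by
    have := (Nat.pow_le_pow_iff_right (by norm_num : 1 < 2)).1 (hk.trans hk2)
    omega
  have hbd : b * d ≤ κ := (Nat.pow_le_pow_iff_right (by norm_num : 1 < 2)).1 (hd.trans hk2)
  have h1 := small_of_noMono G φ hφ P hP hC hG hk2
  calc m ^ a ≤ (κ + 3 * d * ∑ j ∈ Finset.range d, (2 * κ).choose j) ^ a :=
        Nat.pow_le_pow_left h1.le a
    _ ≤ 2 ^ (κ - 1) := hκ₀ κ hκge d hbd
    _ ≤ k := hκlow.le

/-- **Theorem.** Existence of low-degree colourings. -/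
theorem exists_colouring {t κ m : ℕ} (h3 : 3 ≤ ∑ j ∈ Finset.range (t + 1), κ.choose j)
    (hm : 2 * m ≤ ∑ j ∈ Finset.range (t + 1), κ.choose j) :
    ∃ (G : SimpleGraph (Fin m → ZMod 2)) (P : MvPolynomial (Fin m ⊕ Fin m) (ZMod 2)),
      P.totalDegree ≤ 2 * t ∧ (∀ x y, G.Adj x y ↔ eval (Sum.elim x y) P = 1) ∧
      G.CliqueFree (2 ^ κ) ∧ Gᶜ.CliqueFree (2 ^ κ) :=
  exists_random rfl (two_mul_choose_lt h3 hm)

/-- **Theorem.** Degree `log₂ k - 1` suffices for `n ≥ 2^(k/16)`. -/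
theorem exists_linear (k : ℕ) (hk : 8 ≤ k) :
    ∃ (m D : ℕ) (G : SimpleGraph (Fin m → ZMod 2)) (P : MvPolynomial (Fin m ⊕ Fin m) (ZMod 2)),
      k ≤ 16 * m ∧ 2 ^ (D + 1) ≤ k ∧ P.totalDegree ≤ D ∧
      (∀ x y, G.Adj x y ↔ eval (Sum.elim x y) P = 1) ∧
      G.CliqueFree k ∧ Gᶜ.CliqueFree k := by
  set l := Nat.log 2 k with hl
  have hl1 : 2 ^ l ≤ k := Nat.pow_log_le_self 2 (by omega)
  have hl2 : k < 2 ^ (l + 1) := Nat.lt_pow_succ_log_self (by norm_num) k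
  have hl3 : 3 ≤ l := by
    have : 2 ^ 3 < 2 ^ (l + 1) := lt_of_le_of_lt (by norm_num; exact hk) hl2
    have := (Nat.pow_lt_pow_iff_right (by norm_num : 1 < 2)).1 this
    omega
  obtain ⟨t, ht1, ht2⟩ : ∃ t, 1 ≤ t ∧ (l = 2 * t + 1 ∨ l = 2 * t + 2) :=
    ⟨(l - 1) / 2, by omega, by omega⟩
  obtain ⟨t', rfl⟩ : ∃ t', t = t' + 1 := ⟨t - 1, by omega⟩
  have hsum := Nat.sum_range_choose_halfway (t' + 1)
  have hpow : (4 : ℕ) ^ (t' + 1) = 2 * 2 ^ (2 * t' + 1) := by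
    rw [show (4 : ℕ) = 2 ^ 2 by norm_num, ← pow_mul]
    ring
  have h4 : 3 ≤ 4 ^ (t' + 1) := by
    rw [pow_succ]
    have : 1 ≤ 4 ^ t' := Nat.one_le_pow _ _ (by norm_num)
    omega
  obtain ⟨G, P, hP, hadj, hG1, hG2⟩ := exists_colouring (t := t' + 1) (κ := 2 * (t' + 1) + 1)
    (m := 2 ^ (2 * t' + 1)) (by rw [hsum]; exact h4) (by rw [hsum, hpow])
  have hle : 2 ^ (2 * (t' + 1) + 1) ≤ k :=
    (Nat.pow_le_pow_right (by norm_num) (by omega)).trans hl1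
  refine ⟨2 ^ (2 * t' + 1), 2 * (t' + 1), G, P, ?_, hle, hP, hadj, hG1.mono hle, hG2.mono hle⟩
  calc k ≤ 2 ^ (l + 1) := hl2.le
    _ ≤ 2 ^ (2 * t' + 1 + 4) := Nat.pow_le_pow_right (by norm_num) (by omega)
    _ = 16 * 2 ^ (2 * t' + 1) := by rw [pow_add]; ring

end Pool.Agent.X65.RamDeg
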