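import Pool.Agent.X65.RamDeg.Sub

/-!
A polynomial in two labels is constant on `V × V` for a large subspace `V`.
-/

namespace Pool.Agent.X65.RamDeg

open MvPolynomial Finset

theorem ext_point {σ ι : Type*} [DecidableEq ι] (P : MvPolynomial σ (ZMod 2)) {d : ℕ}
    (hP : P.totalDegree ≤ d) (b : ι → σ → ZMod 2) (δ : σ → ZMod 2) (c : ZMod 2)
    (H0 : ∀ T : Finset ι, eval (∑ i ∈ T, b i) P = c)
    (H1 : ∀ T : Finset ι, T.card < d → eval (∑ i ∈ T, b i + δ) P = c) (T : Finset ι) :
    eval (∑ i ∈ T, b i + δ) P = c := by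
  classical
  induction T using Finset.strongInduction with
  | H T ih =>
    by_cases hT : T.card < d
    · exact H1 T hT
    · have h1 := cube_sum_add P 0 δ b T (by omega)
      rw [Finset.sum_eq_single T] at h1
      · rw [zero_add, H0] at h1
        exact (CharTwo.add_eq_zero.1 h1).symm
      · intro T' hT' hne
        rw [Finset.mem_powerset] at hT'
        rw [zero_add, H0, ih T' (hT'.ssubset_of_ne hne)]
        exact CharTwo.add_self_eq_zero c
      · intro h2
        exact absurd (Finset.mem_powerset_self T) h2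

theorem exists_subset_sum {m κ : ℕ} {U : Submodule (ZMod 2) (Fin m → ZMod 2)}
    (b : Module.Basis (Fin κ) (ZMod 2) U) {x : Fin m → ZMod 2} (hx : x ∈ U) :
    ∃ T : Finset (Fin κ), x = ∑ i ∈ T, (b i : Fin m → ZMod 2) := by
  classical
  have h1 := b.sum_repr ⟨x, hx⟩
  refine ⟨Finset.univ.filter (fun i => b.repr ⟨x, hx⟩ i = 1), ?_⟩
  have h2 := congrArg (fun z : U => (z : Fin m → ZMod 2)) h1
  simp only at h2
  refine h2.symm.trans ?_
  rw [Submodule.coe_sum, Finset.sum_filter]
  refine Finset.sum_congr rfl fun i _ => ?_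
  rcases zmod2_cases (b.repr ⟨x, hx⟩ i) with h3 | h3
  · rw [h3, if_neg (by decide), zero_smul]
    rfl
  · rw [h3, if_pos rfl, one_smul]

theorem card_small_subsets (n d : ℕ) :
    (Finset.univ.filter (fun T : Finset (Fin n ⊕ Fin n) => T.card < d)).card ≤
      ∑ j ∈ Finset.range d, (2 * n).choose j := by
  classical
  have h1 : Finset.univ.filter (fun T : Finset (Fin n ⊕ Fin n) => T.card < d) ⊆
      (Finset.range d).biUnion
        (fun j => Finset.powersetCard j (Finset.univ : Finset (Fin n ⊕ Fin n))) := by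
    intro T hT
    rw [Finset.mem_filter] at hT
    rw [Finset.mem_biUnion]
    exact ⟨T.card, Finset.mem_range.2 hT.2, Finset.mem_powersetCard.2 ⟨Finset.subset_univ _, rfl⟩⟩
  refine (Finset.card_le_card h1).trans (Finset.card_biUnion_le.trans ?_)
  refine Finset.sum_le_sum fun j _ => ?_
  rw [Finset.card_powersetCard, Finset.card_univ, Fintype.card_sum, Fintype.card_fin, two_mul]

theorem step {m d : ℕ} (P : MvPolynomial (Fin m ⊕ Fin m) (ZMod 2)) (hP : P.totalDegree ≤ d)
    (c : ZMod 2) (U : Submodule (ZMod 2) (Fin m → ZMod 2))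
    (hU : ∀ x ∈ U, ∀ y ∈ U, eval (Sum.elim x y) P = c)
    (hm : Module.finrank (ZMod 2) U +
      3 * d * ∑ j ∈ Finset.range d, (2 * Module.finrank (ZMod 2) U).choose j < m) :
    ∃ v, v ∉ U ∧ ∀ x ∈ U ⊔ Submodule.span (ZMod 2) {v},
      ∀ y ∈ U ⊔ Submodule.span (ZMod 2) {v}, eval (Sum.elim x y) P = c := by
  classical
  have : Fact (Nat.Prime 2) := ⟨Nat.prime_two⟩
  set κ := Module.finrank (ZMod 2) U with hκ
  let b : Module.Basis (Fin κ) (ZMod 2) U := Module.finBasis (ZMod 2) U
  obtain ⟨W, hW⟩ := U.exists_isCompl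
  have hWr : κ + Module.finrank (ZMod 2) W = m := by
    have h := Submodule.finrank_add_eq_of_isCompl hW
    rw [Module.finrank_fin_fun] at h
    exact h
  set r := Module.finrank (ZMod 2) W with hr
  let w : Module.Basis (Fin r) (ZMod 2) W := Module.finBasis (ZMod 2) W
  let e : Fin κ ⊕ Fin κ → (Fin m ⊕ Fin m → ZMod 2) :=
    Sum.elim (fun i => Sum.elim (b i : Fin m → ZMod 2) 0)
      (fun i => Sum.elim 0 (b i : Fin m → ZMod 2))
  let D : Fin 3 → ZMod 2 × ZMod 2 := ![(1, 0), (0, 1), (1, 1)]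
  have hsub : ∀ i : Finset (Fin κ ⊕ Fin κ) × Fin 3, ∃ Q : MvPolynomial (Fin r) (ZMod 2),
      Q.totalDegree ≤ d ∧ ∀ t : Fin r → ZMod 2, eval t Q =
        eval (fun s => (∑ i ∈ i.1, e i) s + ∑ j, t j *
          (Sum.elim ((D i.2).1 • (w j : Fin m → ZMod 2)) ((D i.2).2 • (w j : Fin m → ZMod 2)) :
            Fin m ⊕ Fin m → ZMod 2) s) P := by
    intro i
    obtain ⟨Q, h1, h2⟩ := exists_subst P (∑ i ∈ i.1, e i) (fun j : Fin r =>
      (Sum.elim ((D i.2).1 • (w j : Fin m → ZMod 2)) ((D i.2).2 • (w j : Fin m → ZMod 2)) :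
            Fin m ⊕ Fin m → ZMod 2))
    exact ⟨Q, h1.trans hP, h2⟩
  choose Q hQd hQe using hsub
  let I : Finset (Finset (Fin κ ⊕ Fin κ) × Fin 3) :=
    (Finset.univ.filter (fun T : Finset (Fin κ ⊕ Fin κ) => T.card < d)) ×ˢ Finset.univ
  have hI : I.card ≤ 3 * ∑ j ∈ Finset.range d, (2 * κ).choose j := by
    rw [Finset.card_product, Finset.card_univ, Fintype.card_fin, mul_comm]
    exact Nat.mul_le_mul_left _ (card_small_subsets κ d)
  have hCW := char_dvd_card_solutions_of_sum_lt 2 (s := I) (f := fun i => Q i - C c) (by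
    rw [Fintype.card_fin]
    have h1 : ∑ i ∈ I, (Q i - C c).totalDegree ≤ I.card * d := by
      rw [← smul_eq_mul, ← Finset.sum_const]
      exact Finset.sum_le_sum fun i _ => (totalDegree_sub_C_le _ _).trans (hQd i)
    have h2 : I.card * d ≤ 3 * d * ∑ j ∈ Finset.range d, (2 * κ).choose j := by
      calc I.card * d ≤ (3 * ∑ j ∈ Finset.range d, (2 * κ).choose j) * d :=
            Nat.mul_le_mul_right _ hI
        _ = _ := by ring
    omega)
  have hsum0 : ∀ T : Finset (Fin κ ⊕ Fin κ), eval (∑ i ∈ T, e i) P = c := by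
    intro T
    have h1 : ∑ i ∈ T, e i = Sum.elim (∑ i ∈ T.toLeft, (b i : Fin m → ZMod 2))
        (∑ i ∈ T.toRight, (b i : Fin m → ZMod 2)) := by
      conv_lhs => rw [← Finset.toLeft_disjSum_toRight (u := T)]
      rw [Finset.sum_disjSum]
      funext s
      cases s with
      | inl a => simp [e, Finset.sum_apply]
      | inr a => simp [e, Finset.sum_apply]
    rw [h1]
    exact hU _ (Submodule.sum_mem _ fun i _ => (b i).2) _ (Submodule.sum_mem _ fun i _ => (b i).2)
  have h0 : ∀ i ∈ I, eval (0 : Fin r → ZMod 2) (Q i - C c) = 0 := by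
    intro i _
    rw [map_sub, hQe, eval_C, sub_eq_zero]
    have : (fun s => (∑ i ∈ i.1, e i) s + ∑ j, (0 : Fin r → ZMod 2) j *
          (Sum.elim ((D i.2).1 • (w j : Fin m → ZMod 2)) ((D i.2).2 • (w j : Fin m → ZMod 2)) :
            Fin m ⊕ Fin m → ZMod 2) s) = ∑ i ∈ i.1, e i := by
      funext s
      simp
    rw [this, hsum0]
  obtain ⟨t, ht, htne⟩ : ∃ t : Fin r → ZMod 2, (∀ i ∈ I, eval t (Q i - C c) = 0) ∧ t ≠ 0 := by
    let z : {x : Fin r → ZMod 2 // ∀ i ∈ I, eval x (Q i - C c) = 0} := ⟨0, h0⟩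
    have hpos : 0 < Fintype.card {x : Fin r → ZMod 2 // ∀ i ∈ I, eval x (Q i - C c) = 0} :=
      Fintype.card_pos_iff.2 ⟨z⟩
    have h1 : 1 < Fintype.card {x : Fin r → ZMod 2 // ∀ i ∈ I, eval x (Q i - C c) = 0} := by
      have h2 := Nat.le_of_dvd hpos (by convert hCW)
      omega
    obtain ⟨y, hy⟩ := Fintype.exists_ne_of_one_lt_card h1 z
    exact ⟨y.1, y.2, fun h => hy (Subtype.ext h)⟩
  let v : W := ∑ j, t j • w j
  have hv0 : v ≠ 0 := by
    intro h
    apply htne
    have h1 := (Fintype.linearIndependent_iff.1 w.linearIndependent) t h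
    funext j
    exact h1 j
  refine ⟨(v : Fin m → ZMod 2), ?_, ?_⟩
  · intro hvU
    have h1 : (v : Fin m → ZMod 2) ∈ U ⊓ W := ⟨hvU, v.2⟩
    rw [hW.inf_eq_bot, Submodule.mem_bot] at h1
    exact hv0 (Subtype.ext h1)
  · have hvs : (v : Fin m → ZMod 2) = ∑ j, t j • (w j : Fin m → ZMod 2) := by
      simp [v]
    have key : ∀ q : Fin 3, ∀ T : Finset (Fin κ ⊕ Fin κ),
        eval (∑ i ∈ T, e i + (Sum.elim ((D q).1 • (v : Fin m → ZMod 2))
          ((D q).2 • (v : Fin m → ZMod 2)) : Fin m ⊕ Fin m → ZMod 2)) P = c := by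
      intro q T
      refine ext_point P hP e _ c hsum0 ?_ T
      intro T hT
      have h1 := ht (T, q) (Finset.mem_product.2
        ⟨Finset.mem_filter.2 ⟨Finset.mem_univ _, hT⟩, Finset.mem_univ _⟩)
      rw [map_sub, hQe, eval_C, sub_eq_zero] at h1
      rw [← h1]
      congr 2
      funext s
      rw [Pi.add_apply]
      congr 1
      cases s with
      | inl a =>
        simp only [Sum.elim_inl, Pi.smul_apply, smul_eq_mul]
        rw [hvs, Finset.sum_apply, Finset.mul_sum]
        refine Finset.sum_congr rfl fun j _ => ?_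
        simp only [Pi.smul_apply, smul_eq_mul]
        ring
      | inr a =>
        simp only [Sum.elim_inr, Pi.smul_apply, smul_eq_mul]
        rw [hvs, Finset.sum_apply, Finset.mul_sum]
        refine Finset.sum_congr rfl fun j _ => ?_
        simp only [Pi.smul_apply, smul_eq_mul]
        ring
    intro x hx y hy
    obtain ⟨x', hx', x'', hx'', rfl⟩ := Submodule.mem_sup.1 hx
    obtain ⟨y', hy', y'', hy'', rfl⟩ := Submodule.mem_sup.1 hy
    obtain ⟨α, rfl⟩ := Submodule.mem_span_singleton.1 hx''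
    obtain ⟨β, rfl⟩ := Submodule.mem_span_singleton.1 hy''
    obtain ⟨T1, hT1⟩ := exists_subset_sum b hx'
    obtain ⟨T2, hT2⟩ := exists_subset_sum b hy'
    have hxy : (Sum.elim x' y' : Fin m ⊕ Fin m → ZMod 2) = ∑ i ∈ T1.disjSum T2, e i := by
      rw [Finset.sum_disjSum, hT1, hT2]
      funext s
      cases s with
      | inl a => simp [e, Finset.sum_apply]
      | inr a => simp [e, Finset.sum_apply]
    have hsplit : (Sum.elim (x' + α • (v : Fin m → ZMod 2)) (y' + β • (v : Fin m → ZMod 2)) :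
        Fin m ⊕ Fin m → ZMod 2) = ∑ i ∈ T1.disjSum T2, e i +
          (Sum.elim (α • (v : Fin m → ZMod 2)) (β • (v : Fin m → ZMod 2)) :
            Fin m ⊕ Fin m → ZMod 2) := by
      rw [← hxy]
      funext s
      cases s with
      | inl a => simp
      | inr a => simp
    rcases zmod2_cases α with hα | hα
    · rcases zmod2_cases β with hβ | hβ
      · rw [hα, hβ, zero_smul, add_zero, add_zero]
        exact hU _ hx' _ hy'
      · rw [hsplit, hα, hβ]
        exact key 1 _
    · rcases zmod2_cases β with hβ | hβ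
      · rw [hsplit, hα, hβ]
        exact key 0 _
      · rw [hsplit, hα, hβ]
        exact key 2 _

/-- **Theorem.** A polynomial of degree `≤ d` in two labels of `m` bits is constant on `U × U` for
some subspace `U` of dimension `κ`, as soon as `κ + 3d ∑_{j<d} C(2κ, j) ≤ m`. -/
theorem exists_subspace {m d : ℕ} (P : MvPolynomial (Fin m ⊕ Fin m) (ZMod 2))
    (hP : P.totalDegree ≤ d) (κ : ℕ)
    (h : κ + 3 * d * ∑ j ∈ Finset.range d, (2 * κ).choose j ≤ m) :
    ∃ U : Submodule (ZMod 2) (Fin m → ZMod 2), Module.finrank (ZMod 2) U = κ ∧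
      ∀ x ∈ U, ∀ y ∈ U, eval (Sum.elim x y) P = eval 0 P := by
  classical
  induction κ with
  | zero =>
    refine ⟨⊥, finrank_bot _ _, ?_⟩
    intro x hx y hy
    rw [Submodule.mem_bot] at hx hy
    subst hx hy
    congr 2
    funext s
    cases s <;> rfl
  | succ κ ih =>
    have hmono : ∑ j ∈ Finset.range d, (2 * κ).choose j ≤
        ∑ j ∈ Finset.range d, (2 * (κ + 1)).choose j :=
      Finset.sum_le_sum fun j _ => Nat.choose_le_choose j (by omega)
    have hmono' := Nat.mul_le_mul_left (3 * d) hmono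
    obtain ⟨U, hUr, hU⟩ := ih (by omega)
    obtain ⟨v, hv, hvU⟩ := step P hP (eval 0 P) U hU (by rw [hUr]; omega)
    refine ⟨_, ?_, hvU⟩
    have h1 : Module.finrank (ZMod 2) (Submodule.span (ZMod 2) {v}) = 1 := by
      refine finrank_span_singleton ?_
      rintro rfl
      exact hv (Submodule.zero_mem _)
    have h2 : U ⊓ Submodule.span (ZMod 2) {v} = ⊥ := by
      rw [eq_bot_iff]
      rintro z ⟨hz1, hz2⟩
      obtain ⟨a, rfl⟩ := Submodule.mem_span_singleton.1 hz2
      rcases zmod2_cases a with ha | ha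
      · rw [ha, zero_smul]
        exact Submodule.zero_mem _
      · rw [ha, one_smul] at hz1
        exact absurd hz1 hv
    have h3 := Submodule.finrank_sup_add_finrank_inf_eq U (Submodule.span (ZMod 2) {v})
    rw [h2, finrank_bot, hUr, h1] at h3
    exact h3

end Pool.Agent.X65.RamDeg
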