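import Pool.Agent.X65.RamDeg.Sharp

/-!
The growth of the Ramsey function for colourings of fixed degree.
-/

namespace Pool.Agent.X65.RamDeg

open MvPolynomial Finset Filter Topology

/-- There is a two-colouring of the complete graph on the `2^m` bit vectors of length `m`, given by
a polynomial of degree at most `d`, without monochromatic clique on `k` vertices. -/
def HasColouring (d k m : ℕ) : Prop :=
  ∃ (G : SimpleGraph (Fin m → ZMod 2)) (P : MvPolynomial (Fin m ⊕ Fin m) (ZMod 2)),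
    P.totalDegree ≤ d ∧ (∀ x y, x ≠ y → (G.Adj x y ↔ eval (Sum.elim x y) P = 1)) ∧
    G.CliqueFree k ∧ Gᶜ.CliqueFree k

/-- the largest `m` with such a colouring -/
noncomputable def maxBits (d k : ℕ) : ℕ := sSup {m | HasColouring d k m}

theorem hasColouring_lt {d k m κ : ℕ} (h : HasColouring d k m) (hk : k ≤ 2 ^ κ) :
    m < κ + 3 * d * ∑ j ∈ Finset.range d, (2 * κ).choose j := by
  obtain ⟨G, P, hP, hadj, hG⟩ := h
  exact small_of_noMono G id Function.injective_id P hP (fun x y hxy => Or.inl (hadj x y hxy))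
    hG hk

theorem lt_closed {d κ : ℕ} (hd : 1 ≤ d) :
    κ + 3 * d * ∑ j ∈ Finset.range d, (2 * κ).choose j ≤
      κ + 3 * d * (2 * κ + 1) ^ (d - 1) := by
  obtain ⟨e, rfl⟩ : ∃ e, d = e + 1 := ⟨d - 1, by omega⟩
  rw [Nat.add_sub_cancel]
  exact Nat.add_le_add_left (Nat.mul_le_mul_left _ (sum_choose_le_pow (2 * κ) e)) _

theorem bddAbove_bits (d k : ℕ) : BddAbove {m | HasColouring d k m} := by
  refine ⟨k + 3 * d * ∑ j ∈ Finset.range d, (2 * k).choose j, fun m hm => ?_⟩
  exact (hasColouring_lt hm Nat.lt_two_pow_self.le).le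

theorem le_maxBits {d k m : ℕ} (h : HasColouring d k m) : m ≤ maxBits d k :=
  le_csSup (bddAbove_bits d k) h

theorem hasColouring_zero {d k : ℕ} (hk : 2 ≤ k) : HasColouring d k 0 := by
  refine ⟨⊥, 0, by simp, fun x y hxy => absurd (Subsingleton.elim x y) hxy, ?_, ?_⟩
  · intro A hA
    have h1 : A.card ≤ 1 := Finset.card_le_one.2 fun a _ b _ => Subsingleton.elim a b
    have h2 := hA.card_eq
    omega
  · intro A hA
    have h1 : A.card ≤ 1 := Finset.card_le_one.2 fun a _ b _ => Subsingleton.elim a b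
    have h2 := hA.card_eq
    omega

theorem maxBits_mem {d k : ℕ} (hk : 2 ≤ k) : HasColouring d k (maxBits d k) :=
  Nat.sSup_mem ⟨0, hasColouring_zero hk⟩ (bddAbove_bits d k)

theorem exists_lower (d q : ℕ) (hd : 2 ≤ d) (hq : 1 ≤ q) : ∃ K₀ : ℕ, ∀ k ≥ K₀, ∀ m : ℕ, 1 ≤ m →
    m ^ q ≤ (Nat.log 2 k) ^ ((d - 1) * q - 1) → HasColouring d k m := by
  obtain ⟨κ₀, hκ₀⟩ := exists_sharp (d - 1) q (by omega) hq
  refine ⟨2 ^ κ₀, fun k hk m hm hmq => ?_⟩
  have hk0 : k ≠ 0 := by
    have : 1 ≤ 2 ^ κ₀ := Nat.one_le_pow _ _ (by norm_num)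
    omega
  have h1 : κ₀ ≤ Nat.log 2 k := Nat.le_log_of_pow_le (by norm_num) hk
  obtain ⟨G, P, hP, hadj, hG1, hG2⟩ := hκ₀ (Nat.log 2 k) h1 m hm hmq
  have h2 : 2 ^ Nat.log 2 k ≤ k := Nat.pow_log_le_self 2 hk0
  exact ⟨G, P, hP.trans (by omega), fun x y _ => hadj x y, hG1.mono h2, hG2.mono h2⟩

/-- **Theorem.** `log M / log log₂ k → d - 1` for the largest number `M` of bits. -/
theorem tendsto_maxBits (d : ℕ) (hd : 2 ≤ d) :
    Tendsto (fun k : ℕ => Real.log (maxBits d k) / Real.log (Real.logb 2 k)) atTop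
      (𝓝 ((d : ℝ) - 1)) := by
  have hx : Tendsto (fun k : ℕ => Real.logb 2 k) atTop atTop :=
    (Real.tendsto_logb_atTop (by norm_num)).comp tendsto_natCast_atTop_atTop
  have hlx : Tendsto (fun k : ℕ => Real.log (Real.logb 2 k)) atTop atTop :=
    Real.tendsto_log_atTop.comp hx
  have hinv : Tendsto (fun k : ℕ => (Real.log (Real.logb 2 k))⁻¹) atTop (𝓝 0) :=
    tendsto_inv_atTop_zero.comp hlx
  have hκ : ∀ k : ℕ, 1 ≤ k → (Nat.log 2 k : ℝ) ≤ Real.logb 2 k ∧
      Real.logb 2 k < Nat.log 2 k + 1 := by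
    intro k hk
    have hk0 : (0 : ℝ) < k := by exact_mod_cast hk
    constructor
    · rw [Real.le_logb_iff_rpow_le (by norm_num) hk0, Real.rpow_natCast]
      exact_mod_cast Nat.pow_log_le_self 2 (by omega)
    · rw [Real.logb_lt_iff_lt_rpow (by norm_num) hk0]
      have : ((2 : ℝ) ^ ((Nat.log 2 k : ℝ) + 1)) = ((2 ^ (Nat.log 2 k + 1) : ℕ) : ℝ) := by
        rw [← Nat.cast_add_one, Real.rpow_natCast]
        push_cast
        rfl
      rw [this]
      exact_mod_cast Nat.lt_pow_succ_log_self (by norm_num) k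
  refine tendsto_order.2 ⟨fun a ha => ?_, fun a ha => ?_⟩
  · -- lower bound
    obtain ⟨q, hq⟩ := exists_nat_gt (1 / ((d : ℝ) - 1 - a))
    have hpos : 0 < (d : ℝ) - 1 - a := by linarith
    have hq0 : (0 : ℝ) < q := lt_trans (by positivity) hq
    have hq1 : 1 ≤ q := by exact_mod_cast hq0
    have hqa : a < (d : ℝ) - 1 - 1 / q := by
      rw [div_lt_iff₀ hpos] at hq
      have h1 : 1 / (q : ℝ) < (d : ℝ) - 1 - a := by
        rw [div_lt_iff₀ hq0]
        linarith
      linarith
    obtain ⟨K₀, hK₀⟩ := exists_lower d q hd hq1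
    -- the comparison function
    have hg : Tendsto (fun k : ℕ => ((d : ℝ) - 1 - 1 / q) -
        (((d : ℝ) - 1 - 1 / q) * Real.log 2 + Real.log 2) *
          (Real.log (Real.logb 2 k))⁻¹) atTop (𝓝 ((d : ℝ) - 1 - 1 / q)) := by
      have h1 := (hinv.const_mul (((d : ℝ) - 1 - 1 / q) * Real.log 2 + Real.log 2)).const_sub
        ((d : ℝ) - 1 - 1 / q)
      simpa using h1
    have hev := hg.eventually (lt_mem_nhds hqa)
    filter_upwards [hev, eventually_ge_atTop K₀, eventually_ge_atTop 4,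
      hx.eventually_ge_atTop 2, hlx.eventually_gt_atTop 0] with k h1 h2 h3 h4 h5
    refine lt_of_lt_of_le h1 ?_
    set M := maxBits d k with hM
    set κ := Nat.log 2 k with hκdef
    obtain ⟨hκ1, hκ2⟩ := hκ k (by omega)
    have hκge : 2 ≤ κ := by
      have : 2 ^ 2 ≤ k := by omega
      exact Nat.le_log_of_pow_le (by norm_num) this
    have hexp : 1 ≤ (d - 1) * q := Nat.one_le_iff_ne_zero.2 (by
      have : d - 1 ≠ 0 := by omega
      positivity)
    have hM1 : 1 ≤ M := le_maxBits (hK₀ k h2 1 le_rfl (by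
      rw [one_pow]
      exact Nat.one_le_pow _ _ (by omega)))
    have hlow : κ ^ ((d - 1) * q - 1) ≤ (2 * M) ^ q := by
      by_contra hlt
      rw [not_le] at hlt
      have h6 : (M + 1) ^ q ≤ κ ^ ((d - 1) * q - 1) :=
        (Nat.pow_le_pow_left (by omega) q).trans hlt.le
      have h7 := le_maxBits (hK₀ k h2 (M + 1) (by omega) h6)
      omega
    have hκpos : (0 : ℝ) < κ := by exact_mod_cast (by omega : 0 < κ)
    have hMpos : (0 : ℝ) < M := by exact_mod_cast hM1
    have hlog : (((d : ℝ) - 1) * q - 1) * Real.log κ ≤ q * (Real.log 2 + Real.log M) := by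
      have h6 : ((κ : ℝ)) ^ ((d - 1) * q - 1) ≤ (2 * (M : ℝ)) ^ q := by exact_mod_cast hlow
      have h7 := Real.log_le_log (by positivity) h6
      rw [Real.log_pow, Real.log_pow, Real.log_mul (by norm_num) hMpos.ne'] at h7
      have h8 : (((d - 1) * q - 1 : ℕ) : ℝ) = ((d : ℝ) - 1) * q - 1 := by
        rw [Nat.cast_sub hexp, Nat.cast_mul, Nat.cast_sub (by omega)]
        push_cast
        ring
      rw [h8] at h7
      exact h7
    have hκx : Real.log (Real.logb 2 k) ≤ Real.log 2 + Real.log κ := by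
      rw [← Real.log_mul (by norm_num) hκpos.ne']
      refine Real.log_le_log (by linarith) ?_
      have : (1 : ℝ) ≤ κ := by exact_mod_cast (by omega : 1 ≤ κ)
      linarith
    set X := Real.log (Real.logb 2 k) with hX
    have hcoef : 0 ≤ (d : ℝ) - 1 - 1 / q := by
      have h6 : (1 : ℝ) ≤ (d : ℝ) - 1 := by
        have : (2 : ℝ) ≤ d := by exact_mod_cast hd
        linarith
      have h7 : 1 / (q : ℝ) ≤ 1 := by
        rw [div_le_one hq0]
        exact_mod_cast hq1
      linarith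
    have hfin : ((d : ℝ) - 1 - 1 / q) * (X - Real.log 2) - Real.log 2 ≤ Real.log M := by
      have h6 : ((d : ℝ) - 1 - 1 / q) * Real.log κ ≤ Real.log 2 + Real.log M := by
        have h7 : q * (((d : ℝ) - 1 - 1 / q) * Real.log κ) ≤ q * (Real.log 2 + Real.log M) := by
          refine le_trans (le_of_eq ?_) hlog
          field_simp
        exact le_of_mul_le_mul_left h7 hq0
      have h8 : ((d : ℝ) - 1 - 1 / q) * (X - Real.log 2) ≤
          ((d : ℝ) - 1 - 1 / q) * Real.log κ :=
        mul_le_mul_of_nonneg_left (by linarith) hcoef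
      linarith
    rw [le_div_iff₀ h5]
    have h9 : (((d : ℝ) - 1 - 1 / q) -
        (((d : ℝ) - 1 - 1 / q) * Real.log 2 + Real.log 2) * X⁻¹) * X =
        ((d : ℝ) - 1 - 1 / q) * (X - Real.log 2) - Real.log 2 := by
      field_simp
      ring
    rw [h9]
    exact hfin
  · -- upper bound
    set Cd : ℝ := 2 + 3 * d * 5 ^ (d - 1) with hCd
    have hCdpos : 0 < Cd := by positivity
    have hg : Tendsto (fun k : ℕ => ((d : ℝ) - 1) + Real.log Cd *
        (Real.log (Real.logb 2 k))⁻¹) atTop (𝓝 ((d : ℝ) - 1)) := by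
      have h1 := (hinv.const_mul (Real.log Cd)).const_add ((d : ℝ) - 1)
      simpa using h1
    have hev := hg.eventually (gt_mem_nhds ha)
    filter_upwards [hev, eventually_ge_atTop 4, hx.eventually_ge_atTop 2,
      hlx.eventually_gt_atTop 0] with k h1 h3 h4 h5
    refine lt_of_le_of_lt ?_ h1
    set M := maxBits d k with hM
    set κ := Nat.log 2 k with hκdef
    obtain ⟨hκ1, hκ2⟩ := hκ k (by omega)
    set x := Real.logb 2 k with hxdef
    have hup : M ≤ (κ + 1) + 3 * d * (2 * (κ + 1) + 1) ^ (d - 1) := by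
      have h6 : k ≤ 2 ^ (κ + 1) := (Nat.lt_pow_succ_log_self (by norm_num) k).le
      exact (hasColouring_lt (maxBits_mem (by omega)) h6).le.trans (lt_closed (by omega))
    have hupR : (M : ℝ) ≤ Cd * x ^ (d - 1) := by
      have h6 : (M : ℝ) ≤ ((κ : ℝ) + 1) + 3 * d * (2 * ((κ : ℝ) + 1) + 1) ^ (d - 1) := by
        exact_mod_cast hup
      have h7 : (2 * ((κ : ℝ) + 1) + 1) ^ (d - 1) ≤ (5 * x) ^ (d - 1) :=
        pow_le_pow_left₀ (by positivity) (by linarith) _
      have h8 : x ≤ x ^ (d - 1) := le_self_pow₀ (by linarith) (by omega)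
      calc (M : ℝ) ≤ ((κ : ℝ) + 1) + 3 * d * (2 * ((κ : ℝ) + 1) + 1) ^ (d - 1) := h6
        _ ≤ 2 * x ^ (d - 1) + 3 * d * (5 * x) ^ (d - 1) := by
            refine add_le_add (by linarith) (mul_le_mul_of_nonneg_left h7 (by positivity))
        _ = Cd * x ^ (d - 1) := by rw [hCd, mul_pow]; ring
    rw [div_le_iff₀ h5]
    have h9 : (((d : ℝ) - 1) + Real.log Cd * (Real.log x)⁻¹) * Real.log x =
        Real.log Cd + ((d : ℝ) - 1) * Real.log x := by
      field_simp
      ring
    rw [h9]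
    rcases Nat.eq_zero_or_pos M with h0 | h0
    · rw [h0, Nat.cast_zero, Real.log_zero]
      have hC1 : 0 ≤ Real.log Cd := Real.log_nonneg (by
        rw [hCd]
        have : (0 : ℝ) ≤ 3 * d * 5 ^ (d - 1) := by positivity
        linarith)
      have h10 : (0 : ℝ) ≤ ((d : ℝ) - 1) * Real.log x := by
        have : (2 : ℝ) ≤ d := by exact_mod_cast hd
        exact mul_nonneg (by linarith) h5.le
      linarith
    · have hMpos : (0 : ℝ) < M := by exact_mod_cast h0
      have h10 := Real.log_le_log hMpos hupR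
      rw [Real.log_mul hCdpos.ne' (by positivity), Real.log_pow, Nat.cast_sub (by omega)] at h10
      push_cast at h10
      exact h10

end Pool.Agent.X65.RamDeg
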