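import Mathlib

/-!
Counting integers with few binary digits 1.
-/

namespace Pool.Agent.X65.RamDeg

open Finset

/-- the number of binary digits 1 -/
def pc (n : ℕ) : ℕ := (Nat.digits 2 n).sum

theorem pc_even (n : ℕ) : pc (2 * n) = pc n := by
  rcases Nat.eq_zero_or_pos n with h | h
  · subst h; rfl
  · unfold pc
    rw [Nat.digits_def' (by norm_num) (by omega), List.sum_cons,
      Nat.mul_mod_right, Nat.mul_div_cancel_left _ (by norm_num), zero_add]

theorem pc_odd (n : ℕ) : pc (2 * n + 1) = pc n + 1 := by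
  unfold pc
  rw [Nat.digits_def' (by norm_num) (by omega), List.sum_cons,
    show (2 * n + 1) % 2 = 1 by omega, show (2 * n + 1) / 2 = n by omega, add_comm]

theorem pc_succ_le (n : ℕ) : pc (n + 1) ≤ pc n + 1 := by
  induction n using Nat.strong_induction_on with
  | _ n ih =>
    rcases Nat.even_or_odd' n with ⟨i, rfl | rfl⟩
    · rw [pc_odd, pc_even]
    · rw [show 2 * i + 1 + 1 = 2 * (i + 1) by ring, pc_even, pc_odd]
      have := ih i (by omega)
      omega

/-- the number of integers below `N` with fewer than `s` binary digits 1 -/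
def cnt (N s : ℕ) : ℕ := ((Finset.range N).filter (fun i => pc i < s)).card

theorem cnt_zero_right (N : ℕ) : cnt N 0 = 0 := by
  simp [cnt]

theorem cnt_zero_left (s : ℕ) : cnt 0 s = 0 := by
  simp [cnt]

theorem cnt_succ (N s : ℕ) : cnt (N + 1) s = cnt N s + if pc N < s then 1 else 0 := by
  unfold cnt
  rw [Finset.range_add_one, Finset.filter_insert]
  split_ifs with h
  · rw [Finset.card_insert_of_notMem (by simp)]
  · rw [add_zero]

theorem cnt_one (s : ℕ) : cnt 1 (s + 1) = 1 := by
  rw [show (1 : ℕ) = 0 + 1 from rfl, cnt_succ, cnt_zero_left]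
  simp [pc]

theorem cnt_rec (N s : ℕ) : cnt N (s + 1) = cnt ((N + 1) / 2) (s + 1) + cnt (N / 2) s := by
  induction N with
  | zero => simp [cnt_zero_left]
  | succ N ih =>
    rcases Nat.even_or_odd' N with ⟨i, rfl | rfl⟩
    · rw [show (2 * i + 1) / 2 = i by omega, show 2 * i / 2 = i by omega] at ih
      rw [show (2 * i + 1 + 1) / 2 = i + 1 by omega, show (2 * i + 1) / 2 = i by omega,
        cnt_succ, ih, cnt_succ i, pc_even]
      omega
    · rw [show (2 * i + 1 + 1) / 2 = i + 1 by omega, show (2 * i + 1) / 2 = i by omega] at ih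
      rw [show (2 * i + 1 + 1 + 1) / 2 = i + 1 by omega, show (2 * i + 1 + 1) / 2 = i + 1 by omega,
        cnt_succ, ih, cnt_succ i s, pc_odd]
      have : (pc i + 1 < s + 1) ↔ pc i < s := by omega
      rw [if_congr this rfl rfl]
      omega

theorem cnt_one_right (N : ℕ) : cnt (N + 1) 1 = 1 := by
  induction N using Nat.strong_induction_on with
  | _ N ih =>
    rcases Nat.eq_zero_or_pos N with h | h
    · subst h; exact cnt_one 0
    · rw [cnt_rec, cnt_zero_right, add_zero]
      have := ih ((N + 1 + 1) / 2 - 1) (by omega)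
      rw [show (N + 1 + 1) / 2 - 1 + 1 = (N + 1 + 1) / 2 by omega] at this
      exact this

theorem cnt_add_le (N : ℕ) : ∀ a b s : ℕ, a + b = N → b ≤ a →
    cnt (a + b) (s + 1) ≤ cnt a (s + 1) + cnt b s := by
  induction N using Nat.strong_induction_on with
  | _ N ih =>
    intro a b s hN hba
    rcases Nat.eq_zero_or_pos b with hb | hb
    · subst hb
      rw [add_zero]
      exact Nat.le_add_right _ _
    rcases Nat.eq_zero_or_pos s with hs | hs
    · subst hs
      obtain ⟨a', rfl⟩ : ∃ a', a = a' + 1 := ⟨a - 1, by omega⟩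
      rw [show a' + 1 + b = (a' + b) + 1 by ring, zero_add, cnt_one_right, cnt_one_right]
      omega
    obtain ⟨s', rfl⟩ : ∃ s', s = s' + 1 := ⟨s - 1, by omega⟩
    by_cases h2 : a = 1 ∧ b = 1
    · obtain ⟨rfl, rfl⟩ := h2
      rw [cnt_succ, cnt_one, cnt_one]
      split_ifs <;> omega
    have h1 := ih ((a + 1) / 2 + (b + 1) / 2) (by omega) ((a + 1) / 2) ((b + 1) / 2) (s' + 1) rfl
      (by omega)
    have h3 := ih (a / 2 + b / 2) (by omega) (a / 2) (b / 2) s' rfl (by omega)
    have e1 := cnt_rec a (s' + 1)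
    have e2 := cnt_rec b s'
    have e3 := cnt_rec (a + b) (s' + 1)
    by_cases hodd : a % 2 = 1 ∧ b % 2 = 1
    · obtain ⟨M, hM⟩ : ∃ M, (a + b) / 2 = M + 1 := ⟨(a + b) / 2 - 1, by omega⟩
      rw [show (a + 1) / 2 + (b + 1) / 2 = M + 1 + 1 by omega, cnt_succ] at h1
      rw [show a / 2 + b / 2 = M by omega] at h3
      rw [show (a + b + 1) / 2 = M + 1 by omega, hM, cnt_succ M (s' + 1)] at e3
      have h4 := pc_succ_le M
      split_ifs at h1 e3 <;> omega
    · rw [show (a + b + 1) / 2 = (a + 1) / 2 + (b + 1) / 2 by omega,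
        show (a + b) / 2 = a / 2 + b / 2 by omega] at e3
      omega

theorem cnt_pow (κ s : ℕ) : cnt (2 ^ κ) s = ∑ j ∈ Finset.range s, κ.choose j := by
  induction κ generalizing s with
  | zero =>
    rw [pow_zero]
    rcases s with _ | s
    · rw [cnt_zero_right]; rfl
    · rw [cnt_one, Finset.sum_range_succ']
      simp
  | succ κ ih =>
    rcases s with _ | s
    · rw [cnt_zero_right]; rfl
    · rw [cnt_rec, show (2 ^ (κ + 1) + 1) / 2 = 2 ^ κ by rw [pow_succ]; omega,
        show 2 ^ (κ + 1) / 2 = 2 ^ κ by rw [pow_succ]; omega, ih, ih,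
        Finset.sum_range_succ' (fun j => (κ + 1).choose j)]
      simp only [Nat.choose_succ_succ, Nat.choose_zero_right]
      rw [Finset.sum_add_distrib, Finset.sum_range_succ' (fun j => κ.choose j)]
      simp only [Nat.choose_zero_right]
      simp only [Nat.succ_eq_add_one]
      ring

end Pool.Agent.X65.RamDeg
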