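import Pool.Agent.X65.RamDeg.Sharp

/-!
Colourings of `r`-sets by polynomials of fixed degree: sharpness of the exponent.
-/

namespace Pool.Agent.X65.RamDeg

open MvPolynomial Finset

variable {E : Type} [DecidableEq E]

/-- the sum of a symmetric function over the pairs of a set -/
def pairSum (S : E → E → ZMod 2) (hS : ∀ x y, S x y = S y x) (A : Finset E) : ZMod 2 :=
  ∑ z ∈ A.sym2.filter (fun z => ¬ z.IsDiag), Sym2.lift ⟨S, hS⟩ z

theorem pairSum_insert (S : E → E → ZMod 2) (hS : ∀ x y, S x y = S y x) {a : E} {R : Finset E}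
    (ha : a ∉ R) : pairSum S hS (insert a R) = ∑ x ∈ R, S a x + pairSum S hS R := by
  classical
  unfold pairSum
  have h1 : (insert a R).sym2.filter (fun z => ¬ z.IsDiag) =
      R.image (fun x => s(a, x)) ∪ R.sym2.filter (fun z => ¬ z.IsDiag) := by
    ext z
    induction z using Sym2.ind with
    | _ x y =>
      simp only [Finset.mem_filter, Finset.mk_mem_sym2_iff, Finset.mem_insert, Sym2.mk_isDiag_iff,
        Finset.mem_union, Finset.mem_image, Sym2.eq_iff]
      constructor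
      · rintro ⟨⟨h1 | h1, h2 | h2⟩, h3⟩
        · exact absurd (h1.trans h2.symm) h3
        · exact Or.inl ⟨y, h2, Or.inl ⟨h1.symm, rfl⟩⟩
        · exact Or.inl ⟨x, h1, Or.inr ⟨h2.symm, rfl⟩⟩
        · exact Or.inr ⟨⟨h1, h2⟩, h3⟩
      · rintro (⟨w, hw, ⟨h1, h2⟩ | ⟨h1, h2⟩⟩ | ⟨⟨h1, h2⟩, h3⟩)
        · subst h1 h2
          exact ⟨⟨Or.inl rfl, Or.inr hw⟩, fun h => ha (h ▸ hw)⟩
        · subst h1 h2
          exact ⟨⟨Or.inr hw, Or.inl rfl⟩, fun h => ha (h ▸ hw)⟩
        · exact ⟨⟨Or.inr h1, Or.inr h2⟩, h3⟩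
  have h2 : Disjoint (R.image (fun x => s(a, x))) (R.sym2.filter (fun z => ¬ z.IsDiag)) := by
    rw [Finset.disjoint_left]
    intro z hz hz'
    obtain ⟨x, _, rfl⟩ := Finset.mem_image.1 hz
    rw [Finset.mem_filter, Finset.mk_mem_sym2_iff] at hz'
    exact ha hz'.1.1
  have h3 : Set.InjOn (fun x => s(a, x)) (R : Set E) := by
    intro x hx y hy hxy
    have hxy' := Sym2.eq_iff.1 hxy
    rcases hxy' with ⟨_, h⟩ | ⟨h4, h5⟩
    · exact h
    · exact h5.trans h4
  rw [h1, Finset.sum_union h2, Finset.sum_image h3]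
  rfl

theorem pairSum_image (S : E → E → ZMod 2) (hS : ∀ x y, S x y = S y x) {r : ℕ} (v : Fin r → E)
    (hv : Function.Injective v) : pairSum S hS (Finset.univ.image v) =
      ∑ p ∈ (Finset.univ : Finset (Fin r)).offDiag.filter (fun p => p.1 < p.2),
        S (v p.1) (v p.2) := by
  classical
  unfold pairSum
  have h1 : (Finset.univ.image v).sym2.filter (fun z => ¬ z.IsDiag) =
      ((Finset.univ : Finset (Fin r)).sym2.filter (fun z => ¬ z.IsDiag)).image (Sym2.map v) := by
    rw [Finset.sym2_image]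
    ext z
    simp only [Finset.mem_filter, Finset.mem_image]
    constructor
    · rintro ⟨⟨w, hw, rfl⟩, h2⟩
      refine ⟨w, ⟨hw, fun h3 => h2 ?_⟩, rfl⟩
      induction w using Sym2.ind with
      | _ x y =>
        rw [Sym2.mk_isDiag_iff] at h3
        rw [Sym2.map_mk, Sym2.mk_isDiag_iff, h3]
    · rintro ⟨w, ⟨hw, h3⟩, rfl⟩
      refine ⟨⟨w, hw, rfl⟩, fun h2 => h3 ?_⟩
      induction w using Sym2.ind with
      | _ x y =>
        rw [Sym2.map_mk, Sym2.mk_isDiag_iff] at h2
        rw [Sym2.mk_isDiag_iff]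
        exact hv h2
  rw [h1, Finset.sum_image (fun x _ y _ h => Sym2.map.injective hv h),
    Finset.sum_sym2_filter_not_isDiag]
  rfl

/-- if all `r`-sets have the same pair sum then the function is constant on half of the set -/
theorem exists_constant (S : E → E → ZMod 2) (hS : ∀ x y, S x y = S y x) {r : ℕ} (hr : 2 ≤ r)
    (A : Finset E) (hA : r + 2 ≤ A.card) (c : ZMod 2)
    (hc : ∀ R ⊆ A, R.card = r → pairSum S hS R = c) :
    ∃ (B : Finset E) (γ : ZMod 2), B ⊆ A ∧ A.card ≤ 2 * B.card + 1 ∧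
      ∀ a ∈ B, ∀ b ∈ B, a ≠ b → S a b = γ := by
  classical
  -- exchange of one element
  have hD : ∀ a ∈ A, ∀ b ∈ A, a ≠ b → ∀ x ∈ A, ∀ y ∈ A, x ≠ a → x ≠ b → y ≠ a → y ≠ b →
      S a x + S b x = S a y + S b y := by
    intro a ha b hb hab x hx y hy hxa hxb hya hyb
    obtain ⟨R, hR, hRc⟩ : ∃ R ⊆ A \ {a, b, x, y}, R.card = r - 2 := by
      refine Finset.exists_subset_card_eq ?_
      have h1 := Finset.le_card_sdiff ({a, b, x, y} : Finset E) A
      have h2 : ({a, b, x, y} : Finset E).card ≤ 4 := Finset.card_le_four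
      omega
    have hRA : R ⊆ A := hR.trans Finset.sdiff_subset
    have hnot : ∀ z ∈ ({a, b, x, y} : Finset E), z ∉ R := fun z hz hzR =>
      (Finset.mem_sdiff.1 (hR hzR)).2 hz
    have haR := hnot a (by simp)
    have hbR := hnot b (by simp)
    have key : ∀ z ∈ A, z ≠ a → z ≠ b → z ∉ R →
        S a z + S b z = ∑ w ∈ R, S a w + ∑ w ∈ R, S b w := by
      intro z hz hza hzb hzR
      have hcard : (insert z R).card = r - 1 := by
        rw [Finset.card_insert_of_notMem hzR, hRc]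
        omega
      have ha' : a ∉ insert z R := by
        rw [Finset.mem_insert, not_or]
        exact ⟨fun h => hza h.symm, haR⟩
      have hb' : b ∉ insert z R := by
        rw [Finset.mem_insert, not_or]
        exact ⟨fun h => hzb h.symm, hbR⟩
      have h1 := hc (insert a (insert z R)) (by
        intro w hw
        rw [Finset.mem_insert, Finset.mem_insert] at hw
        rcases hw with rfl | rfl | hw
        · exact ha
        · exact hz
        · exact hRA hw) (by rw [Finset.card_insert_of_notMem ha', hcard]; omega)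
      have h2 := hc (insert b (insert z R)) (by
        intro w hw
        rw [Finset.mem_insert, Finset.mem_insert] at hw
        rcases hw with rfl | rfl | hw
        · exact hb
        · exact hz
        · exact hRA hw) (by rw [Finset.card_insert_of_notMem hb', hcard]; omega)
      rw [pairSum_insert S hS ha', Finset.sum_insert hzR] at h1
      rw [pairSum_insert S hS hb', Finset.sum_insert hzR] at h2
      have h3 := h1.trans h2.symm
      have h4 := add_right_cancel h3
      -- S a z + Σ S a = S b z + Σ S b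
      have h5 : S a z + S b z + (∑ w ∈ R, S a w + ∑ w ∈ R, S b w) = 0 := by
        calc S a z + S b z + (∑ w ∈ R, S a w + ∑ w ∈ R, S b w) =
            (S a z + ∑ w ∈ R, S a w) + (S b z + ∑ w ∈ R, S b w) := by ring
          _ = (S b z + ∑ w ∈ R, S b w) + (S b z + ∑ w ∈ R, S b w) := by rw [h4]
          _ = 0 := CharTwo.add_self_eq_zero _
      exact CharTwo.add_eq_zero.1 h5
    rw [key x hx hxa hxb (hnot x (by simp)), key y hy hya hyb (hnot y (by simp))]
  obtain ⟨a0, ha0⟩ : A.Nonempty := Finset.card_pos.1 (by omega)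
  have hT : ∀ a ∈ A, ∀ c ∈ A, ∀ c' ∈ A, a ≠ a0 → c ≠ a0 → c' ≠ a0 → c ≠ a → c' ≠ a →
      S a c + S a0 a + S a0 c = S a c' + S a0 a + S a0 c' := by
    intro a ha c hc c' hc' h1 h2 h3 h4 h5
    have h6 := hD a ha a0 ha0 h1 c hc c' hc' h4 h2 h5 h3
    calc S a c + S a0 a + S a0 c = (S a c + S a0 c) + S a0 a := by ring
      _ = (S a c' + S a0 c') + S a0 a := by rw [h6]
      _ = _ := by ring
  have hTsymm : ∀ a c, S a c + S a0 a + S a0 c = S c a + S a0 c + S a0 a := by
    intro a c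
    rw [hS a c]
    ring
  obtain ⟨a1, ha1, a2, ha2, h12⟩ : ∃ a1 ∈ A.erase a0, ∃ a2 ∈ A.erase a0, a1 ≠ a2 :=
    Finset.one_lt_card.1 (by rw [Finset.card_erase_of_mem ha0]; omega)
  obtain ⟨ha1n, ha1A⟩ := Finset.mem_erase.1 ha1
  obtain ⟨ha2n, ha2A⟩ := Finset.mem_erase.1 ha2
  set γ := S a1 a2 + S a0 a1 + S a0 a2 with hγ
  have hall : ∀ a ∈ A, ∀ c ∈ A, a ≠ a0 → c ≠ a0 → a ≠ c →
      S a c + S a0 a + S a0 c = γ := by
    intro a ha c hc h1 h2 h3
    by_cases h4 : a = a1
    · subst h4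
      exact hT a ha c hc a2 ha2A h1 h2 ha2n (Ne.symm h3) (Ne.symm h12)
    · -- move to the pair (a, a1), then to (a1, a2)
      have e1 : S a c + S a0 a + S a0 c = S a a1 + S a0 a + S a0 a1 :=
        hT a ha c hc a1 ha1A h1 h2 ha1n (Ne.symm h3) (Ne.symm h4)
      rw [e1, hTsymm a a1]
      exact hT a1 ha1A a ha a2 ha2A ha1n h1 ha2n h4 (Ne.symm h12)
  set B0 := (A.erase a0).filter (fun a => S a0 a = 0) with hB0
  have hB0sub : B0 ⊆ A.erase a0 := Finset.filter_subset _ _
  set B1 := (A.erase a0) \ B0 with hB1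
  have hsum : B1.card + B0.card = (A.erase a0).card := Finset.card_sdiff_add_card_eq_card hB0sub
  rw [Finset.card_erase_of_mem ha0] at hsum
  have hconst : ∀ B ⊆ A.erase a0, ∀ β : ZMod 2, (∀ a ∈ B, S a0 a = β) →
      ∀ a ∈ B, ∀ b ∈ B, a ≠ b → S a b = γ := by
    intro B hB β hβ a ha b hb hab
    obtain ⟨h1, h2⟩ := Finset.mem_erase.1 (hB ha)
    obtain ⟨h3, h4⟩ := Finset.mem_erase.1 (hB hb)
    have h5 := hall a h2 b h4 h1 h3 hab
    rw [hβ a ha, hβ b hb, add_assoc, CharTwo.add_self_eq_zero, add_zero] at h5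
    exact h5
  by_cases hle : B1.card ≤ B0.card
  · refine ⟨B0, γ, (Finset.filter_subset _ _).trans (Finset.erase_subset _ _), by omega, ?_⟩
    exact hconst B0 (Finset.filter_subset _ _) 0 (fun a ha => (Finset.mem_filter.1 ha).2)
  · refine ⟨B1, γ, Finset.sdiff_subset.trans (Finset.erase_subset _ _), by omega, ?_⟩
    refine hconst B1 Finset.sdiff_subset 1 (fun a ha => (zmod2_cases _).resolve_left fun h => ?_)
    have ha' := Finset.mem_sdiff.1 ha
    exact ha'.2 (Finset.mem_filter.2 ⟨ha'.1, h⟩)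

/-- **Theorem.** Colourings of the `r`-sets of points of `F_2^m`, `m` about `(log n)^t`, of degree
`t + 1` without homogeneous set of `n` points. -/
theorem exists_sharp_sets (r t q : ℕ) (hr : 2 ≤ r) (ht : 1 ≤ t) (hq : 1 ≤ q) :
    ∃ κ₀ : ℕ, ∀ κ ≥ κ₀, ∀ m : ℕ, 1 ≤ m → m ^ q ≤ κ ^ (t * q - 1) →
    ∃ (c : Finset (Fin m → ZMod 2) → ZMod 2) (P : MvPolynomial (Fin r × Fin m) (ZMod 2)),
      P.totalDegree ≤ t + 1 ∧
      (∀ v : Fin r → (Fin m → ZMod 2), Function.Injective v →
        c (Finset.univ.image v) = eval (fun a => v a.1 a.2) P) ∧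
      ∀ A : Finset (Fin m → ZMod 2), A.card = 2 ^ (κ + 2) →
        ∃ R ⊆ A, ∃ R' ⊆ A, R.card = r ∧ R'.card = r ∧ c R ≠ c R' := by
  classical
  obtain ⟨κ₀, hκ₀⟩ := exists_sharp t q ht hq
  refine ⟨max κ₀ r, fun κ hκ m hm hmq => ?_⟩
  obtain ⟨G, P, hP, hadj, hG1, hG2⟩ := hκ₀ κ ((le_max_left _ _).trans hκ) m hm hmq
  have hrκ : r ≤ κ := (le_max_right _ _).trans hκ
  let S : (Fin m → ZMod 2) → (Fin m → ZMod 2) → ZMod 2 := fun x y => eval (Sum.elim x y) P
  have hS : ∀ x y, S x y = S y x := by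
    intro x y
    rcases zmod2_cases (S x y) with h | h
    · rcases zmod2_cases (S y x) with h' | h'
      · rw [h, h']
      · have h1 := ((hadj x y).1 ((hadj y x).2 h').symm)
        exact absurd (h.symm.trans h1) zero_ne_one
    · exact h.trans ((hadj y x).1 ((hadj x y).2 h).symm).symm
  let ι : Fin r × Fin r → (Fin m ⊕ Fin m) → Fin r × Fin m := fun p =>
    Sum.elim (fun l => (p.1, l)) (fun l => (p.2, l))
  refine ⟨pairSum S hS, ∑ p ∈ (Finset.univ : Finset (Fin r)).offDiag.filter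
    (fun p => p.1 < p.2), rename (ι p) P, ?_, ?_, ?_⟩
  · exact (totalDegree_finsetSum _ _).trans (Finset.sup_le fun p _ =>
      (totalDegree_rename_le _ _).trans hP)
  · intro v hv
    rw [pairSum_image S hS v hv, map_sum]
    refine Finset.sum_congr rfl fun p _ => ?_
    rw [eval_rename]
    have : (fun a : Fin r × Fin m => v a.1 a.2) ∘ ι p = Sum.elim (v p.1) (v p.2) := by
      funext s
      cases s <;> rfl
    rw [this]
  · intro A hA
    by_contra hcon
    push Not at hcon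
    have hκ2 : κ < 2 ^ κ := Nat.lt_two_pow_self
    have hpow : 2 ^ (κ + 2) = 4 * 2 ^ κ := by rw [pow_add]; ring
    obtain ⟨R0, hR0, hR0c⟩ := Finset.exists_subset_card_eq (s := A) (n := r) (by omega)
    obtain ⟨B, γ, hBA, hBc, hB⟩ := exists_constant S hS hr A (by omega) (pairSum S hS R0)
      (fun R hR hRc => (hcon R hR R0 hR0 hRc hR0c))
    obtain ⟨B', hB'B, hB'c⟩ := Finset.exists_subset_card_eq (s := B) (n := 2 ^ κ) (by omega)
    rcases zmod2_cases γ with h0 | h0
    · refine hG2 B' ⟨?_, hB'c⟩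
      intro a ha b hb hab
      rw [SimpleGraph.compl_adj]
      refine ⟨hab, fun hadj' => ?_⟩
      have h1 := hB a (hB'B (Finset.mem_coe.1 ha)) b (hB'B (Finset.mem_coe.1 hb)) hab
      have h2 := (hadj a b).1 hadj'
      rw [h0] at h1
      exact zero_ne_one (h1.symm.trans h2)
    · refine hG1 B' ⟨?_, hB'c⟩
      intro a ha b hb hab
      have h1 := hB a (hB'B (Finset.mem_coe.1 ha)) b (hB'B (Finset.mem_coe.1 hb)) hab
      exact (hadj a b).2 (h1.trans h0)

end Pool.Agent.X65.RamDeg
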