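import Pool.Agent.X65.RamDeg.Pop
import Pool.Agent.X65.RamDeg.Count

/-!
Polynomials of degree at most `t` on a set of `2^κ` points form a space of dimension at least
`∑_{j ≤ t} C(κ, j)`.
-/

namespace Pool.Agent.X65.RamDeg

open MvPolynomial Finset

/-- the restrictions to `A` of the functions computed by polynomials of degree at most `t` -/
def restr (m t : ℕ) (A : Finset (Fin m → ZMod 2)) : Set (A → ZMod 2) :=
  {g | ∃ P : MvPolynomial (Fin m) (ZMod 2), P.totalDegree ≤ t ∧ ∀ x : A, eval x.1 P = g x}

theorem two_le_restr {m : ℕ} (t : ℕ) {A : Finset (Fin m → ZMod 2)} (hA : A.Nonempty) :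
    2 ≤ Nat.card (restr m t A) := by
  obtain ⟨a, ha⟩ := hA
  have : Finite (restr m t A) := Set.toFinite _
  let c : ZMod 2 → restr m t A := fun z => ⟨fun _ => z, C z, by simp, fun x => by simp⟩
  have hc : Function.Injective c := by
    intro z z' h
    have := congrArg (fun g => g.1 ⟨a, ha⟩) h
    exact this
  have := Nat.card_le_card_of_injective c hc
  rwa [Nat.card_eq_fintype_card, ZMod.card] at this

theorem one_le_restr {m : ℕ} (t : ℕ) (A : Finset (Fin m → ZMod 2)) :
    1 ≤ Nat.card (restr m t A) := by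
  have : Finite (restr m t A) := Set.toFinite _
  have : Nonempty (restr m t A) := ⟨⟨fun _ => 0, 0, by simp, fun x => by simp⟩⟩
  exact Nat.card_pos

theorem restr_mul_le {m t : ℕ} (A : Finset (Fin (m + 1) → ZMod 2))
    (U I : Finset (Fin m → ZMod 2))
    (hU : ∀ x ∈ U, (Fin.cons 0 x : Fin (m + 1) → ZMod 2) ∈ A ∨
      (Fin.cons 1 x : Fin (m + 1) → ZMod 2) ∈ A)
    (hI : ∀ x ∈ I, (Fin.cons 0 x : Fin (m + 1) → ZMod 2) ∈ A ∧
      (Fin.cons 1 x : Fin (m + 1) → ZMod 2) ∈ A) :
    Nat.card (restr m (t + 1) U) * Nat.card (restr m t I) ≤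
      Nat.card (restr (m + 1) (t + 1) A) := by
  classical
  have : Finite (restr (m + 1) (t + 1) A) := Set.toFinite _
  choose P hP hPe using fun g : restr m (t + 1) U => g.2
  choose Q hQ hQe using fun g : restr m t I => g.2
  let F : restr m (t + 1) U × restr m t I → restr (m + 1) (t + 1) A := fun p =>
    ⟨fun x => eval (Fin.tail x.1) (P p.1) + x.1 0 * eval (Fin.tail x.1) (Q p.2),
      rename Fin.succ (P p.1) + X 0 * rename Fin.succ (Q p.2), by
        refine (totalDegree_add _ _).trans (max_le ?_ ?_)
        · exact (totalDegree_rename_le _ _).trans (hP p.1)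
        · refine (totalDegree_mul _ _).trans ?_
          have := (totalDegree_rename_le (Fin.succ : Fin m → Fin (m + 1)) (Q p.2)).trans (hQ p.2)
          rw [totalDegree_X]
          omega, fun x => by
        rw [map_add, map_mul, eval_rename, eval_rename, eval_X]
        rfl⟩
  have hF : Function.Injective F := by
    rintro ⟨g, h⟩ ⟨g', h'⟩ heq
    have h1 : ∀ x : A, eval (Fin.tail x.1) (P g) + x.1 0 * eval (Fin.tail x.1) (Q h) =
        eval (Fin.tail x.1) (P g') + x.1 0 * eval (Fin.tail x.1) (Q h') := by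
      intro x
      exact congrFun (congrArg Subtype.val heq) x
    have hh : h = h' := by
      apply Subtype.ext
      funext x
      rw [← hQe h x, ← hQe h' x]
      obtain ⟨hx0, hx1⟩ := hI x.1 x.2
      have e0 := h1 ⟨_, hx0⟩
      have e1 := h1 ⟨_, hx1⟩
      simp only [Fin.tail_cons, Fin.cons_zero, zero_mul, add_zero, one_mul] at e0 e1
      rw [e0] at e1
      exact add_left_cancel e1
    subst hh
    have hg : g = g' := by
      apply Subtype.ext
      funext x
      rw [← hPe g x, ← hPe g' x]
      rcases hU x.1 x.2 with hx | hx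
      · have e0 := h1 ⟨_, hx⟩
        simp only [Fin.tail_cons, Fin.cons_zero] at e0
        exact add_right_cancel e0
      · have e0 := h1 ⟨_, hx⟩
        simp only [Fin.tail_cons, Fin.cons_zero] at e0
        exact add_right_cancel e0
    rw [hg]
  have h2 := Nat.card_le_card_of_injective F hF
  rwa [Nat.card_prod] at h2

theorem card_slices {m : ℕ} (A : Finset (Fin (m + 1) → ZMod 2)) :
    (Finset.univ.filter (fun x : Fin m → ZMod 2 =>
      (Fin.cons 0 x : Fin (m + 1) → ZMod 2) ∈ A ∨ (Fin.cons 1 x : Fin (m + 1) → ZMod 2) ∈ A)).card +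
    (Finset.univ.filter (fun x : Fin m → ZMod 2 =>
      (Fin.cons 0 x : Fin (m + 1) → ZMod 2) ∈ A ∧ (Fin.cons 1 x : Fin (m + 1) → ZMod 2) ∈ A)).card =
      A.card := by
  classical
  have h0 : ∀ c : ZMod 2, (Finset.univ.filter (fun x : Fin m → ZMod 2 =>
      (Fin.cons c x : Fin (m + 1) → ZMod 2) ∈ A)).card = (A.filter (fun y => y 0 = c)).card := by
    intro c
    refine Finset.card_nbij' (fun x => (Fin.cons c x : Fin (m + 1) → ZMod 2)) (fun y => Fin.tail y)
      ?_ ?_ ?_ ?_
    · intro x hx
      rw [Finset.mem_coe, Finset.mem_filter] at hx ⊢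
      exact ⟨hx.2, Fin.cons_zero _ _⟩
    · intro y hy
      rw [Finset.mem_coe, Finset.mem_filter] at hy ⊢
      refine ⟨Finset.mem_univ _, ?_⟩
      rw [← hy.2, Fin.cons_self_tail]
      exact hy.1
    · intro x _
      exact Fin.tail_cons _ _
    · intro y hy
      rw [Finset.mem_coe, Finset.mem_filter] at hy
      show (Fin.cons c (Fin.tail y) : Fin (m + 1) → ZMod 2) = y
      rw [← hy.2, Fin.cons_self_tail]
  rw [Finset.filter_or, Finset.filter_and, Finset.card_union_add_card_inter, h0, h0]
  have h1 := Finset.card_filter_add_card_filter_not (s := A) (fun y => y 0 = 0)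
  rw [← h1]
  congr 2
  ext y
  simp only [Finset.mem_filter, and_congr_right_iff]
  intro _
  rcases zmod2_cases (y 0) with h | h
  · rw [h]; decide
  · rw [h]; decide

theorem pow_cnt_le_restr (m : ℕ) : ∀ (t : ℕ) (A : Finset (Fin m → ZMod 2)),
    2 ^ cnt A.card (t + 1) ≤ Nat.card (restr m t A) := by
  classical
  induction m with
  | zero =>
    intro t A
    rcases A.eq_empty_or_nonempty with h | h
    · subst h
      rw [Finset.card_empty, cnt_zero_left, pow_zero]
      exact one_le_restr t _
    · have h1 : A.card = 1 := by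
        refine le_antisymm ?_ h.card_pos
        exact Finset.card_le_one.2 fun a _ b _ => Subsingleton.elim a b
      rw [h1, cnt_one, pow_one]
      exact two_le_restr t h
  | succ m ih =>
    intro t A
    rcases t with _ | t
    · rcases A.eq_empty_or_nonempty with h | h
      · subst h
        rw [Finset.card_empty, cnt_zero_left, pow_zero]
        exact one_le_restr _ _
      · obtain ⟨c, hc⟩ : ∃ c, A.card = c + 1 := ⟨A.card - 1, by have := h.card_pos; omega⟩
        rw [hc, zero_add, cnt_one_right, pow_one]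
        exact two_le_restr _ h
    · have hsl := card_slices A
      set U := Finset.univ.filter (fun x : Fin m → ZMod 2 =>
        (Fin.cons 0 x : Fin (m + 1) → ZMod 2) ∈ A ∨ (Fin.cons 1 x : Fin (m + 1) → ZMod 2) ∈ A)
        with hU
      set I := Finset.univ.filter (fun x : Fin m → ZMod 2 =>
        (Fin.cons 0 x : Fin (m + 1) → ZMod 2) ∈ A ∧ (Fin.cons 1 x : Fin (m + 1) → ZMod 2) ∈ A)
        with hI
      have hIU : I.card ≤ U.card := by
        refine Finset.card_le_card ?_
        intro x hx
        rw [hI, Finset.mem_filter] at hx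
        rw [hU, Finset.mem_filter]
        exact ⟨hx.1, Or.inl hx.2.1⟩
      have h1 := restr_mul_le (t := t) A U I
        (fun x hx => by rw [hU, Finset.mem_filter] at hx; exact hx.2)
        (fun x hx => by rw [hI, Finset.mem_filter] at hx; exact hx.2)
      refine le_trans ?_ h1
      calc 2 ^ cnt A.card (t + 1 + 1) ≤ 2 ^ (cnt U.card (t + 1 + 1) + cnt I.card (t + 1)) := by
            refine Nat.pow_le_pow_right (by norm_num) ?_
            rw [← hsl]
            exact cnt_add_le _ _ _ _ rfl hIU
        _ = 2 ^ cnt U.card (t + 1 + 1) * 2 ^ cnt I.card (t + 1) := pow_add _ _ _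
        _ ≤ _ := Nat.mul_le_mul (ih (t + 1) U) (ih t I)

/-- polynomials of degree at most `t` separate each point of `B` from the others -/
def Separated {m : ℕ} (t : ℕ) (B : Finset (Fin m → ZMod 2)) : Prop :=
  ∀ p ∈ B, ∃ f : MvPolynomial (Fin m) (ZMod 2), f.totalDegree ≤ t ∧ eval p f = 1 ∧
    ∀ q ∈ B, q ≠ p → eval q f = 0

theorem Separated.mono {m t : ℕ} {B C : Finset (Fin m → ZMod 2)} (h : Separated t B)
    (hCB : C ⊆ B) : Separated t C := by
  intro p hp
  obtain ⟨f, h1, h2, h3⟩ := h p (hCB hp)
  exact ⟨f, h1, h2, fun q hq hqp => h3 q (hCB hq) hqp⟩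

theorem exists_separated {m : ℕ} (t : ℕ) (A : Finset (Fin m → ZMod 2)) :
    ∃ B ⊆ A, Separated t B ∧ cnt A.card (t + 1) ≤ B.card := by
  classical
  have hne : (A.powerset.filter (fun B => Separated t B)).Nonempty :=
    ⟨∅, Finset.mem_filter.2 ⟨Finset.empty_mem_powerset _, by
      intro p hp
      exact absurd hp (Finset.notMem_empty _)⟩⟩
  obtain ⟨B, hB, hmax⟩ := Finset.exists_max_image _ (fun B => B.card) hne
  rw [Finset.mem_filter, Finset.mem_powerset] at hB
  obtain ⟨hBA, hBs⟩ := hB
  refine ⟨B, hBA, hBs, ?_⟩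
  have hdet : ∀ f : MvPolynomial (Fin m) (ZMod 2), f.totalDegree ≤ t →
      (∀ q ∈ B, eval q f = 0) → ∀ a ∈ A, eval a f = 0 := by
    intro f hf hfB a ha
    by_contra hne
    have hf1 := (zmod2_cases (eval a f)).resolve_left hne
    have haB : a ∉ B := fun h => hne (hfB a h)
    have h1 : Separated t (insert a B) := by
      intro p hp
      rw [Finset.mem_insert] at hp
      rcases hp with rfl | hp
      · refine ⟨f, hf, hf1, ?_⟩
        intro q hq hqp
        exact hfB q ((Finset.mem_insert.1 hq).resolve_left hqp)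
      · obtain ⟨g, hg1, hg2, hg3⟩ := hBs p hp
        refine ⟨g + C (eval a g) * f, ?_, ?_, ?_⟩
        · refine (totalDegree_add _ _).trans (max_le hg1 ?_)
          refine (totalDegree_mul _ _).trans ?_
          rw [totalDegree_C, zero_add]
          exact hf
        · rw [map_add, map_mul, hg2, hfB p hp, mul_zero, add_zero]
        · intro q hq hqp
          rw [Finset.mem_insert] at hq
          rcases hq with rfl | hq
          · rw [map_add, map_mul, eval_C, hf1, mul_one]
            exact CharTwo.add_self_eq_zero _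
          · rw [map_add, map_mul, hfB q hq, mul_zero, add_zero]
            exact hg3 q hq hqp
    have h2 := hmax (insert a B) (Finset.mem_filter.2 ⟨Finset.mem_powerset.2
      (Finset.insert_subset ha hBA), h1⟩)
    rw [Finset.card_insert_of_notMem haB] at h2
    omega
  have h3 : Nat.card (restr m t A) ≤ 2 ^ B.card := by
    let R : restr m t A → (B → ZMod 2) := fun g b => g.1 ⟨b.1, hBA b.2⟩
    have hR : Function.Injective R := by
      rintro ⟨g, P, hP, hPe⟩ ⟨g', P', hP', hPe'⟩ h
      apply Subtype.ext
      funext x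
      show g x = g' x
      rw [← hPe, ← hPe']
      have h4 := hdet (P - P') ((totalDegree_sub _ _).trans (max_le hP hP')) (by
        intro q hq
        rw [map_sub, sub_eq_zero]
        have h5 := congrFun h ⟨q, hq⟩
        have h6 := hPe ⟨q, hBA hq⟩
        have h7 := hPe' ⟨q, hBA hq⟩
        simp only at h6 h7
        rw [h6, h7]
        exact h5) x.1 x.2
      rw [map_sub, sub_eq_zero] at h4
      exact h4
    have h4 := Nat.card_le_card_of_injective R hR
    rwa [Nat.card_eq_fintype_card (α := B → ZMod 2), Fintype.card_fun, ZMod.card,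
      Fintype.card_coe] at h4
  have h5 := (pow_cnt_le_restr m t A).trans h3
  exact (Nat.pow_le_pow_iff_right (by norm_num)).1 h5

/-- **Lemma.** Every set of `2^κ` points contains `∑_{j ≤ t} C(κ, j)` points separated by
polynomials of degree at most `t`. -/
theorem exists_separated_card {m : ℕ} (t κ : ℕ) (A : Finset (Fin m → ZMod 2))
    (hA : A.card = 2 ^ κ) :
    ∃ B ⊆ A, Separated t B ∧ B.card = ∑ j ∈ Finset.range (t + 1), κ.choose j := by
  obtain ⟨B, h1, h2, h3⟩ := exists_separated t A
  rw [hA, cnt_pow] at h3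
  obtain ⟨C, hC, hCc⟩ := Finset.exists_subset_card_eq h3
  exact ⟨C, hC.trans h1, h2.mono hC, hCc⟩

end Pool.Agent.X65.RamDeg
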