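import Pool.Agent.X65.RamDeg.Spread

/-!
Choice of a scale, and counting of separated sequences.
-/

namespace Pool.Agent.X65.RamDeg

open MvPolynomial Finset

variable {m : ℕ}

/-- Every large set contains a large subset whose large subsets span nearly as much. -/
theorem exists_scale (A : Finset (Fin m → ZMod 2)) (κ h J ρ : ℕ) (hA : 2 ^ κ ≤ A.card)
    (hJ1 : 1 ≤ J) (hJ : h * J < κ) (hρ : m ≤ ρ ^ J) :
    ∃ (Y : Finset (Fin m → ZMod 2)) (e lam : ℕ), Y ⊆ A ∧ 2 ^ (e + h) ≤ Y.card ∧
      κ - h * J ≤ e ∧ dimSpan Y ≤ ρ * lam ∧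
      ∀ Y' ⊆ Y, 2 ^ e ≤ Y'.card → lam ≤ dimSpan Y' := by
  classical
  have hex : ∀ j : ℕ, ∃ Y : Finset (Fin m → ZMod 2), Y ⊆ A ∧ 2 ^ (κ - h * j) ≤ Y.card ∧
      ∀ Y' ⊆ A, 2 ^ (κ - h * j) ≤ Y'.card → dimSpan Y ≤ dimSpan Y' := by
    intro j
    have hne : (A.powerset.filter (fun Y => 2 ^ (κ - h * j) ≤ Y.card)).Nonempty :=
      ⟨A, Finset.mem_filter.2 ⟨Finset.mem_powerset_self A,
        (Nat.pow_le_pow_right (by norm_num) (Nat.sub_le _ _)).trans hA⟩⟩
    obtain ⟨Y, hY, hmin⟩ := Finset.exists_min_image _ (fun Y => dimSpan Y) hne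
    rw [Finset.mem_filter, Finset.mem_powerset] at hY
    refine ⟨Y, hY.1, hY.2, fun Y' h1 h2 => hmin Y' ?_⟩
    rw [Finset.mem_filter, Finset.mem_powerset]
    exact ⟨h1, h2⟩
  choose Y hYA hYc hYm using hex
  by_contra hcon
  push Not at hcon
  have hstep : ∀ j < J, ρ * dimSpan (Y (j + 1)) < dimSpan (Y j) := by
    intro j hj
    by_contra hle
    rw [not_lt] at hle
    have hmul : h * (j + 1) ≤ h * J := Nat.mul_le_mul_left _ hj
    have hmul' : h * (j + 1) = h * j + h := by ring
    obtain ⟨Y', h1, h2, h3⟩ := hcon (Y j) (κ - h * (j + 1)) (dimSpan (Y (j + 1))) (hYA j)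
      (by rw [show κ - h * (j + 1) + h = κ - h * j by omega]; exact hYc j) (by omega) hle
    exact absurd (hYm (j + 1) Y' (h1.trans (hYA j)) h2) (not_le.2 h3)
  have hiter : ∀ i, 1 ≤ i → i ≤ J → ρ ^ i * dimSpan (Y i) < dimSpan (Y 0) := by
    intro i hi
    induction i, hi using Nat.le_induction with
    | base =>
      intro hi
      rw [pow_one]
      exact hstep 0 (by omega)
    | succ i hi ih =>
      intro hi'
      calc ρ ^ (i + 1) * dimSpan (Y (i + 1)) = ρ ^ i * (ρ * dimSpan (Y (i + 1))) := by ring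
        _ ≤ ρ ^ i * dimSpan (Y i) := Nat.mul_le_mul_left _ (hstep i (by omega)).le
        _ < _ := ih (by omega)
  have h1 := hiter J hJ1 le_rfl
  have h2 : 1 ≤ dimSpan (Y J) := by
    refine one_le_dimSpan (le_trans ?_ (hYc J))
    calc 2 = 2 ^ 1 := rfl
      _ ≤ _ := Nat.pow_le_pow_right (by norm_num) (by omega)
  have h3 := dimSpan_le (Y 0)
  have h4 : ρ ^ J ≤ ρ ^ J * dimSpan (Y J) := Nat.le_mul_of_pos_right _ h2
  omega

/-- each point of the sequence is separated from the others by a polynomial of degree `≤ t` -/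
def SepSeq (t : ℕ) {s : ℕ} (b : Fin s → (Fin m → ZMod 2)) : Prop :=
  ∀ i, ∃ f : MvPolynomial (Fin m) (ZMod 2), f.totalDegree ≤ t ∧ eval (b i) f = 1 ∧
    ∀ j, j ≠ i → eval (b j) f = 0

theorem sepSeq_snoc {t s : ℕ} {b : Fin s → (Fin m → ZMod 2)} (hb : SepSeq t b)
    (y : Fin m → ZMod 2) (f : MvPolynomial (Fin m) (ZMod 2)) (hf : f.totalDegree ≤ t)
    (hfy : eval y f = 1) (hfb : ∀ j, eval (b j) f = 0) :
    SepSeq t (Fin.snoc (α := fun _ => Fin m → ZMod 2) b y) := by
  intro i
  refine Fin.lastCases ?_ (fun i => ?_) i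
  · refine ⟨f, hf, by rw [Fin.snoc_last]; exact hfy, fun j => ?_⟩
    refine Fin.lastCases (fun h => absurd rfl h) (fun j _ => ?_) j
    rw [Fin.snoc_castSucc]
    exact hfb j
  · obtain ⟨g, hg1, hg2, hg3⟩ := hb i
    refine ⟨g + C (eval y g) * f, ?_, ?_, fun j => ?_⟩
    · refine (totalDegree_add _ _).trans (max_le hg1 ?_)
      refine (totalDegree_mul _ _).trans ?_
      rw [totalDegree_C, zero_add]
      exact hf
    · rw [Fin.snoc_castSucc, map_add, map_mul, hg2, hfb, mul_zero, add_zero]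
    · refine Fin.lastCases (fun _ => ?_) (fun j hj => ?_) j
      · rw [Fin.snoc_last, map_add, map_mul, eval_C, hfy, mul_one]
        exact CharTwo.add_self_eq_zero _
      · rw [Fin.snoc_castSucc, map_add, map_mul, hfb, mul_zero, add_zero]
        exact hg3 j (fun h => hj (by rw [h]))

open Classical in
theorem half_extend {t s i : ℕ} (Y1 : Finset (Fin m → ZMod 2))
    (hprop : ∀ Y' ⊆ Y1, Y1.card ≤ 2 * Y'.card → 2 ^ s ≤ Nat.card (restr m t Y'))
    (hi : i < s) (b : Fin i → (Fin m → ZMod 2)) (hb : SepSeq t b) :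
    Y1.card ≤ 2 * (Y1.filter (fun y =>
      SepSeq t (Fin.snoc (α := fun _ => Fin m → ZMod 2) b y))).card := by
  by_contra hlt
  rw [not_le] at hlt
  set Y' := Y1 \ Y1.filter (fun y =>
    SepSeq t (Fin.snoc (α := fun _ => Fin m → ZMod 2) b y)) with hY'
  have hsum := Finset.card_sdiff_add_card_eq_card (Finset.filter_subset (fun y =>
    SepSeq t (Fin.snoc (α := fun _ => Fin m → ZMod 2) b y)) Y1)
  rw [← hY'] at hsum
  have h1 := hprop Y' Finset.sdiff_subset (by omega)
  have h2 : Nat.card (restr m t Y') ≤ 2 ^ i := by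
    choose P hP hPe using fun g : restr m t Y' => g.2
    let R : restr m t Y' → (Fin i → ZMod 2) := fun g j => eval (b j) (P g)
    have hR : Function.Injective R := by
      intro g g' h
      apply Subtype.ext
      funext x
      rw [← hPe g x, ← hPe g' x]
      by_contra hne
      have h3 : eval x.1 (P g - P g') ≠ 0 := by
        rw [map_sub]
        exact sub_ne_zero.2 hne
      have h4 := (zmod2_cases _).resolve_left h3
      have hx := Finset.mem_sdiff.1 x.2
      apply hx.2
      refine Finset.mem_filter.2 ⟨hx.1, ?_⟩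
      refine sepSeq_snoc hb x.1 (P g - P g')
        ((totalDegree_sub _ _).trans (max_le (hP g) (hP g'))) h4 (fun j => ?_)
      rw [map_sub, sub_eq_zero]
      exact congrFun h j
    have h4 := Nat.card_le_card_of_injective R hR
    rwa [Nat.card_eq_fintype_card (α := Fin i → ZMod 2), Fintype.card_fun, ZMod.card,
      Fintype.card_fin] at h4
  have h3 := (Nat.pow_le_pow_iff_right (by norm_num : 1 < 2)).1 (h1.trans h2)
  omega

open Classical in
theorem count_sep {t s : ℕ} (Y1 : Finset (Fin m → ZMod 2))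
    (hprop : ∀ Y' ⊆ Y1, Y1.card ≤ 2 * Y'.card → 2 ^ s ≤ Nat.card (restr m t Y')) :
    ∀ i ≤ s, Y1.card ^ i ≤ 2 ^ i * (Finset.univ.filter
      (fun b : Fin i → (Fin m → ZMod 2) => (∀ l, b l ∈ Y1) ∧ SepSeq t b)).card := by
  intro i
  induction i with
  | zero =>
    intro _
    rw [pow_zero, pow_zero, one_mul, Nat.one_le_iff_ne_zero, ← Nat.pos_iff_ne_zero,
      Finset.card_pos]
    exact ⟨Fin.elim0, Finset.mem_filter.2 ⟨Finset.mem_univ _, fun l => l.elim0, fun l => l.elim0⟩⟩
  | succ i ih =>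
    intro hi
    set N := Finset.univ.filter
      (fun b : Fin i → (Fin m → ZMod 2) => (∀ l, b l ∈ Y1) ∧ SepSeq t b) with hN
    have h1 := ih (by omega)
    have h2 : ∑ b ∈ N, (Y1.filter (fun y =>
        SepSeq t (Fin.snoc (α := fun _ => Fin m → ZMod 2) b y))).card ≤
        (Finset.univ.filter (fun b : Fin (i + 1) → (Fin m → ZMod 2) =>
          (∀ l, b l ∈ Y1) ∧ SepSeq t b)).card := by
      rw [← Finset.card_sigma]
      refine Finset.card_le_card_of_injOn
        (fun p => Fin.snoc (α := fun _ => Fin m → ZMod 2) p.1 p.2) ?_ ?_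
      · rintro ⟨b, y⟩ hp
        rw [Finset.mem_coe, Finset.mem_sigma] at hp
        obtain ⟨hp1, hp2⟩ := hp
        have hp1' := (Finset.mem_filter.1 hp1).2
        have hp2' := Finset.mem_filter.1 hp2
        rw [Finset.mem_coe, Finset.mem_filter]
        refine ⟨Finset.mem_univ _, fun l => ?_, hp2'.2⟩
        refine Fin.lastCases ?_ (fun l => ?_) l
        · show Fin.snoc (α := fun _ => Fin m → ZMod 2) b y (Fin.last i) ∈ Y1
          rw [Fin.snoc_last]; exact hp2'.1
        · show Fin.snoc (α := fun _ => Fin m → ZMod 2) b y l.castSucc ∈ Y1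
          rw [Fin.snoc_castSucc]; exact hp1'.1 l
      · rintro ⟨b, y⟩ _ ⟨b', y'⟩ _ hpp
        have e1 : b = b' := by
          funext l
          have := congrFun hpp l.castSucc
          simpa using this
        have e2 : y = y' := by
          have := congrFun hpp (Fin.last i)
          simpa using this
        rw [e1, e2]
    have h3 : N.card * Y1.card ≤ 2 * ∑ b ∈ N, (Y1.filter (fun y =>
        SepSeq t (Fin.snoc (α := fun _ => Fin m → ZMod 2) b y))).card := by
      rw [← smul_eq_mul, ← Finset.sum_const, Finset.mul_sum]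
      refine Finset.sum_le_sum fun b hb => ?_
      exact half_extend Y1 hprop (by omega) b (Finset.mem_filter.1 hb).2.2
    calc Y1.card ^ (i + 1) = Y1.card ^ i * Y1.card := pow_succ _ _
      _ ≤ (2 ^ i * N.card) * Y1.card := Nat.mul_le_mul_right _ h1
      _ = 2 ^ i * (N.card * Y1.card) := by ring
      _ ≤ 2 ^ i * (2 * ∑ b ∈ N, (Y1.filter (fun y =>
        SepSeq t (Fin.snoc (α := fun _ => Fin m → ZMod 2) b y))).card) :=
          Nat.mul_le_mul_left _ h3
      _ ≤ 2 ^ i * (2 * _) := Nat.mul_le_mul_left _ (Nat.mul_le_mul_left _ h2)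
      _ = _ := by rw [pow_succ]; ring

end Pool.Agent.X65.RamDeg
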