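import Pool.Agent.X65.RamDeg.Union
import Pool.Agent.X65.RamDeg.Final

/-!
For every fixed degree the exponent in the bound is sharp.
-/

namespace Pool.Agent.X65.RamDeg

open MvPolynomial Finset

variable {m t : ℕ}

theorem symForm_comm (Q : PolyMap m t) (x y : Fin m → ZMod 2) : symForm Q x y = symForm Q y x :=
  Finset.sum_congr rfl fun _ _ => add_comm _ _

theorem symForm_self (Q : PolyMap m t) (x : Fin m → ZMod 2) : symForm Q x x = 0 :=
  Finset.sum_eq_zero fun _ _ => CharTwo.add_self_eq_zero _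

/-- a good map gives a colouring -/
theorem colouring_of_good {κ : ℕ} (Q : PolyMap m t) (hQ : ¬ BadMap κ Q) :
    ∃ (G : SimpleGraph (Fin m → ZMod 2)) (P : MvPolynomial (Fin m ⊕ Fin m) (ZMod 2)),
      P.totalDegree ≤ t + 1 ∧ (∀ x y, G.Adj x y ↔ eval (Sum.elim x y) P = 1) ∧
      G.CliqueFree (2 ^ κ) ∧ Gᶜ.CliqueFree (2 ^ κ) := by
  classical
  choose p hp hpe using fun l => (Q l).2
  let G : SimpleGraph (Fin m → ZMod 2) :=
    { Adj := fun x y => symForm Q x y = 1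
      symm := ⟨fun x y h => by rw [symForm_comm]; exact h⟩
      loopless := ⟨fun x h => by
        rw [symForm_self] at h
        exact zero_ne_one h⟩ }
  refine ⟨G, ∑ l, (X (Sum.inr l) * rename Sum.inl (p l) + X (Sum.inl l) * rename Sum.inr (p l)),
    ?_, ?_, ?_, ?_⟩
  · refine (totalDegree_finsetSum _ _).trans (Finset.sup_le fun l _ => ?_)
    refine (totalDegree_add _ _).trans (max_le ?_ ?_)
    · refine (totalDegree_mul _ _).trans ?_
      have := (totalDegree_rename_le (Sum.inl : Fin m → Fin m ⊕ Fin m) (p l)).trans (hp l)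
      rw [totalDegree_X]
      omega
    · refine (totalDegree_mul _ _).trans ?_
      have := (totalDegree_rename_le (Sum.inr : Fin m → Fin m ⊕ Fin m) (p l)).trans (hp l)
      rw [totalDegree_X]
      omega
  · intro x y
    have : eval (Sum.elim x y) (∑ l, (X (Sum.inr l) * rename Sum.inl (p l) +
        X (Sum.inl l) * rename Sum.inr (p l)) : MvPolynomial (Fin m ⊕ Fin m) (ZMod 2)) =
        symForm Q x y := by
      rw [map_sum, symForm]
      refine Finset.sum_congr rfl fun l _ => ?_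
      rw [map_add, map_mul, map_mul, eval_X, eval_X, eval_rename, eval_rename, Sum.elim_inl,
        Sum.elim_inr, Sum.elim_comp_inl, Sum.elim_comp_inr, hpe, hpe]
    rw [this]
  · intro A hA
    refine hQ ⟨A, 1, hA.card_eq.symm.le, fun a ha b hb hab => ?_⟩
    exact hA.isClique (Finset.mem_coe.2 ha) (Finset.mem_coe.2 hb) hab
  · intro A hA
    refine hQ ⟨A, 0, hA.card_eq.symm.le, fun a ha b hb hab => ?_⟩
    have h1 := hA.isClique (Finset.mem_coe.2 ha) (Finset.mem_coe.2 hb) hab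
    rw [SimpleGraph.compl_adj] at h1
    exact (zmod2_cases _).resolve_right h1.2

theorem exists_root (κ q' : ℕ) (hκ : 1 ≤ κ) (hq' : 1 ≤ q') :
    ∃ ρ, 1 ≤ ρ ∧ κ ≤ ρ ^ q' ∧ ρ ^ q' ≤ 2 ^ q' * κ := by
  classical
  have hex : ∃ ρ, κ ≤ ρ ^ q' := ⟨κ, Nat.le_self_pow (by omega) κ⟩
  obtain ⟨ρ, hρ, hmin⟩ : ∃ ρ, κ ≤ ρ ^ q' ∧ ∀ r < ρ, ¬ κ ≤ r ^ q' :=
    ⟨Nat.find hex, Nat.find_spec hex, fun r hr => Nat.find_min hex hr⟩
  have hρ1 : 1 ≤ ρ := by
    by_contra h
    have h0 : ρ = 0 := by omega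
    rw [h0, zero_pow (by omega)] at hρ
    omega
  refine ⟨ρ, hρ1, hρ, ?_⟩
  rcases Nat.lt_or_ge 1 ρ with h1 | h1
  · have h2 := hmin (ρ - 1) (by omega)
    rw [not_le] at h2
    calc ρ ^ q' ≤ (2 * (ρ - 1)) ^ q' := Nat.pow_le_pow_left (by omega) _
      _ = 2 ^ q' * (ρ - 1) ^ q' := mul_pow _ _ _
      _ ≤ _ := Nat.mul_le_mul_left _ h2.le
  · have h2 : ρ = 1 := by omega
    rw [h2, one_pow]
    exact Nat.one_le_iff_ne_zero.2 (by positivity)

/-- **Theorem.** For fixed degree `t + 1` the exponent `t` is sharp. -/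
theorem exists_sharp (t q : ℕ) (ht : 1 ≤ t) (hq : 1 ≤ q) : ∃ κ₀ : ℕ, ∀ κ ≥ κ₀, ∀ m : ℕ, 1 ≤ m →
    m ^ q ≤ κ ^ (t * q - 1) →
    ∃ (G : SimpleGraph (Fin m → ZMod 2)) (P : MvPolynomial (Fin m ⊕ Fin m) (ZMod 2)),
      P.totalDegree ≤ t + 1 ∧ (∀ x y, G.Adj x y ↔ eval (Sum.elim x y) P = 1) ∧
      G.CliqueFree (2 ^ κ) ∧ Gᶜ.CliqueFree (2 ^ κ) := by
  obtain ⟨q', hq'⟩ : ∃ q', q' = q + 1 := ⟨_, rfl⟩
  have hq'1 : 1 ≤ q' := by omega
  set J := t * q' with hJ
  have hJ1 : 1 ≤ J := Nat.one_le_iff_ne_zero.2 (by positivity)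
  set D := 2 * ((8 * J) ^ (t - 1) * (t - 1).factorial) with hD
  have hev : ∃ κ₁ : ℕ, ∀ κ ≥ κ₁, (2 * κ ^ t) ^ 2 ≤ 2 ^ κ := by
    have h1 := tendsto_pow_const_mul_const_pow_of_abs_lt_one (2 * t) (r := (1 / 2 : ℝ)) (by
      rw [abs_of_pos (by norm_num)]; norm_num)
    have h2 := h1.eventually (gt_mem_nhds (show (0 : ℝ) < 1 / 4 by norm_num))
    obtain ⟨κ₁, hκ₁⟩ := Filter.eventually_atTop.1 h2
    refine ⟨κ₁, fun κ hκ => ?_⟩
    have h3 := (hκ₁ κ hκ).le
    have h4 : ((2 * κ ^ t) ^ 2 : ℝ) ≤ 2 ^ κ := by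
      have h5 : (0 : ℝ) < 2 ^ κ := by positivity
      have h6 : (κ : ℝ) ^ (2 * t) * (1 / 2) ^ κ = (κ : ℝ) ^ (2 * t) / 2 ^ κ := by
        rw [one_div, inv_pow, div_eq_mul_inv]
      rw [h6, div_le_iff₀ h5] at h3
      have h7 : ((2 * κ ^ t) ^ 2 : ℝ) = 4 * (κ : ℝ) ^ (2 * t) := by ring
      rw [h7]
      linarith
    exact_mod_cast h4
  obtain ⟨κ₁, hκ₁⟩ := hev
  refine ⟨max κ₁ (max (8 * J * (t + 1)) ((10 * D) ^ (q * q') + 1)), fun κ hκ m hm1 hm => ?_⟩
  have hκa : κ₁ ≤ κ := (le_max_left _ _).trans hκ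
  have hκb : 8 * J * (t + 1) ≤ κ := ((le_max_left _ _).trans (le_max_right _ _)).trans hκ
  have hκc : (10 * D) ^ (q * q') < κ :=
    ((le_max_right _ _).trans (le_max_right _ _)).trans hκ
  have hκ1 : 1 ≤ κ := by omega
  -- the parameters
  obtain ⟨n, hn⟩ : ∃ n, κ / (4 * J) = n + 1 := by
    refine ⟨κ / (4 * J) - 1, ?_⟩
    have : 1 ≤ κ / (4 * J) := by
      rw [Nat.one_le_div_iff (by omega)]
      nlinarith
    omega
  have hdiv := Nat.div_add_mod κ (4 * J)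
  have hmod := Nat.mod_lt κ (by omega : 0 < 4 * J)
  rw [hn] at hdiv
  have hnJ : (2 * n + 2) * J * 2 ≤ κ := by
    have : (2 * n + 2) * J * 2 = 4 * J * (n + 1) := by ring
    omega
  set κ' := κ - (2 * n + 2) * J with hκ'
  have hκ'2 : κ ≤ 2 * κ' := by omega
  obtain ⟨ρ, hρ1, hρ2, hρ3⟩ := exists_root κ q' hκ1 (by omega)
  set Cn := ∑ j ∈ Finset.range t, n.choose j with hCn
  have hmt : m ≤ κ ^ t := by
    have h1 : m ^ q ≤ (κ ^ t) ^ q := by
      rw [← pow_mul]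
      exact hm.trans (Nat.pow_le_pow_right hκ1 (Nat.sub_le _ _))
    exact (Nat.pow_le_pow_iff_left (by omega)).1 h1
  -- the size of `Cn`
  have hC1 : κ ^ (t - 1) ≤ (8 * J) ^ (t - 1) * (t - 1).factorial * Cn := by
    have h1 : κ ≤ 8 * J * (n + 1 - (t - 1)) := by
      obtain ⟨t', rfl⟩ : ∃ t', t = t' + 1 := ⟨t - 1, by omega⟩
      rw [Nat.add_sub_cancel]
      have h2 : t' ≤ n + 1 := by
        by_contra hlt
        rw [not_le] at hlt
        have : 4 * J * (n + 1) ≤ 4 * J * t' := Nat.mul_le_mul_left _ hlt.le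
        nlinarith
      obtain ⟨r, hr⟩ : ∃ r, n + 1 = t' + r := ⟨n + 1 - t', by omega⟩
      rw [hr] at hdiv ⊢
      rw [Nat.add_sub_cancel_left]
      nlinarith
    have h2 : (n + 1 - (t - 1)) ^ (t - 1) ≤ (t - 1).factorial * n.choose (t - 1) := by
      rw [← Nat.descFactorial_eq_factorial_mul_choose]
      exact Nat.pow_sub_le_descFactorial n (t - 1)
    have h3 : n.choose (t - 1) ≤ Cn :=
      Finset.single_le_sum (f := fun j => n.choose j) (fun _ _ => Nat.zero_le _)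
        (Finset.mem_range.2 (by omega))
    calc κ ^ (t - 1) ≤ (8 * J * (n + 1 - (t - 1))) ^ (t - 1) := Nat.pow_le_pow_left h1 _
      _ = (8 * J) ^ (t - 1) * (n + 1 - (t - 1)) ^ (t - 1) := mul_pow _ _ _
      _ ≤ (8 * J) ^ (t - 1) * ((t - 1).factorial * n.choose (t - 1)) :=
          Nat.mul_le_mul_left _ h2
      _ ≤ (8 * J) ^ (t - 1) * ((t - 1).factorial * Cn) :=
          Nat.mul_le_mul_left _ (Nat.mul_le_mul_left _ h3)
      _ = _ := by ring
  have hC2 : κ ^ t ≤ D * (κ' * Cn) := by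
    obtain ⟨t', rfl⟩ : ∃ t', t = t' + 1 := ⟨t - 1, by omega⟩
    rw [Nat.add_sub_cancel] at hC1 hD
    calc κ ^ (t' + 1) = κ ^ t' * κ := pow_succ _ _
      _ ≤ ((8 * J) ^ t' * t'.factorial * Cn) * (2 * κ') := Nat.mul_le_mul hC1 hκ'2
      _ = _ := by rw [hD]; ring
  have hmain : 5 * m * ρ ≤ κ' * Cn := by
    by_contra hlt
    rw [not_le] at hlt
    have h1 : κ ^ t ≤ 5 * D * (m * ρ) := by
      calc κ ^ t ≤ D * (κ' * Cn) := hC2
        _ ≤ D * (5 * m * ρ) := Nat.mul_le_mul_left _ hlt.le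
        _ = _ := by ring
    have h2 : (κ ^ t) ^ (q * q') ≤ (10 * D) ^ (q * q') * κ ^ (t * (q * q') - 1) := by
      calc (κ ^ t) ^ (q * q') ≤ (5 * D * (m * ρ)) ^ (q * q') := Nat.pow_le_pow_left h1 _
        _ = (5 * D) ^ (q * q') * ((m ^ q) ^ q' * (ρ ^ q') ^ q) := by
            have e0 : (m * ρ) ^ (q * q') = (m ^ q) ^ q' * (ρ ^ q') ^ q := by
              rw [mul_pow, pow_mul m q q', mul_comm q q', pow_mul ρ q' q]
            rw [mul_pow (5 * D), e0]
        _ ≤ (5 * D) ^ (q * q') * ((κ ^ (t * q - 1)) ^ q' * (2 ^ q' * κ) ^ q) :=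
            Nat.mul_le_mul_left _ (Nat.mul_le_mul (Nat.pow_le_pow_left hm _)
              (Nat.pow_le_pow_left hρ3 _))
        _ = (10 * D) ^ (q * q') * κ ^ (t * (q * q') - 1) := by
            have e1 : (10 * D) ^ (q * q') = (5 * D) ^ (q * q') * 2 ^ (q' * q) := by
              rw [mul_comm q' q, ← mul_pow]
              congr 1
              ring
            have e2 : t * (q * q') - 1 = (t * q - 1) * q' + q := by
              obtain ⟨a, ha⟩ : ∃ a, t * q = a + 1 := by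
                refine ⟨t * q - 1, ?_⟩
                have : 1 ≤ t * q := Nat.one_le_iff_ne_zero.2 (by positivity)
                omega
              rw [← mul_assoc, ha, Nat.add_sub_cancel, hq', add_mul, one_mul, ← add_assoc,
                Nat.add_sub_cancel]
            have e3 : (κ ^ (t * q - 1)) ^ q' = κ ^ ((t * q - 1) * q') := (pow_mul _ _ _).symm
            have e4 : (2 ^ q' * κ) ^ q = 2 ^ (q' * q) * κ ^ q := by
              rw [mul_pow, ← pow_mul]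
            rw [e1, e2, e3, e4, pow_add]
            ring
    have h3 : κ * κ ^ (t * (q * q') - 1) ≤ (10 * D) ^ (q * q') * κ ^ (t * (q * q') - 1) := by
      refine le_trans (le_of_eq ?_) h2
      rw [← pow_mul, ← pow_succ']
      congr 1
      have : 1 ≤ t * (q * q') := Nat.one_le_iff_ne_zero.2 (by positivity)
      omega
    have h4 := Nat.le_of_mul_le_mul_right h3 (by positivity)
    omega
  have hρJ : m ≤ ρ ^ J := by
    calc m ≤ κ ^ t := hmt
      _ ≤ (ρ ^ q') ^ t := Nat.pow_le_pow_left hρ2 t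
      _ = ρ ^ J := by rw [← pow_mul, hJ, mul_comm q' t]
  have h2m : 2 * m ≤ 2 ^ κ' := by
    have h1 : (2 * m) ^ 2 ≤ (2 ^ κ') ^ 2 := by
      calc (2 * m) ^ 2 ≤ (2 * κ ^ t) ^ 2 := Nat.pow_le_pow_left (Nat.mul_le_mul_left _ hmt) 2
        _ ≤ 2 ^ κ := hκ₁ κ hκa
        _ ≤ 2 ^ (κ' * 2) := Nat.pow_le_pow_right (by norm_num) (by omega)
        _ = _ := pow_mul _ _ _
    exact (Nat.pow_le_pow_iff_left (by norm_num)).1 h1
  obtain ⟨Q, hQ⟩ := exists_good (t := t) (m := m) (κ := κ) (n := n) (J := J) (ρ := ρ) ht hm1 hJ1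
    (by omega) hρ1 hρJ h2m hmain
  exact colouring_of_good Q hQ

end Pool.Agent.X65.RamDeg
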