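import Pool.Agent.X65.RamDeg.Rank

/-!
Sets all of whose large subsets span a space of large dimension have large Hilbert functions.
-/

namespace Pool.Agent.X65.RamDeg

open MvPolynomial Finset

variable {m : ℕ}

/-- the dimension of the span -/
noncomputable def dimSpan (Z : Finset (Fin m → ZMod 2)) : ℕ :=
  Module.finrank (ZMod 2) (Submodule.span (ZMod 2) (Z : Set (Fin m → ZMod 2)))

theorem dimSpan_mono {Y Z : Finset (Fin m → ZMod 2)} (h : Y ⊆ Z) : dimSpan Y ≤ dimSpan Z :=
  Submodule.finrank_mono (Submodule.span_mono (by exact_mod_cast h))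

theorem dimSpan_le (Z : Finset (Fin m → ZMod 2)) : dimSpan Z ≤ m := by
  have h := Submodule.finrank_le (Submodule.span (ZMod 2) (Z : Set (Fin m → ZMod 2)))
  rwa [Module.finrank_fin_fun] at h

theorem one_le_dimSpan {Z : Finset (Fin m → ZMod 2)} (h : 2 ≤ Z.card) : 1 ≤ dimSpan Z := by
  obtain ⟨x, hx, y, hy, hxy⟩ := Finset.one_lt_card.1 h
  rw [Nat.one_le_iff_ne_zero]
  intro h0
  unfold dimSpan at h0
  rw [Submodule.finrank_eq_zero, Submodule.span_eq_bot] at h0
  exact hxy ((h0 x (by exact_mod_cast hx)).trans (h0 y (by exact_mod_cast hy)).symm)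

/-- prescribed scalar products with independent vectors -/
theorem exists_dot {L : ℕ} (v : Fin L → (Fin m → ZMod 2)) (hv : LinearIndependent (ZMod 2) v)
    (τ : Fin L → ZMod 2) : ∃ w : Fin m → ZMod 2, ∀ j, ∑ i, w i * v j i = τ j := by
  classical
  obtain ⟨f, hf⟩ : ∃ f : (Fin m → ZMod 2) →ₗ[ZMod 2] ZMod 2, ∀ j, f (v j) = τ j := by
    let b := Module.Basis.span hv
    obtain ⟨f, hf⟩ := LinearMap.exists_extend (b.constr (ZMod 2) τ)
    refine ⟨f, fun j => ?_⟩
    have h1 := LinearMap.congr_fun hf (b j)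
    rw [Module.Basis.constr_basis, LinearMap.comp_apply, Submodule.subtype_apply] at h1
    rw [← h1]
    congr 1
    exact congrArg Subtype.val (Module.Basis.span_apply hv j).symm
  refine ⟨fun i => f (Pi.single i 1), fun j => ?_⟩
  rw [← hf j]
  conv_rhs => rw [show v j = ∑ i, v j i • (Pi.single i (1 : ZMod 2) : Fin m → ZMod 2) from by
    funext l
    simp [Finset.sum_apply, Pi.single_apply]]
  rw [map_sum]
  refine Finset.sum_congr rfl fun i _ => ?_
  rw [map_smul, smul_eq_mul, mul_comm]

/-- a basis of the span inside the set -/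
theorem exists_basis_in (Z : Finset (Fin m → ZMod 2)) :
    ∃ v : Fin (dimSpan Z) → (Fin m → ZMod 2), LinearIndependent (ZMod 2) v ∧ (∀ j, v j ∈ Z) ∧
      Submodule.span (ZMod 2) (Set.range v) =
        Submodule.span (ZMod 2) (Z : Set (Fin m → ZMod 2)) := by
  classical
  obtain ⟨b, hb1, hb2, hb3⟩ := exists_linearIndependent (ZMod 2) (Z : Set (Fin m → ZMod 2))
  have hfin : Finite b := (Z.finite_toSet.subset hb1)
  have : Fintype b := Fintype.ofFinite b
  have hcard : Fintype.card b = dimSpan Z := by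
    unfold dimSpan
    rw [← hb2]
    have := finrank_span_eq_card hb3
    rw [Subtype.range_coe] at this
    exact this.symm
  let e : Fin (dimSpan Z) ≃ b := (Fintype.equivFinOfCardEq hcard).symm
  refine ⟨fun j => (e j : Fin m → ZMod 2), hb3.comp e e.injective, fun j => ?_, ?_⟩
  · exact_mod_cast hb1 (e j).2
  · rw [← hb2]
    congr 1
    ext x
    constructor
    · rintro ⟨j, rfl⟩
      exact (e j).2
    · intro hx
      exact ⟨e.symm ⟨x, hx⟩, by simp⟩

/-- the Hilbert function in degree one is at least the dimension of the span -/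
theorem pow_dimSpan_le_restr (Z : Finset (Fin m → ZMod 2)) {t : ℕ} (ht : 1 ≤ t) :
    2 ^ dimSpan Z ≤ Nat.card (restr m t Z) := by
  classical
  have : Finite (restr m t Z) := Set.toFinite _
  obtain ⟨v, hv, hvZ, -⟩ := exists_basis_in Z
  choose w hw using exists_dot v hv
  let F : (Fin (dimSpan Z) → ZMod 2) → restr m t Z := fun τ =>
    ⟨fun x => ∑ i, w τ i * x.1 i, ∑ i, C (w τ i) * X i, by
      refine (totalDegree_finsetSum _ _).trans (Finset.sup_le fun j _ => ?_)
      refine (totalDegree_mul _ _).trans ?_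
      rw [totalDegree_C, totalDegree_X]
      omega, fun x => by simp⟩
  have hF : Function.Injective F := by
    intro τ τ' h
    funext j
    rw [← hw τ j, ← hw τ' j]
    exact congrFun (congrArg Subtype.val h) ⟨v j, hvZ j⟩
  have h2 := Nat.card_le_card_of_injective F hF
  rwa [Nat.card_eq_fintype_card (α := Fin (dimSpan Z) → ZMod 2), Fintype.card_fun, ZMod.card,
    Fintype.card_fin] at h2

theorem restr_mono {t t' : ℕ} (h : t ≤ t') (Z : Finset (Fin m → ZMod 2)) :
    Nat.card (restr m t Z) ≤ Nat.card (restr m t' Z) := by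
  have : Finite (restr m t' Z) := Set.toFinite _
  refine Nat.card_le_card_of_injective (fun g => ⟨g.1, ?_⟩) ?_
  · obtain ⟨P, hP, hPe⟩ := g.2
    exact ⟨P, hP.trans h, hPe⟩
  · intro g g' hgg
    exact Subtype.ext (congrArg (fun z : restr m t' Z => z.1) hgg)

/-- splitting by an affine form -/
theorem restr_split {t : ℕ} (Z Z0 Z1 : Finset (Fin m → ZMod 2)) (h0 : Z0 ⊆ Z) (h1 : Z1 ⊆ Z)
    (l : MvPolynomial (Fin m) (ZMod 2)) (hl : l.totalDegree ≤ 1)
    (hl0 : ∀ x ∈ Z0, eval x l = 0) (hl1 : ∀ x ∈ Z1, eval x l = 1) :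
    Nat.card (restr m (t + 1) Z0) * Nat.card (restr m t Z1) ≤ Nat.card (restr m (t + 1) Z) := by
  classical
  have : Finite (restr m (t + 1) Z) := Set.toFinite _
  choose P hP hPe using fun g : restr m (t + 1) Z0 => g.2
  choose Q hQ hQe using fun g : restr m t Z1 => g.2
  let F : restr m (t + 1) Z0 × restr m t Z1 → restr m (t + 1) Z := fun p =>
    ⟨fun x => eval x.1 (P p.1) + eval x.1 l * eval x.1 (Q p.2), P p.1 + l * Q p.2, by
        refine (totalDegree_add _ _).trans (max_le (hP p.1) ?_)
        refine (totalDegree_mul _ _).trans ?_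
        have := hQ p.2
        omega, fun x => by rw [map_add, map_mul]⟩
  have hF : Function.Injective F := by
    rintro ⟨g, h⟩ ⟨g', h'⟩ heq
    have e1 : ∀ x : Z, eval x.1 (P g) + eval x.1 l * eval x.1 (Q h) =
        eval x.1 (P g') + eval x.1 l * eval x.1 (Q h') := by
      intro x
      exact congrFun (congrArg Subtype.val heq) x
    have hg : g = g' := by
      apply Subtype.ext
      funext x
      rw [← hPe g x, ← hPe g' x]
      have e0 := e1 ⟨x.1, h0 x.2⟩
      simp only [hl0 x.1 x.2, zero_mul, add_zero] at e0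
      exact e0
    subst hg
    have hh : h = h' := by
      apply Subtype.ext
      funext x
      rw [← hQe h x, ← hQe h' x]
      have e0 := e1 ⟨x.1, h1 x.2⟩
      simp only [hl1 x.1 x.2, one_mul] at e0
      exact add_left_cancel e0
    rw [hh]
  have h2 := Nat.card_le_card_of_injective F hF
  rwa [Nat.card_prod] at h2

/-- some linear form splits the set into two parts with at least a quarter of the points -/
theorem exists_split (Z : Finset (Fin m → ZMod 2)) (hZ : 4 ≤ Z.card) :
    ∃ w : Fin m → ZMod 2, Z.card ≤ 4 * (Z.filter (fun x => ∑ i, w i * x i = 0)).card ∧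
      Z.card ≤ 4 * (Z.filter (fun x => ¬ ∑ i, w i * x i = 0)).card := by
  classical
  -- double counting of separated ordered pairs
  have hsep : ∀ p ∈ Z.offDiag, 2 * (Finset.univ.filter (fun w : Fin m → ZMod 2 =>
      ¬ ∑ i, w i * (p.1 i - p.2 i) = 0)).card = Fintype.card (Fin m → ZMod 2) := by
    intro p hp
    have hne : p.1 - p.2 ≠ 0 := sub_ne_zero.2 (Finset.mem_offDiag.1 hp).2.2
    have h1 := two_mul_card_forms (p.1 - p.2) hne
    have h2 := Finset.card_filter_add_card_filter_not
      (s := (Finset.univ : Finset (Fin m → ZMod 2)))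
      (fun w : Fin m → ZMod 2 => ∑ i, w i * (p.1 - p.2) i = 0)
    rw [Finset.card_univ] at h2
    simp only [Pi.sub_apply] at h1 h2
    omega
  have hpairs : ∀ w : Fin m → ZMod 2,
      (Z.offDiag.filter (fun p => ¬ ∑ i, w i * (p.1 i - p.2 i) = 0)).card ≤
        2 * ((Z.filter (fun x => ∑ i, w i * x i = 0)).card *
          (Z.filter (fun x => ¬ ∑ i, w i * x i = 0)).card) := by
    intro w
    set Z0 := Z.filter (fun x => ∑ i, w i * x i = 0)
    set Z1 := Z.filter (fun x => ¬ ∑ i, w i * x i = 0)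
    have hsub : Z.offDiag.filter (fun p => ¬ ∑ i, w i * (p.1 i - p.2 i) = 0) ⊆
        (Z0 ×ˢ Z1) ∪ (Z1 ×ˢ Z0) := by
      intro p hp
      rw [Finset.mem_filter, Finset.mem_offDiag] at hp
      obtain ⟨⟨hp1, hp2, -⟩, hp3⟩ := hp
      have hlin : ∑ i, w i * (p.1 i - p.2 i) = ∑ i, w i * p.1 i - ∑ i, w i * p.2 i := by
        rw [← Finset.sum_sub_distrib]
        exact Finset.sum_congr rfl fun i _ => by ring
      rw [hlin] at hp3
      rw [Finset.mem_union, Finset.mem_product, Finset.mem_product]
      rcases zmod2_cases (∑ i, w i * p.1 i) with h | h <;>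
        rcases zmod2_cases (∑ i, w i * p.2 i) with h' | h'
      · rw [h, h'] at hp3; exact absurd (by decide) hp3
      · left
        exact ⟨Finset.mem_filter.2 ⟨hp1, h⟩, Finset.mem_filter.2 ⟨hp2, by rw [h']; decide⟩⟩
      · right
        exact ⟨Finset.mem_filter.2 ⟨hp1, by rw [h]; decide⟩, Finset.mem_filter.2 ⟨hp2, h'⟩⟩
      · rw [h, h'] at hp3; exact absurd (by decide) hp3
    calc _ ≤ ((Z0 ×ˢ Z1) ∪ (Z1 ×ˢ Z0)).card := Finset.card_le_card hsub
      _ ≤ (Z0 ×ˢ Z1).card + (Z1 ×ˢ Z0).card := Finset.card_union_le _ _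
      _ = _ := by rw [Finset.card_product, Finset.card_product]; ring
  by_contra hcon
  push Not at hcon
  have hbad : ∀ w : Fin m → ZMod 2, 4 * ((Z.filter (fun x => ∑ i, w i * x i = 0)).card *
      (Z.filter (fun x => ¬ ∑ i, w i * x i = 0)).card) < Z.card * (Z.card - 1) := by
    intro w
    have hsum := Finset.card_filter_add_card_filter_not (s := Z) (fun x => ∑ i, w i * x i = 0)
    have hw := hcon w
    set a := (Z.filter (fun x => ∑ i, w i * x i = 0)).card
    set b := (Z.filter (fun x => ¬ ∑ i, w i * x i = 0)).card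
    obtain ⟨N, hN⟩ : ∃ N, Z.card = N + 1 := ⟨Z.card - 1, by omega⟩
    rw [hN] at hsum hw hZ ⊢
    rw [Nat.add_sub_cancel]
    by_cases ha : 4 * a < N + 1
    · nlinarith
    · have hb : 4 * b < N + 1 := by
        by_contra hb
        exact absurd (hw (by omega)) (by omega)
      nlinarith
  have htot : ∑ w : Fin m → ZMod 2,
      2 * (Z.offDiag.filter (fun p => ¬ ∑ i, w i * (p.1 i - p.2 i) = 0)).card =
        Z.offDiag.card * Fintype.card (Fin m → ZMod 2) := by
    have h2 : ∑ w : Fin m → ZMod 2,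
        2 * (Z.offDiag.filter (fun p => ¬ ∑ i, w i * (p.1 i - p.2 i) = 0)).card =
        ∑ p ∈ Z.offDiag, 2 * (Finset.univ.filter
          (fun w : Fin m → ZMod 2 => ¬ ∑ i, w i * (p.1 i - p.2 i) = 0)).card := by
      simp only [Finset.card_filter, Finset.mul_sum]
      rw [Finset.sum_comm]
    rw [h2, Finset.sum_congr rfl hsep, Finset.sum_const, smul_eq_mul]
  have hlt : ∑ w : Fin m → ZMod 2,
      2 * (Z.offDiag.filter (fun p => ¬ ∑ i, w i * (p.1 i - p.2 i) = 0)).card <
        ∑ _w : Fin m → ZMod 2, Z.card * (Z.card - 1) := by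
    refine Finset.sum_lt_sum_of_nonempty ⟨0, Finset.mem_univ _⟩ (fun w _ => ?_)
    have h3 := hpairs w
    have h4 := hbad w
    omega
  rw [htot, Finset.sum_const, Finset.card_univ, smul_eq_mul, Finset.offDiag_card,
    Nat.mul_sub, mul_one, mul_comm] at hlt
  exact lt_irrefl _ hlt

/-- **Lemma.** If all subsets of `Z` with at least `σ` points span a space of dimension at least
`lam` and `Z` has at least `4^n σ` points, then its Hilbert function in degree `t` is at least
`lam ∑_{j < t} C(n, j)`. -/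
theorem pow_le_restr_of_spread (n : ℕ) : ∀ (t σ lam : ℕ) (Z : Finset (Fin m → ZMod 2)), 1 ≤ t →
    1 ≤ σ → (∀ Y ⊆ Z, σ ≤ Y.card → lam ≤ dimSpan Y) → 4 ^ n * σ ≤ Z.card →
    2 ^ (lam * ∑ j ∈ Finset.range t, n.choose j) ≤ Nat.card (restr m t Z) := by
  classical
  induction n with
  | zero =>
    intro t σ lam Z ht hσ hsp hZ
    obtain ⟨t', rfl⟩ : ∃ t', t = t' + 1 := ⟨t - 1, by omega⟩
    rw [Finset.sum_range_succ']
    simp only [Nat.choose_zero_succ, Finset.sum_const_zero, Nat.choose_zero_right, zero_add,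
      mul_one]
    refine le_trans (Nat.pow_le_pow_right (by norm_num) (hsp Z (Finset.Subset.refl Z) ?_))
      (pow_dimSpan_le_restr Z ht)
    simpa using hZ
  | succ n ih =>
    intro t σ lam Z ht hσ hsp hZ
    obtain ⟨t', rfl⟩ : ∃ t', t = t' + 1 := ⟨t - 1, by omega⟩
    have h4 : 4 ≤ Z.card := by
      have : 1 ≤ 4 ^ n * σ := Nat.one_le_iff_ne_zero.2 (by positivity)
      rw [pow_succ] at hZ
      nlinarith
    obtain ⟨w, hw0, hw1⟩ := exists_split Z h4
    set Z0 := Z.filter (fun x => ∑ i, w i * x i = 0) with hZ0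
    set Z1 := Z.filter (fun x => ¬ ∑ i, w i * x i = 0) with hZ1
    have hs0 : Z0 ⊆ Z := Finset.filter_subset _ _
    have hs1 : Z1 ⊆ Z := Finset.filter_subset _ _
    rw [pow_succ] at hZ
    rcases Nat.eq_zero_or_pos t' with h0 | h0
    · subst h0
      rw [zero_add, Finset.sum_range_one, Nat.choose_zero_right, mul_one]
      refine le_trans (Nat.pow_le_pow_right (by norm_num) (hsp Z (Finset.Subset.refl Z) ?_))
        (pow_dimSpan_le_restr Z (le_refl 1))
      have : 1 ≤ 4 ^ n := Nat.one_le_pow _ _ (by norm_num)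
      nlinarith
    · have e0 := ih (t' + 1) σ lam Z0 ht hσ (fun Y hY => hsp Y (hY.trans hs0)) (by nlinarith)
      have e1 := ih t' σ lam Z1 h0 hσ (fun Y hY => hsp Y (hY.trans hs1)) (by nlinarith)
      have hl : ((∑ i, C (w i) * X i : MvPolynomial (Fin m) (ZMod 2))).totalDegree ≤ 1 := by
        refine (totalDegree_finsetSum _ _).trans (Finset.sup_le fun j _ => ?_)
        refine (totalDegree_mul _ _).trans ?_
        rw [totalDegree_C, totalDegree_X]
      have hle : ∀ x : Fin m → ZMod 2,
          eval x (∑ i, C (w i) * X i : MvPolynomial (Fin m) (ZMod 2)) = ∑ i, w i * x i := by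
        intro x
        simp
      have h5 := restr_split (t := t') Z Z0 Z1 hs0 hs1 _ hl
        (fun x hx => by rw [hle]; exact (Finset.mem_filter.1 hx).2)
        (fun x hx => by rw [hle]; exact (zmod2_cases _).resolve_left (Finset.mem_filter.1 hx).2)
      refine le_trans ?_ h5
      have hsum : ∑ j ∈ Finset.range (t' + 1), (n + 1).choose j =
          ∑ j ∈ Finset.range (t' + 1), n.choose j + ∑ j ∈ Finset.range t', n.choose j := by
        rw [Finset.sum_range_succ' (fun j => (n + 1).choose j),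
          Finset.sum_range_succ' (fun j => n.choose j)]
        simp only [Nat.choose_succ_succ, Nat.choose_zero_right, Nat.succ_eq_add_one]
        rw [Finset.sum_add_distrib]
        ring
      rw [hsum, mul_add, pow_add]
      exact Nat.mul_le_mul e0 e1

end Pool.Agent.X65.RamDeg
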