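import Mathlib

/-!
Polynomials over `F_2`: affine substitutions and sums over cubes.
-/

namespace Pool.Agent.X65.RamDeg

open MvPolynomial Finset

theorem zmod2_cases (z : ZMod 2) : z = 0 ∨ z = 1 := by
  revert z
  decide

/-- substituting affine forms does not raise the total degree -/
theorem exists_subst {σ τ : Type*} [Fintype τ] {K : Type*} [Field K]
    (P : MvPolynomial σ K) (x : σ → K) (w : τ → σ → K) :
    ∃ Q : MvPolynomial τ K, Q.totalDegree ≤ P.totalDegree ∧
      ∀ t : τ → K, eval t Q = eval (fun i => x i + ∑ j, t j * w j i) P := by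
  classical
  let f : σ → MvPolynomial τ K := fun i => C (x i) + ∑ j, X j * C (w j i)
  have hf : ∀ i, (f i).totalDegree ≤ 1 := by
    intro i
    refine (totalDegree_add _ _).trans (max_le (by simp) ?_)
    refine (totalDegree_finsetSum _ _).trans (Finset.sup_le fun j _ => ?_)
    refine (totalDegree_mul _ _).trans ?_
    simp [totalDegree_X, totalDegree_C]
  have hfe : ∀ i (t : τ → K), eval t (f i) = x i + ∑ j, t j * w j i := by
    intro i t
    simp [f]
  refine ⟨∑ s ∈ P.support, C (coeff s P) * ∏ i ∈ s.support, f i ^ s i, ?_, ?_⟩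
  · refine (totalDegree_finsetSum _ _).trans (Finset.sup_le fun s hs => ?_)
    have h1 : (∏ i ∈ s.support, f i ^ s i).totalDegree ≤ ∑ i ∈ s.support, s i := by
      refine (totalDegree_finsetProd _ _).trans (Finset.sum_le_sum fun i _ => ?_)
      exact (totalDegree_pow _ _).trans ((Nat.mul_le_mul_left _ (hf i)).trans (by simp))
    have h2 : ∑ i ∈ s.support, s i ≤ P.totalDegree := le_totalDegree hs
    refine (totalDegree_mul _ _).trans ?_
    rw [totalDegree_C, zero_add]
    exact h1.trans h2
  · intro t
    rw [map_sum, eval_eq]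
    refine Finset.sum_congr rfl fun s _ => ?_
    rw [map_mul, eval_C, map_prod]
    congr 1
    refine Finset.prod_congr rfl fun i _ => ?_
    rw [map_pow, hfe]

/-- the values of a polynomial of degree less than `#S` sum to zero over an `S`-cube -/
theorem cube_sum {σ ι : Type*} [DecidableEq ι] (P : MvPolynomial σ (ZMod 2))
    (x : σ → ZMod 2) (w : ι → σ → ZMod 2) (S : Finset ι) (h : P.totalDegree < S.card) :
    ∑ T ∈ S.powerset, eval (x + ∑ i ∈ T, w i) P = 0 := by
  classical
  have : Fact (Nat.Prime 2) := ⟨Nat.prime_two⟩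
  obtain ⟨Q, hQ, hQe⟩ := exists_subst P x (fun i : {i // i ∈ S} => w i.1)
  have h1 := MvPolynomial.sum_eval_eq_zero Q (by
    rw [ZMod.card]
    simp only [Fintype.card_coe]
    omega)
  rw [← h1]
  refine Finset.sum_nbij' (fun T => fun i : {i // i ∈ S} => if i.1 ∈ T then 1 else 0)
    (fun t => S.filter (fun i => ∃ h : i ∈ S, t ⟨i, h⟩ = 1)) ?_ ?_ ?_ ?_ ?_
  · intro T _
    exact Finset.mem_univ _
  · intro t _
    rw [Finset.mem_powerset]
    exact Finset.filter_subset _ _
  · intro T hT
    rw [Finset.mem_powerset] at hT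
    ext i
    simp only [Finset.mem_filter]
    constructor
    · rintro ⟨_, _, h2⟩
      by_contra hi
      rw [if_neg hi] at h2
      exact zero_ne_one h2
    · intro hi
      exact ⟨hT hi, hT hi, if_pos hi⟩
  · intro t _
    funext i
    have hz : ∀ z : ZMod 2, z = 0 ∨ z = 1 := zmod2_cases
    rcases hz (t i) with h2 | h2
    · rw [h2, if_neg]
      simp only [Finset.mem_filter]
      rintro ⟨_, _, h3⟩
      rw [h2] at h3
      exact zero_ne_one h3
    · rw [h2, if_pos]
      simp only [Finset.mem_filter]
      exact ⟨i.2, i.2, h2⟩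
  · intro T hT
    rw [Finset.mem_powerset] at hT
    rw [hQe]
    have h3 : (x + ∑ i ∈ T, w i) =
        (fun i => x i + ∑ j : {i // i ∈ S}, (if j.1 ∈ T then (1 : ZMod 2) else 0) * w j.1 i) := by
      funext i
      rw [Pi.add_apply, Finset.sum_apply]
      congr 1
      rw [Finset.sum_coe_sort S (fun j => (if j ∈ T then (1 : ZMod 2) else 0) * w j i)]
      rw [← Finset.sum_subset hT (f := fun j => (if j ∈ T then (1 : ZMod 2) else 0) * w j i)]
      · refine Finset.sum_congr rfl fun j hj => ?_
        rw [if_pos hj, one_mul]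
      · intro j _ hj
        rw [if_neg hj, zero_mul]
    rw [h3]

/-- the same with one further direction -/
theorem cube_sum_add {σ ι : Type*} [DecidableEq ι] (P : MvPolynomial σ (ZMod 2))
    (x δ : σ → ZMod 2) (w : ι → σ → ZMod 2) (S : Finset ι) (h : P.totalDegree ≤ S.card) :
    ∑ T ∈ S.powerset, (eval (x + ∑ i ∈ T, w i) P + eval (x + ∑ i ∈ T, w i + δ) P) = 0 := by
  classical
  have hn : none ∉ S.map Function.Embedding.some := by simp
  have h1 := cube_sum P x (fun o : Option ι => o.elim δ w)
    (insert none (S.map Function.Embedding.some)) (by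
      rw [Finset.card_insert_of_notMem hn, Finset.card_map]
      omega)
  rw [Finset.sum_powerset_insert hn, ← Finset.sum_add_distrib] at h1
  rw [← h1]
  refine Finset.sum_nbij' (fun T => T.map Function.Embedding.some) (fun T => eraseNone T)
    ?_ ?_ ?_ ?_ ?_
  · intro T hT
    rw [Finset.mem_powerset] at hT ⊢
    exact Finset.map_subset_map.2 hT
  · intro T hT
    rw [Finset.mem_powerset] at hT ⊢
    intro i hi
    rw [mem_eraseNone] at hi
    have := hT hi
    simpa using this
  · intro T _
    exact eraseNone_map_some T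
  · intro T hT
    rw [Finset.mem_powerset] at hT
    show (eraseNone T).map Function.Embedding.some = T
    rw [map_some_eraseNone, Finset.erase_eq_of_notMem]
    intro h2
    exact hn (hT h2)
  · intro T _
    have h2 : none ∉ T.map Function.Embedding.some := by simp
    rw [Finset.sum_insert h2, Finset.sum_map]
    simp only [Function.Embedding.some_apply, Option.elim_some, Option.elim_none]
    rw [add_assoc x, add_comm _ δ]

end Pool.Agent.X65.RamDeg
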