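import Pool.Agent.X65.RamDeg.Event

/-!
A random polynomial map of degree `t` gives a colouring of degree `t + 1` without large
monochromatic cliques.
-/

namespace Pool.Agent.X65.RamDeg

open MvPolynomial Finset

variable {m t : ℕ}

/-- the symmetric form of a map -/
def symForm (Q : PolyMap m t) (x y : Fin m → ZMod 2) : ZMod 2 :=
  ∑ l, (y l * (Q l).1 x + x l * (Q l).1 y)

/-- some monochromatic clique has at least `2^κ` vertices -/
def BadMap (κ : ℕ) (Q : PolyMap m t) : Prop :=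
  ∃ (A : Finset (Fin m → ZMod 2)) (c : ZMod 2), 2 ^ κ ≤ A.card ∧
    ∀ a ∈ A, ∀ b ∈ A, a ≠ b → symForm Q a b = c

/-- the length of the sequences -/
def seqLen (t n ρ L : ℕ) : ℕ := ((L + ρ - 1) / ρ) * ∑ j ∈ Finset.range t, n.choose j

theorem seqLen_le {t n ρ L lam : ℕ} (hρ : 1 ≤ ρ) (h : L ≤ ρ * lam) :
    seqLen t n ρ L ≤ lam * ∑ j ∈ Finset.range t, n.choose j := by
  unfold seqLen
  refine Nat.mul_le_mul_right _ ?_
  rw [Nat.div_le_iff_le_mul_add_pred (by omega)]
  omega

theorem le_mul_seqLen {t n ρ L : ℕ} (hρ : 1 ≤ ρ) :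
    L * ∑ j ∈ Finset.range t, n.choose j ≤ ρ * seqLen t n ρ L := by
  unfold seqLen
  rw [← mul_assoc]
  refine Nat.mul_le_mul_right _ ?_
  have h1 := Nat.div_add_mod (L + ρ - 1) ρ
  have h2 := Nat.mod_lt (L + ρ - 1) (by omega : 0 < ρ)
  omega

open Classical in
theorem bad_structure [Fintype (PolyMap m t)] {κ n J ρ : ℕ} (ht : 1 ≤ t) (hJ1 : 1 ≤ J)
    (hJ : (2 * n + 2) * J < κ) (hρ1 : 1 ≤ ρ) (hρ : m ≤ ρ ^ J)
    (hm : 2 * m ≤ 2 ^ (κ - (2 * n + 2) * J)) (Q : PolyMap m t) (hQ : BadMap κ Q) :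
    ∃ L, 1 ≤ L ∧ L ≤ m ∧ ∃ v : Fin L → (Fin m → ZMod 2), LinearIndependent (ZMod 2) v ∧
      2 ^ ((κ - (2 * n + 2) * J) * seqLen t n ρ L) ≤
        (Finset.univ.filter (fun b : Fin (seqLen t n ρ L) → (Fin m → ZMod 2) =>
          ((∀ i, b i ∈ Submodule.span (ZMod 2) (Set.range v)) ∧ SepSeq t b) ∧
            Q ∈ compat t v b)).card := by
  obtain ⟨A, c, hA, hAc⟩ := hQ
  obtain ⟨Y, e, lam, hYA, hYc, he, hL, hsp⟩ := exists_scale A κ (2 * n + 2) J ρ hA hJ1 hJ hρ
  set κ' := κ - (2 * n + 2) * J with hκ'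
  have hbas := exists_basis_in Y
  set L := dimSpan Y with hLdef
  obtain ⟨v, hv, hvY, hvs⟩ := hbas
  have hLm : L ≤ m := dimSpan_le Y
  have h4 : 2 ^ (e + (2 * n + 2)) = 4 * (4 ^ n * 2 ^ e) := by
    rw [show e + (2 * n + 2) = 2 + (2 * n + e) by ring, pow_add, pow_add, pow_mul]
    norm_num
  have hL1 : 1 ≤ L := by
    refine one_le_dimSpan (le_trans ?_ hYc)
    rw [h4]
    have : 1 ≤ 4 ^ n * 2 ^ e := Nat.one_le_iff_ne_zero.2 (by positivity)
    omega
  refine ⟨L, hL1, hLm, v, hv, ?_⟩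
  set Y1 := Y \ (Finset.univ.image v) with hY1
  have hY1c : Y.card ≤ Y1.card + L := by
    have h1 : (Finset.univ.image v).card ≤ L := by
      refine Finset.card_image_le.trans ?_
      rw [Finset.card_univ, Fintype.card_fin]
    have h2 : Y.card - (Finset.univ.image v).card ≤ Y1.card := Finset.le_card_sdiff _ _
    omega
  have hpow : 2 ^ κ' ≤ 2 ^ e := Nat.pow_le_pow_right (by norm_num) he
  have h4n : 1 ≤ 4 ^ n := Nat.one_le_pow _ _ (by norm_num)
  have hmul : 2 ^ e ≤ 4 ^ n * 2 ^ e := Nat.le_mul_of_pos_left _ h4n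
  have hY1half : Y.card ≤ 2 * Y1.card := by omega
  have hprop : ∀ Y' ⊆ Y1, Y1.card ≤ 2 * Y'.card →
      2 ^ seqLen t n ρ L ≤ Nat.card (restr m t Y') := by
    intro Y' hY' hc
    have h5 := pow_le_restr_of_spread n t (2 ^ e) lam Y' ht (Nat.one_le_pow _ _ (by norm_num))
      (fun Z hZ => hsp Z (hZ.trans (hY'.trans Finset.sdiff_subset))) (by omega)
    exact (Nat.pow_le_pow_right (by norm_num) (seqLen_le hρ1 hL)).trans h5
  have hcount := count_sep Y1 hprop (seqLen t n ρ L) le_rfl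
  have hY1big : 2 ^ (κ' + 1) ≤ Y1.card := by
    rw [pow_succ]
    omega
  have h6 : 2 ^ seqLen t n ρ L * 2 ^ (κ' * seqLen t n ρ L) ≤ Y1.card ^ seqLen t n ρ L := by
    calc 2 ^ seqLen t n ρ L * 2 ^ (κ' * seqLen t n ρ L) =
          (2 ^ (κ' + 1)) ^ seqLen t n ρ L := by rw [← pow_mul, ← pow_add]; ring_nf
      _ ≤ _ := Nat.pow_le_pow_left hY1big _
  have h7 := Nat.le_of_mul_le_mul_left (h6.trans hcount) (by positivity)
  refine h7.trans (Finset.card_le_card ?_)
  intro b hb
  rw [Finset.mem_filter] at hb ⊢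
  obtain ⟨-, hb1, hb2⟩ := hb
  have hbY : ∀ i, b i ∈ Y := fun i => (Finset.mem_sdiff.1 (hb1 i)).1
  refine ⟨Finset.mem_univ _, ⟨fun i => ?_, hb2⟩, ?_⟩
  · rw [hvs]
    exact Submodule.subset_span (Finset.mem_coe.2 (hbY i))
  · rw [compat, Finset.mem_filter]
    refine ⟨Finset.mem_univ _, fun j => ⟨c, fun l => (Q l).1 (v j), fun i => ?_⟩⟩
    have hne : b i ≠ v j := by
      intro h
      exact (Finset.mem_sdiff.1 (hb1 i)).2 (Finset.mem_image.2 ⟨j, Finset.mem_univ _, h.symm⟩)
    have h8 := hAc (b i) (hYA (hbY i)) (v j) (hYA (hvY j)) hne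
    unfold symForm at h8
    rw [Finset.sum_add_distrib] at h8
    rw [pairing_apply, ← h8, add_assoc]
    have h9 : ∑ l, b i l * (Q l).1 (v j) + ∑ l, (Q l).1 (v j) * b i l = 0 := by
      have : ∑ l, (Q l).1 (v j) * b i l = ∑ l, b i l * (Q l).1 (v j) :=
        Finset.sum_congr rfl fun l _ => mul_comm _ _
      rw [this]
      exact CharTwo.add_self_eq_zero _
    rw [h9, add_zero]

open Classical in
theorem bad_count_one [Fintype (PolyMap m t)] {κ' L s : ℕ} (v : Fin L → (Fin m → ZMod 2))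
    (hv : LinearIndependent (ZMod 2) v) :
    (Finset.univ.filter (fun Q : PolyMap m t => 2 ^ (κ' * s) ≤
      (Finset.univ.filter (fun b : Fin s → (Fin m → ZMod 2) =>
        ((∀ i, b i ∈ Submodule.span (ZMod 2) (Set.range v)) ∧ SepSeq t b) ∧
          Q ∈ compat t v b)).card)).card * 2 ^ (κ' * s) ≤
      2 ^ ((L + 1) * L) * Fintype.card (PolyMap m t) := by
  set B := Finset.univ.filter (fun b : Fin s → (Fin m → ZMod 2) =>
        (∀ i, b i ∈ Submodule.span (ZMod 2) (Set.range v)) ∧ SepSeq t b) with hB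
  have h1 : ∀ Q : PolyMap m t, (Finset.univ.filter (fun b : Fin s → (Fin m → ZMod 2) =>
        ((∀ i, b i ∈ Submodule.span (ZMod 2) (Set.range v)) ∧ SepSeq t b) ∧
          Q ∈ compat t v b)).card = (B.filter (fun b => Q ∈ compat t v b)).card := by
    intro Q
    rw [hB, Finset.filter_filter]
  have h2 : (Finset.univ.filter (fun Q : PolyMap m t => 2 ^ (κ' * s) ≤
      (Finset.univ.filter (fun b : Fin s → (Fin m → ZMod 2) =>
        ((∀ i, b i ∈ Submodule.span (ZMod 2) (Set.range v)) ∧ SepSeq t b) ∧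
          Q ∈ compat t v b)).card)).card * 2 ^ (κ' * s) ≤
      ∑ Q : PolyMap m t, (B.filter (fun b => Q ∈ compat t v b)).card := by
    rw [← smul_eq_mul, ← Finset.sum_const]
    refine (Finset.sum_le_sum fun Q hQ => ?_).trans
      (Finset.sum_le_sum_of_subset (Finset.filter_subset _ _))
    rw [← h1 Q]
    exact (Finset.mem_filter.1 hQ).2
  have h3 : ∑ Q : PolyMap m t, (B.filter (fun b => Q ∈ compat t v b)).card =
      ∑ b ∈ B, (compat t v b).card := by
    simp only [Finset.card_filter]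
    rw [Finset.sum_comm]
    refine Finset.sum_congr rfl fun b _ => ?_
    rw [← Finset.card_filter]
    congr 1
    ext Q
    simp
  have h4 : (∑ b ∈ B, (compat t v b).card) * 2 ^ (L * s) ≤
      B.card * (2 ^ ((L + 1) * L) * Fintype.card (PolyMap m t)) := by
    rw [Finset.sum_mul, ← smul_eq_mul (a := B.card), ← Finset.sum_const]
    refine Finset.sum_le_sum fun b hb => ?_
    have hb' := (Finset.mem_filter.1 hb).2
    exact card_compat v hv b hb'.2 hb'.1
  have h5 : B.card ≤ 2 ^ (L * s) := by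
    have hspan : Fintype.card (Submodule.span (ZMod 2) (Set.range v)) = 2 ^ L := by
      rw [Module.card_eq_pow_finrank (K := ZMod 2), ZMod.card, finrank_span_eq_card hv,
        Fintype.card_fin]
    have hsub : B ⊆ (Finset.univ : Finset (Fin s → Submodule.span (ZMod 2) (Set.range v))).image
        (fun b i => (b i : Fin m → ZMod 2)) := by
      intro b hb
      have hb' := (Finset.mem_filter.1 hb).2
      exact Finset.mem_image.2 ⟨fun i => ⟨b i, hb'.1 i⟩, Finset.mem_univ _, rfl⟩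
    refine (Finset.card_le_card hsub).trans (Finset.card_image_le.trans ?_)
    rw [Finset.card_univ, Fintype.card_fun, hspan, Fintype.card_fin, ← pow_mul]
  have h6 : (Finset.univ.filter (fun Q : PolyMap m t => 2 ^ (κ' * s) ≤
      (Finset.univ.filter (fun b : Fin s → (Fin m → ZMod 2) =>
        ((∀ i, b i ∈ Submodule.span (ZMod 2) (Set.range v)) ∧ SepSeq t b) ∧
          Q ∈ compat t v b)).card)).card * 2 ^ (κ' * s) * 2 ^ (L * s) ≤
      2 ^ ((L + 1) * L) * Fintype.card (PolyMap m t) * 2 ^ (L * s) := by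
    refine (Nat.mul_le_mul_right _ (h2.trans h3.le)).trans (h4.trans ?_)
    rw [mul_comm B.card]
    exact Nat.mul_le_mul_left _ h5
  exact Nat.le_of_mul_le_mul_right h6 (by positivity)

/-- **Theorem.** Good maps exist. -/
theorem exists_good {κ n J ρ : ℕ} (ht : 1 ≤ t) (hm1 : 1 ≤ m) (hJ1 : 1 ≤ J)
    (hJ : (2 * n + 2) * J < κ) (hρ1 : 1 ≤ ρ) (hρ : m ≤ ρ ^ J)
    (hm : 2 * m ≤ 2 ^ (κ - (2 * n + 2) * J))
    (hC : 5 * m * ρ ≤ (κ - (2 * n + 2) * J) * ∑ j ∈ Finset.range t, n.choose j) :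
    ∃ Q : PolyMap m t, ¬ BadMap κ Q := by
  classical
  have : Fintype (PolyMap m t) := Fintype.ofFinite _
  by_contra hcon
  push Not at hcon
  set κ' := κ - (2 * n + 2) * J with hκ'
  have hs : ∀ L, 5 * m * L ≤ κ' * seqLen t n ρ L := by
    intro L
    have h1 := le_mul_seqLen (t := t) (n := n) (L := L) hρ1
    have h2 : ρ * (5 * m * L) ≤ ρ * (κ' * seqLen t n ρ L) := by
      calc ρ * (5 * m * L) = (5 * m * ρ) * L := by ring
        _ ≤ (κ' * ∑ j ∈ Finset.range t, n.choose j) * L := Nat.mul_le_mul_right _ hC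
        _ = κ' * (L * ∑ j ∈ Finset.range t, n.choose j) := by ring
        _ ≤ κ' * (ρ * seqLen t n ρ L) := Nat.mul_le_mul_left _ h1
        _ = _ := by ring
    exact Nat.le_of_mul_le_mul_left h2 (by omega)
  let bad : (L : ℕ) → (Fin L → (Fin m → ZMod 2)) → Finset (PolyMap m t) := fun L v =>
    Finset.univ.filter (fun Q : PolyMap m t => LinearIndependent (ZMod 2) v ∧
      2 ^ (κ' * seqLen t n ρ L) ≤
      (Finset.univ.filter (fun b : Fin (seqLen t n ρ L) → (Fin m → ZMod 2) =>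
        ((∀ i, b i ∈ Submodule.span (ZMod 2) (Set.range v)) ∧ SepSeq t b) ∧
          Q ∈ compat t v b)).card)
  have hbad1 : ∀ L, 1 ≤ L → L ≤ m → ∀ v : Fin L → (Fin m → ZMod 2),
      (bad L v).card * 2 ^ (3 * m * L) ≤ Fintype.card (PolyMap m t) := by
    intro L hL1 hLm v
    by_cases hv : LinearIndependent (ZMod 2) v
    · have h1 := bad_count_one (t := t) (κ' := κ') (s := seqLen t n ρ L) v hv
      have h2 : (bad L v).card ≤ (Finset.univ.filter (fun Q : PolyMap m t =>
          2 ^ (κ' * seqLen t n ρ L) ≤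
          (Finset.univ.filter (fun b : Fin (seqLen t n ρ L) → (Fin m → ZMod 2) =>
            ((∀ i, b i ∈ Submodule.span (ZMod 2) (Set.range v)) ∧ SepSeq t b) ∧
              Q ∈ compat t v b)).card)).card := by
        refine Finset.card_le_card ?_
        intro Q hQ
        rw [Finset.mem_filter] at hQ ⊢
        exact ⟨hQ.1, hQ.2.2⟩
      have h3 : (bad L v).card * 2 ^ (5 * m * L) ≤
          2 ^ (2 * m * L) * Fintype.card (PolyMap m t) := by
        calc (bad L v).card * 2 ^ (5 * m * L) ≤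
              (bad L v).card * 2 ^ (κ' * seqLen t n ρ L) :=
              Nat.mul_le_mul_left _ (Nat.pow_le_pow_right (by norm_num) (hs L))
          _ ≤ _ := Nat.mul_le_mul_right _ h2
          _ ≤ 2 ^ ((L + 1) * L) * Fintype.card (PolyMap m t) := h1
          _ ≤ _ := Nat.mul_le_mul_right _ (Nat.pow_le_pow_right (by norm_num)
              (Nat.mul_le_mul_right _ (by omega)))
      have h4 : 2 ^ (2 * m * L) * ((bad L v).card * 2 ^ (3 * m * L)) ≤
          2 ^ (2 * m * L) * Fintype.card (PolyMap m t) := by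
        refine le_trans (le_of_eq ?_) h3
        rw [show 5 * m * L = 2 * m * L + 3 * m * L by ring, pow_add]
        ring
      exact Nat.le_of_mul_le_mul_left h4 (by positivity)
    · have h0 : bad L v = ∅ := by
        rw [Finset.eq_empty_iff_forall_notMem]
        intro Q hQ
        exact hv (Finset.mem_filter.1 hQ).2.1
      rw [h0, Finset.card_empty, zero_mul]
      exact Nat.zero_le _
  have hbad2 : ∀ L, 1 ≤ L → L ≤ m →
      ((Finset.univ : Finset (Fin L → (Fin m → ZMod 2))).biUnion (bad L)).card * 2 ^ (2 * m) ≤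
        Fintype.card (PolyMap m t) := by
    intro L hL1 hLm
    have h1 : ((Finset.univ : Finset (Fin L → (Fin m → ZMod 2))).biUnion (bad L)).card *
        2 ^ (3 * m * L) ≤ 2 ^ (m * L) * Fintype.card (PolyMap m t) := by
      refine (Nat.mul_le_mul_right _ Finset.card_biUnion_le).trans ?_
      rw [Finset.sum_mul]
      refine (Finset.sum_le_sum fun v _ => hbad1 L hL1 hLm v).trans ?_
      rw [Finset.sum_const, Finset.card_univ, Fintype.card_fun, Fintype.card_fun, ZMod.card,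
        Fintype.card_fin, Fintype.card_fin, smul_eq_mul, ← pow_mul]
    have h2 : 2 ^ (m * L) * (((Finset.univ : Finset (Fin L → (Fin m → ZMod 2))).biUnion
        (bad L)).card * 2 ^ (2 * m * L)) ≤ 2 ^ (m * L) * Fintype.card (PolyMap m t) := by
      refine le_trans (le_of_eq ?_) h1
      rw [show 3 * m * L = m * L + 2 * m * L by ring, pow_add]
      ring
    have h3 := Nat.le_of_mul_le_mul_left h2 (by positivity)
    refine le_trans (Nat.mul_le_mul_left _ (Nat.pow_le_pow_right (by norm_num) ?_)) h3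
    nlinarith
  have hall : (Finset.univ : Finset (PolyMap m t)) ⊆ (Finset.Icc 1 m).biUnion (fun L =>
      (Finset.univ : Finset (Fin L → (Fin m → ZMod 2))).biUnion (bad L)) := by
    intro Q _
    obtain ⟨L, hL1, hLm, v, hv, hcard⟩ := bad_structure ht hJ1 hJ hρ1 hρ hm Q (hcon Q)
    exact Finset.mem_biUnion.2 ⟨L, Finset.mem_Icc.2 ⟨hL1, hLm⟩, Finset.mem_biUnion.2
      ⟨v, Finset.mem_univ _, Finset.mem_filter.2 ⟨Finset.mem_univ _, hv, hcard⟩⟩⟩
  have h1 := (Finset.card_le_card hall).trans Finset.card_biUnion_le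
  rw [Finset.card_univ] at h1
  have h2 : Fintype.card (PolyMap m t) * 2 ^ (2 * m) ≤ m * Fintype.card (PolyMap m t) := by
    refine (Nat.mul_le_mul_right _ h1).trans ?_
    rw [Finset.sum_mul]
    refine (Finset.sum_le_sum fun L hL => hbad2 L (Finset.mem_Icc.1 hL).1
      (Finset.mem_Icc.1 hL).2).trans ?_
    rw [Finset.sum_const, Nat.card_Icc, smul_eq_mul, Nat.add_sub_cancel]
  have hpos : 0 < Fintype.card (PolyMap m t) := Fintype.card_pos
  rw [mul_comm] at h2
  have h3 := Nat.le_of_mul_le_mul_right h2 hpos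
  have h4 : m < 2 ^ (2 * m) :=
    lt_of_lt_of_le Nat.lt_two_pow_self (Nat.pow_le_pow_right (by norm_num) (by omega))
  omega

end Pool.Agent.X65.RamDeg
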